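import Pool.Agent.LP5.Defs2

/-! LP5: elementary facts on `pol`, `GA`, and the Nullstellensatz step. -/

namespace LP5
open MvPolynomial

variable {F : Type*} [Field F] {K : Type*} [Field K] [Algebra F K] {n m k : ℕ}

theorem aeval_pol (A : Matrix (Fin n) (Fin n) F) (h : Fin m → Fin n → F) (u : Fin n → F)
    (x : Fin m → K) :
    aeval x (pol A h u) = qv (up K A) (lin (fun j => upv K (h j)) (upv K u) x) := by
  simp only [pol, qv, lin, map_sum, map_mul, map_add, aeval_X, algHom_C, Matrix.map_apply]
  refine Finset.sum_congr rfl fun a _ => Finset.sum_congr rfl fun b _ => ?_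
  simp only [mul_comm (x _)]

theorem totalDegree_linear_le (h : Fin m → Fin n → F) (u : Fin n → F) (a : Fin n) :
    ((∑ j, C (h j a) * X j) + C (u a) : MvPolynomial (Fin m) F).totalDegree ≤ 1 := by
  refine (totalDegree_add _ _).trans (max_le ?_ (by simp))
  refine (totalDegree_finsetSum _ _).trans (Finset.sup_le fun j _ => ?_)
  refine (totalDegree_mul _ _).trans ?_
  simp [totalDegree_C, totalDegree_X]

theorem totalDegree_pol_le (A : Matrix (Fin n) (Fin n) F) (h : Fin m → Fin n → F)
    (u : Fin n → F) : (pol A h u).totalDegree ≤ 2 := by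
  unfold pol
  refine (totalDegree_finsetSum _ _).trans (Finset.sup_le fun a _ => ?_)
  refine (totalDegree_finsetSum _ _).trans (Finset.sup_le fun b _ => ?_)
  refine (totalDegree_mul _ _).trans ?_
  have h1 := totalDegree_linear_le h u a
  have h2 := totalDegree_linear_le h u b
  have h3 := (totalDegree_mul (C (A a b)) ((∑ j, C (h j a) * X j) + C (u a)))
  rw [totalDegree_C] at h3
  omega

theorem isHomogeneous_lin (h : Fin m → Fin n → F) (a : Fin n) :
    (∑ j, C (h j a) * X j : MvPolynomial (Fin m) F).IsHomogeneous 1 := by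
  refine IsHomogeneous.sum _ _ _ fun j _ => ?_
  simpa using (isHomogeneous_C (Fin m) (h j a)).mul (isHomogeneous_X F j)

theorem isHomogeneous_pol_zero (A : Matrix (Fin n) (Fin n) F) (h : Fin m → Fin n → F) :
    (pol A h 0).IsHomogeneous 2 := by
  unfold pol
  refine IsHomogeneous.sum _ _ _ fun a _ => IsHomogeneous.sum _ _ _ fun b _ => ?_
  have h1 := isHomogeneous_lin h a
  have h2 := isHomogeneous_lin h b
  have := ((isHomogeneous_C (Fin m) (A a b)).mul h1).mul h2
  simpa using this

theorem homogeneousComponent_pol (A : Matrix (Fin n) (Fin n) F) (h : Fin m → Fin n → F)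
    (u : Fin n → F) : homogeneousComponent 2 (pol A h u) = pol A h 0 := by
  have key : pol A h u = pol A h 0 + ∑ a, ∑ b, C (A a b) *
      ((∑ j, C (h j a) * X j) * C (u b) + C (u a) * (∑ j, C (h j b) * X j) + C (u a) * C (u b)) := by
    simp only [pol, ← Finset.sum_add_distrib]
    refine Finset.sum_congr rfl fun a _ => Finset.sum_congr rfl fun b _ => ?_
    simp only [Pi.zero_apply, map_zero, add_zero]
    ring
  have hlow : (∑ a, ∑ b, C (A a b) *
      ((∑ j, C (h j a) * X j) * C (u b) + C (u a) * (∑ j, C (h j b) * X j) + C (u a) * C (u b)) :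
      MvPolynomial (Fin m) F).totalDegree ≤ 1 := by
    refine (totalDegree_finsetSum _ _).trans (Finset.sup_le fun a _ => ?_)
    refine (totalDegree_finsetSum _ _).trans (Finset.sup_le fun b _ => ?_)
    refine (totalDegree_mul _ _).trans ?_
    rw [totalDegree_C, zero_add]
    have e1 := totalDegree_linear_le h 0 a
    have e2 := totalDegree_linear_le h 0 b
    simp only [Pi.zero_apply, map_zero, add_zero] at e1 e2
    refine (totalDegree_add _ _).trans (max_le ((totalDegree_add _ _).trans (max_le ?_ ?_)) ?_)
    · refine (totalDegree_mul _ _).trans ?_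
      rw [totalDegree_C]; omega
    · refine (totalDegree_mul _ _).trans ?_
      rw [totalDegree_C]; omega
    · rw [← C_mul, totalDegree_C]; omega
  rw [key, map_add, homogeneousComponent_of_mem
    ((mem_homogeneousSubmodule _ _).2 (isHomogeneous_pol_zero A h))]
  have h3 := homogeneousComponent_eq_zero 2 _ (Nat.lt_succ_of_le hlow)
  rw [h3]
  simp

theorem map_pol (A : Matrix (Fin n) (Fin n) F) (h : Fin m → Fin n → F) (u : Fin n → F) :
    MvPolynomial.map (algebraMap F K) (pol A h u) =
      pol (up K A) (fun j => upv K (h j)) (upv K u) := by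
  simp only [pol, map_sum, map_mul, map_add, map_C, map_X, Matrix.map_apply]

theorem GA.zero {q : Fin k → MvPolynomial (Fin m) F} (hq : GA q) (x : Fin m → K)
    (hx : ∀ i, aeval x (q i) = 0) : x = 0 := by
  obtain ⟨D, hD⟩ := hq
  funext j
  have h1 : Ideal.span (Set.range q) ≤ RingHom.ker (aeval x : MvPolynomial (Fin m) F →ₐ[F] K) := by
    rw [Ideal.span_le]
    rintro _ ⟨i, rfl⟩
    exact hx i
  have h2 := h1 (hD j)
  rw [RingHom.mem_ker, map_pow, aeval_X] at h2
  exact eq_zero_of_pow_eq_zero h2

theorem GA.map {q : Fin k → MvPolynomial (Fin m) F} (hq : GA q) :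
    GA fun i => MvPolynomial.map (algebraMap F K) (q i) := by
  obtain ⟨D, hD⟩ := hq
  refine ⟨D, fun j => ?_⟩
  have h1 := Ideal.mem_map_of_mem (MvPolynomial.map (algebraMap F K)) (hD j)
  rw [Ideal.map_span, ← Set.range_comp, map_pow, map_X] at h1
  exact h1

/-- tangent vectors: dual number zero -/
theorem aeval_dual_pol (A : Matrix (Fin n) (Fin n) F) (h : Fin m → Fin n → F) (u : Fin n → F)
    (x w : Fin m → F) (h1 : qv A (lin h u x) = 0) (h2 : pv A (lin h u x) (lin h 0 w) = 0) :
    aeval (fun j => algebraMap F (DualNumber F) (x j) + w j • DualNumber.eps) (pol A h u) = 0 := by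
  have e : ∀ a, (∑ j, algebraMap F (DualNumber F) (h j a) *
      (algebraMap F (DualNumber F) (x j) + w j • DualNumber.eps)) +
      algebraMap F (DualNumber F) (u a) =
      algebraMap F (DualNumber F) (lin h u x a) + lin h 0 w a • DualNumber.eps := by
    intro a
    simp only [lin, map_add, map_sum, map_mul, mul_add, Finset.sum_add_distrib, Pi.zero_apply,
      add_zero, Finset.sum_smul]
    have : ∀ j, algebraMap F (DualNumber F) (h j a) * w j • DualNumber.eps =
        (w j * h j a) • (DualNumber.eps : DualNumber F) := by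
      intro j
      rw [mul_smul_comm, ← Algebra.smul_def, smul_smul]
    simp only [this]
    have h4 : ∀ j, algebraMap F (DualNumber F) (h j a) * algebraMap F (DualNumber F) (x j) =
      algebraMap F (DualNumber F) (x j) * algebraMap F (DualNumber F) (h j a) := fun j => mul_comm _ _
    simp only [h4]
    ring
  simp only [pol, map_sum, map_mul, map_add, aeval_X, algHom_C]
  simp only [e]
  have e2 : ∀ a b, algebraMap F (DualNumber F) (A a b) *
      (algebraMap F (DualNumber F) (lin h u x a) + lin h 0 w a • DualNumber.eps) *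
      (algebraMap F (DualNumber F) (lin h u x b) + lin h 0 w b • DualNumber.eps) =
      algebraMap F (DualNumber F) (A a b * lin h u x a * lin h u x b) +
      (A a b * (lin h u x a * lin h 0 w b + lin h 0 w a * lin h u x b)) • DualNumber.eps := by
    intro a b
    have h0 : (DualNumber.eps : DualNumber F) * DualNumber.eps = 0 := DualNumber.eps_mul_eps
    simp only [Algebra.smul_def, map_mul, map_add]
    linear_combination (algebraMap F (DualNumber F) (A a b)) *
      (algebraMap F (DualNumber F) (lin h 0 w a)) * (algebraMap F (DualNumber F) (lin h 0 w b)) * h0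
  simp only [e2, Finset.sum_add_distrib, ← Finset.sum_smul, ← map_sum]
  have h1' : ∑ a, ∑ b, A a b * lin h u x a * lin h u x b = 0 := h1
  have h2' : ∑ a, ∑ b, A a b * (lin h u x a * lin h 0 w b + lin h 0 w a * lin h u x b) = 0 := h2
  rw [h1', h2', map_zero, zero_smul, add_zero]

theorem homogeneousComponent_mem {q : Fin k → MvPolynomial (Fin m) F}
    (hq : ∀ i, (q i).IsHomogeneous 2) {f : MvPolynomial (Fin m) F}
    (hf : f ∈ Ideal.span (Set.range q)) (d : ℕ) :
    homogeneousComponent d f ∈ Ideal.span (Set.range q) := by
  rw [Ideal.mem_span_range_iff_exists_fun] at hf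
  obtain ⟨c, rfl⟩ := hf
  rw [map_sum]
  refine Ideal.sum_mem _ fun i _ => ?_
  rcases le_or_gt 2 d with hd | hd
  · obtain ⟨e, rfl⟩ := Nat.exists_eq_add_of_le hd
    have : homogeneousComponent (2 + e) (c i * q i) = homogeneousComponent e (c i) * q i := by
      have h1 : c i = ∑ r ∈ Finset.range ((c i).totalDegree + 1), homogeneousComponent r (c i) :=
        (sum_homogeneousComponent (c i)).symm
      conv_lhs => rw [h1]
      rw [Finset.sum_mul, map_sum]
      have h2 : ∀ r, homogeneousComponent (2 + e) (homogeneousComponent r (c i) * q i) =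
          if r = e then homogeneousComponent r (c i) * q i else 0 := by
        intro r
        have h3 : (homogeneousComponent r (c i) * q i).IsHomogeneous (r + 2) :=
          (homogeneousComponent_isHomogeneous r (c i)).mul (hq i)
        rw [homogeneousComponent_of_mem ((mem_homogeneousSubmodule _ _).2 h3)]
        by_cases hr : r = e
        · simp [hr, add_comm]
        · rw [if_neg hr, if_neg (by omega)]
      simp only [h2]
      rw [Finset.sum_ite_eq']
      split_ifs with h
      · rfl
      · rw [homogeneousComponent_eq_zero e (c i) (by simpa using h), zero_mul]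
    rw [this]
    exact Ideal.mul_mem_left _ _ (Ideal.subset_span ⟨i, rfl⟩)
  · have : homogeneousComponent d (c i * q i) = 0 := by
      have h1 : c i = ∑ r ∈ Finset.range ((c i).totalDegree + 1), homogeneousComponent r (c i) :=
        (sum_homogeneousComponent (c i)).symm
      conv_lhs => rw [h1]
      rw [Finset.sum_mul, map_sum]
      refine Finset.sum_eq_zero fun r _ => ?_
      have h3 : (homogeneousComponent r (c i) * q i).IsHomogeneous (r + 2) :=
        (homogeneousComponent_isHomogeneous r (c i)).mul (hq i)
      rw [homogeneousComponent_of_mem ((mem_homogeneousSubmodule _ _).2 h3), if_neg (by omega)]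
    rw [this]
    exact Ideal.zero_mem _

theorem homogeneousComponent_mul_X (f : MvPolynomial (Fin m) F) (j : Fin m) (d : ℕ) :
    homogeneousComponent (d + 1) (f * X j) = homogeneousComponent d f * X j := by
  have h1 : f = ∑ r ∈ Finset.range (f.totalDegree + 1), homogeneousComponent r f :=
    (sum_homogeneousComponent f).symm
  conv_lhs => rw [h1]
  rw [Finset.sum_mul, map_sum]
  have h2 : ∀ r, homogeneousComponent (d + 1) (homogeneousComponent r f * X j) =
      if r = d then homogeneousComponent r f * X j else 0 := by
    intro r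
    have h3 : (homogeneousComponent r f * X j).IsHomogeneous (r + 1) :=
      (homogeneousComponent_isHomogeneous r f).mul (isHomogeneous_X F j)
    rw [homogeneousComponent_of_mem ((mem_homogeneousSubmodule _ _).2 h3)]
    by_cases hr : r = d
    · simp [hr]
    · rw [if_neg hr, if_neg (by omega)]
  simp only [h2]
  rw [Finset.sum_ite_eq']
  split_ifs with h
  · rfl
  · rw [homogeneousComponent_eq_zero d f (by simpa using h), zero_mul]

theorem homogeneousComponent_zero_mul_X (f : MvPolynomial (Fin m) F) (j : Fin m) :
    homogeneousComponent 0 (f * X j) = 0 := by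
  have h1 : f = ∑ r ∈ Finset.range (f.totalDegree + 1), homogeneousComponent r f :=
    (sum_homogeneousComponent f).symm
  conv_lhs => rw [h1]
  rw [Finset.sum_mul, map_sum]
  refine Finset.sum_eq_zero fun r _ => ?_
  have h3 : (homogeneousComponent r f * X j).IsHomogeneous (r + 1) :=
    (homogeneousComponent_isHomogeneous r f).mul (isHomogeneous_X F j)
  rw [homogeneousComponent_of_mem ((mem_homogeneousSubmodule _ _).2 h3), if_neg (by omega)]

theorem not_GA {q : Fin k → MvPolynomial (Fin m) F} (hq : ∀ i, (q i).IsHomogeneous 2)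
    (h : ¬ GA q) : ∃ x : Fin m → AlgebraicClosure F, x ≠ 0 ∧ ∀ i, aeval x (q i) = 0 := by
  classical
  set I := Ideal.span (Set.range q) with hI
  -- some variable has no power in `I`
  have h1 : ∃ j : Fin m, ∀ D, (X j : MvPolynomial (Fin m) F) ^ D ∉ I := by
    by_contra hcon
    push Not at hcon
    choose D hD using hcon
    refine h ⟨∑ j, D j, fun j => ?_⟩
    have : D j ≤ ∑ j, D j := Finset.single_le_sum (fun _ _ => Nat.zero_le _) (Finset.mem_univ j)
    exact Ideal.pow_mem_of_pow_mem _ (hD j) this
  obtain ⟨j, hj⟩ := h1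
  have h2 : I ⊔ Ideal.span {X j - 1} ≠ ⊤ := by
    intro htop
    rw [Ideal.eq_top_iff_one, Submodule.mem_sup] at htop
    obtain ⟨f, hf, g', hg', hfg⟩ := htop
    rw [Ideal.mem_span_singleton'] at hg'
    obtain ⟨g, rfl⟩ := hg'
    have h3 : ∀ d, homogeneousComponent d g + X j ^ d ∈ I := by
      intro d
      induction d with
      | zero =>
        have e := congrArg (homogeneousComponent 0) hfg
        rw [map_add, mul_sub, map_sub, homogeneousComponent_zero_mul_X, mul_one] at e
        have e1 : homogeneousComponent 0 (1 : MvPolynomial (Fin m) F) = 1 := by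
          rw [homogeneousComponent_of_mem ((mem_homogeneousSubmodule _ _).2 (isHomogeneous_one _ _))]
          simp
        rw [e1] at e
        have e2 : homogeneousComponent 0 g + X j ^ 0 = homogeneousComponent 0 f := by
          rw [pow_zero]; linear_combination -e
        rw [e2]
        exact homogeneousComponent_mem hq hf 0
      | succ d ih =>
        have e := congrArg (homogeneousComponent (d + 1)) hfg
        rw [map_add, mul_sub, map_sub, homogeneousComponent_mul_X, mul_one] at e
        have e1 : homogeneousComponent (d + 1) (1 : MvPolynomial (Fin m) F) = 0 := by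
          rw [homogeneousComponent_of_mem ((mem_homogeneousSubmodule _ _).2 (isHomogeneous_one _ _))]
          simp
        rw [e1] at e
        have e2 : homogeneousComponent (d + 1) g + X j ^ (d + 1) =
            homogeneousComponent (d + 1) f + (homogeneousComponent d g + X j ^ d) * X j := by
          rw [pow_succ]; linear_combination -e
        rw [e2]
        exact Ideal.add_mem _ (homogeneousComponent_mem hq hf _) (Ideal.mul_mem_right _ _ ih)
    have h4 := h3 (g.totalDegree + 1)
    rw [homogeneousComponent_eq_zero _ g (by omega), zero_add] at h4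
    exact hj _ h4
  obtain ⟨M, hM, hle⟩ := Ideal.exists_le_maximal _ h2
  let _ : Field (MvPolynomial (Fin m) F ⧸ M) := Ideal.Quotient.field M
  have hft : Algebra.FiniteType F (MvPolynomial (Fin m) F ⧸ M) := inferInstance
  have hfin : Module.Finite F (MvPolynomial (Fin m) F ⧸ M) :=
    finite_of_finite_type_of_isJacobsonRing F (MvPolynomial (Fin m) F ⧸ M)
  let φ : (MvPolynomial (Fin m) F ⧸ M) →ₐ[F] AlgebraicClosure F := IsAlgClosed.lift
  let ψ : MvPolynomial (Fin m) F →ₐ[F] AlgebraicClosure F :=
    φ.comp (Ideal.Quotient.mkₐ F M)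
  have hψ : ∀ p ∈ M, ψ p = 0 := by
    intro p hp
    have h5 : Ideal.Quotient.mk M p = 0 := Ideal.Quotient.eq_zero_iff_mem.2 hp
    simp [ψ, h5]
  have hae : ∀ p, aeval (fun i => ψ (X i)) p = ψ p := by
    intro p
    have : ψ = aeval (fun i => ψ (X i)) := MvPolynomial.algHom_ext (by simp)
    rw [← this]
  refine ⟨fun i => ψ (X i), fun h0 => ?_, fun i => ?_⟩
  · have e1 : ψ (X j - 1) = 0 := hψ _ (hle (Submodule.mem_sup_right (Ideal.mem_span_singleton_self _)))
    have e2 : ψ (X j) = 0 := congrFun h0 j
    rw [map_sub, map_one, e2] at e1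
    simp at e1
  · rw [hae]
    exact hψ _ (hle (Submodule.mem_sup_left (Ideal.subset_span ⟨i, rfl⟩)))

end LP5
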