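import Pool.Agent.LP5.Defs2

/-! LP5, module BezoutA: the polynomial ring is finite of degree `2 ^ m` over the subalgebra
generated by `m` polynomials of degree `≤ 2` with geometrically anisotropic leading forms. -/

namespace LP5
open MvPolynomial

namespace BezoutA

section Box

variable {F : Type*} [Field F] {m : ℕ}

attribute [local instance] MvPolynomial.gradedAlgebra in
theorem hc_mul {a b : MvPolynomial (Fin m) F} {i n : ℕ} (hb : b.IsHomogeneous i) (hi : i ≤ n) :
    homogeneousComponent n (a * b) = homogeneousComponent (n - i) a * b := by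
  have h := DirectSum.coe_decompose_mul_of_right_mem_of_le
    (𝒜 := homogeneousSubmodule (Fin m) F) (a := a) (b := b) (i := i) (n := n)
    ((mem_homogeneousSubmodule i b).2 hb) hi
  rw [← DirectSum.Decomposition.decompose'_eq] at h
  rw [decomposition.decompose'_apply, decomposition.decompose'_apply] at h
  exact h

theorem totalDegree_sub_hc {f : MvPolynomial (Fin m) F} (hf : f.totalDegree ≤ 2) :
    (f - homogeneousComponent 2 f).totalDegree ≤ 1 := by
  rw [totalDegree, Finset.sup_le_iff]
  intro d hd
  rw [mem_support_iff, coeff_sub, coeff_homogeneousComponent] at hd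
  have h1 : d.degree ≠ 2 := by
    intro h
    rw [if_pos h, sub_self] at hd
    exact hd rfl
  rw [if_neg h1, sub_zero] at hd
  have h2 : d.degree ≤ 2 := by
    have := le_totalDegree (mem_support_iff.2 hd)
    exact le_trans this hf
  have h3 : d.degree = d.sum fun _ e => e := rfl
  omega

/-- powers of the variables in the ideal, with degree control -/
theorem exists_coeff {q : Fin m → MvPolynomial (Fin m) F} (hq : ∀ i, (q i).IsHomogeneous 2)
    (hGA : GA q) : ∃ D, 2 ≤ D ∧ ∀ j, ∃ c : Fin m → MvPolynomial (Fin m) F,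
      (∀ k, (c k).totalDegree ≤ D - 2) ∧ (X j : MvPolynomial (Fin m) F) ^ D = ∑ k, c k * q k := by
  obtain ⟨D, hD⟩ := hGA
  refine ⟨D + 2, by omega, fun j => ?_⟩
  have h1 : (X j : MvPolynomial (Fin m) F) ^ (D + 2) ∈ Ideal.span (Set.range q) := by
    rw [pow_add]
    exact Ideal.mul_mem_right _ _ (hD j)
  obtain ⟨c, hc⟩ := Ideal.mem_span_range_iff_exists_fun.1 h1
  refine ⟨fun k => homogeneousComponent (D + 2 - 2) (c k), fun k => ?_, ?_⟩
  · exact (homogeneousComponent_isHomogeneous _ _).totalDegree_le
  · have h2 : homogeneousComponent (D + 2) (X j ^ (D + 2) : MvPolynomial (Fin m) F) =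
        X j ^ (D + 2) := homogeneousComponent_eq_self (isHomogeneous_X_pow j (D + 2))
    rw [← h2, ← hc, map_sum]
    exact Finset.sum_congr rfl fun k _ => hc_mul (hq k) (by omega)

/-- the box generators of degree at most `d` -/
def boxSet (p : Fin m → MvPolynomial (Fin m) F) (D d : ℕ) : Set (MvPolynomial (Fin m) F) :=
  {f | ∃ e a : Fin m →₀ ℕ, (∀ i, e i < D) ∧ e.degree + 2 * a.degree ≤ d ∧
    f = monomial e 1 * aeval p (monomial a (1 : F))}

theorem boxSet_mono (p : Fin m → MvPolynomial (Fin m) F) (D : ℕ) {d d' : ℕ} (h : d ≤ d') :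
    boxSet p D d ⊆ boxSet p D d' := by
  rintro f ⟨e, a, he, hea, rfl⟩
  exact ⟨e, a, he, hea.trans h, rfl⟩

theorem box_mul {p : Fin m → MvPolynomial (Fin m) F} {D d : ℕ} {f : MvPolynomial (Fin m) F}
    (hf : f ∈ Submodule.span F (boxSet p D d)) (j : Fin m) :
    f * p j ∈ Submodule.span F (boxSet p D (d + 2)) := by
  induction hf using Submodule.span_induction with
  | mem x hx =>
    obtain ⟨e, a, he, hea, rfl⟩ := hx
    refine Submodule.subset_span ⟨e, a + Finsupp.single j 1, he, ?_, ?_⟩
    · rw [map_add, Finsupp.degree_single]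
      omega
    · have h1 : (monomial (a + Finsupp.single j 1) (1 : F) : MvPolynomial (Fin m) F) =
          monomial a 1 * X j := by
        rw [X, monomial_mul, one_mul]
      rw [h1, map_mul, aeval_X, mul_assoc]
  | zero => rw [zero_mul]; exact zero_mem _
  | add x y _ _ hx hy => rw [add_mul]; exact add_mem hx hy
  | smul a x _ hx => rw [smul_mul_assoc]; exact Submodule.smul_mem _ _ hx

theorem box {p : Fin m → MvPolynomial (Fin m) F} (hp : ∀ i, (p i).totalDegree ≤ 2) {D : ℕ}
    (hD2 : 2 ≤ D)
    (hD : ∀ j, ∃ c : Fin m → MvPolynomial (Fin m) F, (∀ k, (c k).totalDegree ≤ D - 2) ∧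
      (X j : MvPolynomial (Fin m) F) ^ D = ∑ k, c k * homogeneousComponent 2 (p k)) (d : ℕ) :
    ∀ f : MvPolynomial (Fin m) F, f.totalDegree ≤ d →
      f ∈ Submodule.span F (boxSet p D d) := by
  induction d using Nat.strong_induction_on with
  | _ d ih =>
  intro f hf
  have key : ∀ s : Fin m →₀ ℕ, s.degree ≤ d →
      (monomial s (1 : F) : MvPolynomial (Fin m) F) ∈ Submodule.span F (boxSet p D d) := by
    intro s hs
    by_cases hbox : ∀ i, s i < D
    · refine Submodule.subset_span ⟨s, 0, hbox, ?_, ?_⟩
      · rw [map_zero]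
        omega
      · have h0 : (monomial (0 : Fin m →₀ ℕ) (1 : F) : MvPolynomial (Fin m) F) = 1 := rfl
        rw [h0, map_one (aeval p), mul_one]
    · push Not at hbox
      obtain ⟨i, hi⟩ := hbox
      obtain ⟨c, hc, hX⟩ := hD i
      have hle : Finsupp.single i D ≤ s := by
        rw [Finsupp.single_le_iff]
        exact hi
      have hs' : (s - Finsupp.single i D) + Finsupp.single i D = s := tsub_add_cancel_of_le hle
      set s' := s - Finsupp.single i D with hs'def
      have hdeg : s'.degree + D = s.degree := by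
        rw [← hs', map_add, Finsupp.degree_single]
      have h1 : (monomial s (1 : F) : MvPolynomial (Fin m) F) =
          ∑ k, ((monomial s' 1 * c k) * p k -
            (monomial s' 1 * c k) * (p k - homogeneousComponent 2 (p k))) := by
        have h2 : (monomial s (1 : F) : MvPolynomial (Fin m) F) = monomial s' 1 * X i ^ D := by
          rw [X_pow_eq_monomial, monomial_mul, one_mul, hs']
        rw [h2, hX, Finset.mul_sum]
        refine Finset.sum_congr rfl fun k _ => ?_
        ring
      have hdm : ∀ k, (monomial s' 1 * c k : MvPolynomial (Fin m) F).totalDegree ≤ d - 2 := by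
        intro k
        refine (totalDegree_mul _ _).trans ?_
        have h3 : (monomial s' (1 : F) : MvPolynomial (Fin m) F).totalDegree ≤ s'.degree := by
          rw [totalDegree_monomial _ one_ne_zero]
          exact le_rfl
        have h4 := hc k
        omega
      rw [h1]
      refine Submodule.sum_mem _ fun k _ => sub_mem ?_ ?_
      · have h5 := box_mul (ih (d - 2) (by omega) _ (hdm k)) k
        have h6 : d - 2 + 2 = d := by omega
        rw [h6] at h5
        exact h5
      · refine Submodule.span_mono (boxSet_mono p D (show d - 1 ≤ d by omega))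
          (ih (d - 1) (by omega) _ ?_)
        refine (totalDegree_mul _ _).trans ?_
        have h7 := hdm k
        have h8 := totalDegree_sub_hc (hp k)
        omega
  rw [← support_sum_monomial_coeff f]
  refine Submodule.sum_mem _ fun s hs => ?_
  have h9 : (monomial s (coeff s f) : MvPolynomial (Fin m) F) = coeff s f • monomial s 1 := by
    rw [smul_monomial, smul_eq_mul, mul_one]
  rw [h9]
  refine Submodule.smul_mem _ _ (key s ?_)
  exact (le_totalDegree hs).trans hf

end Box

section Count

open Finset in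
theorem card_le (m d : ℕ) :
    Nat.card {n : Fin m →₀ ℕ | (n.sum fun _ e => e) ≤ d} = (d + m).choose m := by
  classical
  have e1 : {n : Fin m →₀ ℕ | (n.sum fun _ e => e) ≤ d} ≃ {P : Fin (m + 1) → ℕ // ∑ i, P i = d} :=
    { toFun := fun n => ⟨Fin.cons (d - ∑ i, n.1 i) n.1, by
        have h := n.2
        simp only [Set.mem_ofPred_eq] at h
        rw [Finsupp.sum_fintype _ _ (fun _ => rfl)] at h
        rw [Fin.sum_univ_succ]
        simp only [Fin.cons_zero, Fin.cons_succ]
        omega⟩
      invFun := fun P => ⟨Finsupp.equivFunOnFinite.symm fun i => P.1 i.succ, by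
        have h := P.2
        simp only [Set.mem_ofPred_eq]
        rw [Finsupp.sum_fintype _ _ (fun _ => rfl)]
        rw [Fin.sum_univ_succ] at h
        simp only [Finsupp.equivFunOnFinite_symm_apply_apply]
        omega⟩
      left_inv := fun n => by
        ext i
        simp
      right_inv := fun P => by
        have h := P.2
        rw [Fin.sum_univ_succ] at h
        apply Subtype.ext
        funext i
        refine Fin.cases ?_ (fun j => ?_) i
        · simp only [Fin.cons_zero, Finsupp.equivFunOnFinite_symm_apply_apply]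
          omega
        · simp }
  rw [Nat.card_congr (e1.trans (Sym.equivNatSumOfFintype (Fin (m + 1)) d).symm),
    Nat.card_eq_fintype_card, Sym.card_sym_eq_choose, Fintype.card_fin]
  have h1 : m + 1 + d - 1 = d + m := by omega
  rw [h1, Nat.choose_symm_add]

variable {F : Type*} [Field F]

theorem finrank_restrict (m d : ℕ) :
    Module.finrank F (restrictTotalDegree (Fin m) F d) = (d + m).choose m := by
  rw [← card_le]
  exact Module.finrank_eq_nat_card_basis (basisRestrictSupport F _)

theorem finrank_restrict_real (m d : ℕ) :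
    (Module.finrank F (restrictTotalDegree (Fin m) F d) : ℝ) =
      (∏ k ∈ Finset.range m, ((d : ℝ) + 1 + k)) / (m.factorial : ℝ) := by
  rw [finrank_restrict, eq_div_iff (by exact_mod_cast m.factorial_ne_zero)]
  have h1 := Nat.ascFactorial_eq_factorial_mul_choose d m
  rw [Nat.ascFactorial_eq_prod_range] at h1
  have h2 : ((d + m).choose m : ℝ) * (m.factorial : ℝ) =
      ((m.factorial * (d + m).choose m : ℕ) : ℝ) := by
    push_cast
    ring
  rw [h2, ← h1]
  push_cast
  rfl

theorem tendsto_ratio (m a b : ℕ) :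
    Filter.Tendsto (fun i : ℕ =>
      (Module.finrank F (restrictTotalDegree (Fin m) F (2 * i + a)) : ℝ) /
        (Module.finrank F (restrictTotalDegree (Fin m) F (i + b)) : ℝ))
      Filter.atTop (nhds ((2 : ℝ) ^ m)) := by
  have h1 : (fun i : ℕ => (Module.finrank F (restrictTotalDegree (Fin m) F (2 * i + a)) : ℝ) /
        (Module.finrank F (restrictTotalDegree (Fin m) F (i + b)) : ℝ)) =
      fun i : ℕ => ∏ k ∈ Finset.range m, ((((a : ℝ) + 1 + k) + 2 * (i : ℝ)) /
        (((b : ℝ) + 1 + k) + 1 * (i : ℝ))) := by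
    funext i
    rw [finrank_restrict_real, finrank_restrict_real, Finset.prod_div_distrib,
      div_div_div_cancel_right₀ (by exact_mod_cast m.factorial_ne_zero)]
    congr 1
    · refine Finset.prod_congr rfl fun k _ => ?_
      push_cast
      ring
    · refine Finset.prod_congr rfl fun k _ => ?_
      push_cast
      ring
  rw [h1]
  have h2 : ((2 : ℝ) ^ m) = ∏ k ∈ Finset.range m, (2 : ℝ) / 1 := by
    rw [Finset.prod_const, Finset.card_range, div_one]
  rw [h2]
  exact tendsto_finsetProd _ fun k _ =>
    tendsto_add_mul_div_add_mul_atTop_nhds _ _ _ one_ne_zero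

end Count

section Main

variable {F : Type*} [Field F] {m : ℕ} {p : Fin m → MvPolynomial (Fin m) F}

theorem exists_box (hp : ∀ i, (p i).totalDegree ≤ 2)
    (hGA : GA fun i => homogeneousComponent 2 (p i)) :
    ∃ D, ∀ d, ∀ f : MvPolynomial (Fin m) F, f.totalDegree ≤ d →
      f ∈ Submodule.span F (boxSet p D d) := by
  obtain ⟨D, hD2, hD⟩ := exists_coeff (fun i => homogeneousComponent_isHomogeneous 2 (p i)) hGA
  exact ⟨D, fun d f hf => box hp hD2 hD d f hf⟩

theorem aeval_mem (g : MvPolynomial (Fin m) F) : aeval p g ∈ PA p := by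
  have h : PA p = (aeval p).range := Algebra.adjoin_range_eq_range_aeval F p
  rw [h]
  exact ⟨g, rfl⟩

theorem exists_of_mem (x : PA p) : ∃ g : MvPolynomial (Fin m) F, aeval p g = (x : _) := by
  have h : PA p = (aeval p).range := Algebra.adjoin_range_eq_range_aeval F p
  have hx : (x : MvPolynomial (Fin m) F) ∈ (aeval p : MvPolynomial (Fin m) F →ₐ[F] _).range :=
    h ▸ x.2
  obtain ⟨g, hg⟩ := hx
  exact ⟨g, hg⟩

/-- the monomial attached to a point of the box -/
noncomputable def bm (F : Type*) [Field F] {m D : ℕ} (e : Fin m → Fin D) :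
    MvPolynomial (Fin m) F :=
  monomial (Finsupp.equivFunOnFinite.symm fun i => (e i : ℕ)) (1 : F)

theorem bm_of_lt {D : ℕ} {e : Fin m →₀ ℕ} (he : ∀ i, e i < D) :
    (monomial e (1 : F) : MvPolynomial (Fin m) F) = bm F (fun i => (⟨e i, he i⟩ : Fin D)) := by
  unfold bm
  have h : e = Finsupp.equivFunOnFinite.symm
      fun i => (((⟨e i, he i⟩ : Fin D)) : ℕ) := by
    ext i
    rfl
  rw [← h]

theorem finite_PA (hp : ∀ i, (p i).totalDegree ≤ 2)
    (hGA : GA fun i => homogeneousComponent 2 (p i)) :
    Module.Finite (PA p) (MvPolynomial (Fin m) F) := by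
  classical
  obtain ⟨D, hbox⟩ := exists_box hp hGA
  refine ⟨⟨(Finset.univ : Finset (Fin m → Fin D)).image (bm F), ?_⟩⟩
  rw [eq_top_iff]
  rintro f -
  have h := hbox f.totalDegree f le_rfl
  have h2 : Submodule.span F (boxSet p D f.totalDegree) ≤
      (Submodule.span (PA p) (((Finset.univ : Finset (Fin m → Fin D)).image (bm F) : Finset _) :
        Set (MvPolynomial (Fin m) F))).restrictScalars F := by
    rw [Submodule.span_le]
    rintro _ ⟨e, a, he, hea, rfl⟩
    rw [SetLike.mem_coe, Submodule.restrictScalars_mem]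
    have h3 : (monomial e 1 * aeval p (monomial a (1 : F)) : MvPolynomial (Fin m) F) =
        (⟨aeval p (monomial a (1 : F)), aeval_mem _⟩ : PA p) • monomial e 1 := by
      rw [Subalgebra.smul_def, smul_eq_mul, mul_comm]
    rw [h3, bm_of_lt he]
    refine Submodule.smul_mem _ _ (Submodule.subset_span ?_)
    rw [Finset.mem_coe]
    exact Finset.mem_image_of_mem _ (Finset.mem_univ _)
  exact h2 h

theorem isIntegral_PA (hp : ∀ i, (p i).totalDegree ≤ 2)
    (hGA : GA fun i => homogeneousComponent 2 (p i)) :
    Algebra.IsIntegral (PA p) (MvPolynomial (Fin m) F) := by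
  haveI := finite_PA hp hGA
  exact Algebra.IsIntegral.of_finite _ _

theorem algInd (hp : ∀ i, (p i).totalDegree ≤ 2)
    (hGA : GA fun i => homogeneousComponent 2 (p i)) : AlgebraicIndependent F p := by
  haveI := isIntegral_PA hp hGA
  haveI : Algebra.IsAlgebraic (Algebra.adjoin F (Set.range p)) (MvPolynomial (Fin m) F) :=
    Algebra.IsIntegral.isAlgebraic
  refine (Algebra.IsAlgebraic.isTranscendenceBasis_of_lift_le_trdeg_of_finite F p ?_).1
  rw [MvPolynomial.trdeg_of_isDomain]
  simp

theorem aeval_inj (hind : AlgebraicIndependent F p) {g : MvPolynomial (Fin m) F}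
    (hg : aeval p g = 0) : g = 0 :=
  hind (by rw [hg, map_zero])

theorem totalDegree_aeval_le (hp : ∀ i, (p i).totalDegree ≤ 2) (c : MvPolynomial (Fin m) F) :
    (aeval p c).totalDegree ≤ 2 * c.totalDegree := by
  rw [aeval_def, eval₂_eq']
  refine (totalDegree_finsetSum _ _).trans (Finset.sup_le fun d hd => ?_)
  refine (totalDegree_mul _ _).trans ?_
  rw [algebraMap_eq, totalDegree_C, zero_add]
  refine (totalDegree_finsetProd _ _).trans ?_
  have h1 : d.degree ≤ c.totalDegree := le_totalDegree hd
  have h2 : d.degree = ∑ i, d i := Finsupp.degree_eq_sum d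
  calc ∑ i, (p i ^ d i).totalDegree ≤ ∑ i, d i * 2 := by
        refine Finset.sum_le_sum fun i _ => ?_
        refine (totalDegree_pow _ _).trans ?_
        exact Nat.mul_le_mul_left _ (hp i)
    _ = 2 * ∑ i, d i := by rw [← Finset.sum_mul, mul_comm]
    _ ≤ 2 * c.totalDegree := by
        rw [← h2]
        exact Nat.mul_le_mul_left _ h1

/-- the map `c ↦ ∑ p^*(c_k) b_k` on polynomials of degree at most `i` -/
noncomputable def Phi (p : Fin m → MvPolynomial (Fin m) F) {ρ : ℕ}
    (b : Fin ρ → MvPolynomial (Fin m) F) (i : ℕ) :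
    (Fin ρ → restrictTotalDegree (Fin m) F i) →ₗ[F] MvPolynomial (Fin m) F where
  toFun c := ∑ k, aeval p (c k : MvPolynomial (Fin m) F) * b k
  map_add' c c' := by
    rw [← Finset.sum_add_distrib]
    refine Finset.sum_congr rfl fun k _ => ?_
    rw [Pi.add_apply, Submodule.coe_add, map_add, add_mul]
  map_smul' a c := by
    rw [RingHom.id_apply, Finset.smul_sum]
    refine Finset.sum_congr rfl fun k _ => ?_
    rw [Pi.smul_apply, Submodule.coe_smul, map_smul, smul_mul_assoc]

theorem Phi_apply (p : Fin m → MvPolynomial (Fin m) F) {ρ : ℕ}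
    (b : Fin ρ → MvPolynomial (Fin m) F) (i : ℕ) (c : Fin ρ → restrictTotalDegree (Fin m) F i) :
    Phi p b i c = ∑ k, aeval p (c k : MvPolynomial (Fin m) F) * b k := rfl

theorem Phi_injective (hind : AlgebraicIndependent F p) {ρ : ℕ}
    {b : Fin ρ → MvPolynomial (Fin m) F} (hb : LinearIndependent (PA p) b) (i : ℕ) :
    Function.Injective (Phi p b i) := by
  rw [← LinearMap.ker_eq_bot, LinearMap.ker_eq_bot']
  intro c hc
  have h1 : ∑ k, (⟨aeval p (c k : MvPolynomial (Fin m) F), aeval_mem _⟩ : PA p) • b k = 0 := by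
    rw [← hc]
    exact Finset.sum_congr rfl fun k _ => rfl
  have h2 := Fintype.linearIndependent_iff.1 hb _ h1
  funext k
  apply Subtype.ext
  have h3 := congrArg Subtype.val (h2 k)
  exact aeval_inj hind h3

theorem upper (hp : ∀ i, (p i).totalDegree ≤ 2) (hind : AlgebraicIndependent F p) {ρ : ℕ}
    {b : Fin ρ → MvPolynomial (Fin m) F} (hb : LinearIndependent (PA p) b) :
    ∃ D' : ℕ, ∀ i, ρ * Module.finrank F (restrictTotalDegree (Fin m) F i) ≤
      Module.finrank F (restrictTotalDegree (Fin m) F (2 * i + D')) := by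
  refine ⟨Finset.univ.sup fun k : Fin ρ => (b k).totalDegree, fun i => ?_⟩
  set D' := Finset.univ.sup fun k : Fin ρ => (b k).totalDegree with hD'
  have hmem : ∀ c, Phi p b i c ∈ restrictTotalDegree (Fin m) F (2 * i + D') := by
    intro c
    rw [Phi_apply]
    refine Submodule.sum_mem _ fun k _ => ?_
    rw [mem_restrictTotalDegree]
    refine (totalDegree_mul _ _).trans ?_
    have h1 := totalDegree_aeval_le hp (c k : MvPolynomial (Fin m) F)
    have h2 := (mem_restrictTotalDegree _ _ _).1 (c k).2
    have h3 : (b k).totalDegree ≤ D' :=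
      Finset.le_sup (f := fun k => (b k).totalDegree) (Finset.mem_univ k)
    omega
  have h4 := LinearMap.finrank_le_finrank_of_injective
    (f := (Phi p b i).codRestrict _ hmem)
    (fun x y hxy => Phi_injective hind hb i (congrArg Subtype.val hxy))
  rwa [Module.finrank_pi_fintype, Finset.sum_const, Finset.card_univ, Fintype.card_fin,
    smul_eq_mul] at h4

theorem lower (hp : ∀ i, (p i).totalDegree ≤ 2)
    (hGA : GA fun i => homogeneousComponent 2 (p i)) (hind : AlgebraicIndependent F p) {ρ : ℕ}
    {b : Fin ρ → MvPolynomial (Fin m) F}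
    (hb : ∀ x : MvPolynomial (Fin m) F, ∃ g : MvPolynomial (Fin m) F, g ≠ 0 ∧
      ∃ A : Fin ρ → MvPolynomial (Fin m) F, aeval p g * x = ∑ k, aeval p (A k) * b k) :
    ∃ D' : ℕ, ∀ i, Module.finrank F (restrictTotalDegree (Fin m) F (2 * i)) ≤
      ρ * Module.finrank F (restrictTotalDegree (Fin m) F (i + D')) := by
  classical
  obtain ⟨D, hbox⟩ := exists_box hp hGA
  choose g hg0 A hA using fun e : Fin m → Fin D => hb (bm F e)
  set G : MvPolynomial (Fin m) F := ∏ e, g e with hG
  have hG0 : G ≠ 0 := Finset.prod_ne_zero_iff.2 fun e _ => hg0 e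
  have hB : ∀ e : Fin m → Fin D, ∃ B : Fin ρ → MvPolynomial (Fin m) F,
      aeval p G * bm F e = ∑ k, aeval p (B k) * b k := by
    intro e
    refine ⟨fun k => (∏ e' ∈ Finset.univ.erase e, g e') * A e k, ?_⟩
    have h1 : G = (∏ e' ∈ Finset.univ.erase e, g e') * g e := by
      rw [hG, Finset.prod_erase_mul _ _ (Finset.mem_univ e)]
    rw [h1, map_mul, mul_assoc, hA e, Finset.mul_sum]
    refine Finset.sum_congr rfl fun k _ => ?_
    rw [map_mul, mul_assoc]
  choose B hB using hB
  set D' : ℕ := Finset.univ.sup fun e : Fin m → Fin D => Finset.univ.sup fun k =>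
    (B e k).totalDegree with hD'
  refine ⟨D', fun i => ?_⟩
  have hBD : ∀ e k, (B e k).totalDegree ≤ D' := by
    intro e k
    refine le_trans ?_ (Finset.le_sup
      (f := fun e : Fin m → Fin D => Finset.univ.sup fun k => (B e k).totalDegree)
      (Finset.mem_univ e))
    exact Finset.le_sup (f := fun k => (B e k).totalDegree) (Finset.mem_univ k)
  let M : restrictTotalDegree (Fin m) F (2 * i) →ₗ[F] MvPolynomial (Fin m) F :=
    (LinearMap.mulLeft F (aeval p G)).comp (Submodule.subtype _)
  have hM : Function.Injective M := by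
    intro x y hxy
    apply Subtype.ext
    have h2 : aeval p G * (x : MvPolynomial (Fin m) F) = aeval p G * y := hxy
    exact mul_left_cancel₀ (fun h => hG0 (aeval_inj hind h)) h2
  have hrange : LinearMap.range M ≤ LinearMap.range (Phi p b (i + D')) := by
    rintro _ ⟨x, rfl⟩
    have h3 := hbox (2 * i) x ((mem_restrictTotalDegree _ _ _).1 x.2)
    have h4 : Submodule.span F (boxSet p D (2 * i)) ≤
        (LinearMap.range (Phi p b (i + D'))).comap (LinearMap.mulLeft F (aeval p G)) := by
      rw [Submodule.span_le]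
      rintro _ ⟨e, a, he, hea, rfl⟩
      have h5 : ∀ k, (monomial a 1 * B (fun i => (⟨e i, he i⟩ : Fin D)) k :
          MvPolynomial (Fin m) F) ∈ restrictTotalDegree (Fin m) F (i + D') := by
        intro k
        rw [mem_restrictTotalDegree]
        refine (totalDegree_mul _ _).trans ?_
        have h6 : (monomial a (1 : F) : MvPolynomial (Fin m) F).totalDegree ≤ a.degree := by
          rw [totalDegree_monomial _ one_ne_zero]
          exact le_rfl
        have h7 := hBD (fun i => (⟨e i, he i⟩ : Fin D)) k
        omega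
      refine ⟨fun k => ⟨_, h5 k⟩, ?_⟩
      rw [Phi_apply, LinearMap.mulLeft_apply, bm_of_lt he, ← mul_assoc, hB, Finset.sum_mul]
      refine Finset.sum_congr rfl fun k _ => ?_
      rw [map_mul]
      ring
    exact h4 h3
  calc Module.finrank F (restrictTotalDegree (Fin m) F (2 * i))
      = Module.finrank F (LinearMap.range M) := (LinearMap.finrank_range_of_inj hM).symm
    _ ≤ Module.finrank F (LinearMap.range (Phi p b (i + D'))) := Submodule.finrank_mono hrange
    _ ≤ Module.finrank F (Fin ρ → restrictTotalDegree (Fin m) F (i + D')) :=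
        LinearMap.finrank_range_le _
    _ = ρ * Module.finrank F (restrictTotalDegree (Fin m) F (i + D')) := by
        rw [Module.finrank_pi_fintype, Finset.sum_const, Finset.card_univ, Fintype.card_fin,
          smul_eq_mul]

theorem exists_relation [Module.Finite (PA p) (MvPolynomial (Fin m) F)] {ρ : ℕ}
    (hρ : Module.finrank (PA p) (MvPolynomial (Fin m) F) = ρ)
    {b : Fin ρ → MvPolynomial (Fin m) F} (hb : LinearIndependent (PA p) b)
    (x : MvPolynomial (Fin m) F) : ∃ g : MvPolynomial (Fin m) F, g ≠ 0 ∧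
      ∃ A : Fin ρ → MvPolynomial (Fin m) F, aeval p g * x = ∑ k, aeval p (A k) * b k := by
  have h1 : ¬ LinearIndependent (PA p)
      (Fin.cons x b : Fin (ρ + 1) → MvPolynomial (Fin m) F) := by
    intro h
    have h2 := h.fintype_card_le_finrank
    rw [Fintype.card_fin, hρ] at h2
    omega
  obtain ⟨c, hc, k₀, hk⟩ := Fintype.not_linearIndependent_iff.1 h1
  rw [Fin.sum_univ_succ] at hc
  simp only [Fin.cons_zero, Fin.cons_succ] at hc
  have hc0 : c 0 ≠ 0 := by
    intro h0
    rw [h0, zero_smul, zero_add] at hc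
    have h3 := Fintype.linearIndependent_iff.1 hb _ hc
    exact hk (Fin.cases h0 (fun j => h3 j) k₀)
  choose G hG using fun k => exists_of_mem (p := p) (c k)
  refine ⟨G 0, ?_, fun k => - G k.succ, ?_⟩
  · intro h
    apply hc0
    apply Subtype.ext
    rw [← hG 0, h, map_zero]
    rfl
  · have h4 : aeval p (G 0) * x + ∑ k : Fin ρ, aeval p (G k.succ) * b k = 0 := by
      rw [← hc]
      congr 1
      · rw [hG, Subalgebra.smul_def, smul_eq_mul]
      · refine Finset.sum_congr rfl fun k _ => ?_
        rw [hG, Subalgebra.smul_def, smul_eq_mul]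
    rw [eq_neg_of_add_eq_zero_left h4, ← Finset.sum_neg_distrib]
    refine Finset.sum_congr rfl fun k _ => ?_
    rw [map_neg, neg_mul]

theorem rank_eq (hp : ∀ i, (p i).totalDegree ≤ 2)
    (hGA : GA fun i => homogeneousComponent 2 (p i)) (hind : AlgebraicIndependent F p) {ρ : ℕ}
    {b : Fin ρ → MvPolynomial (Fin m) F} (hb : LinearIndependent (PA p) b)
    (hmax : ∀ x : MvPolynomial (Fin m) F, ∃ g : MvPolynomial (Fin m) F, g ≠ 0 ∧
      ∃ A : Fin ρ → MvPolynomial (Fin m) F, aeval p g * x = ∑ k, aeval p (A k) * b k) :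
    ρ = 2 ^ m := by
  have hN : ∀ d, (0 : ℝ) < (Module.finrank F (restrictTotalDegree (Fin m) F d) : ℝ) := by
    intro d
    rw [finrank_restrict]
    exact_mod_cast Nat.choose_pos (Nat.le_add_left m d)
  obtain ⟨D1, hD1⟩ := upper hp hind hb
  obtain ⟨D2, hD2⟩ := lower hp hGA hind hmax
  have h1 : (ρ : ℝ) ≤ 2 ^ m := by
    refine ge_of_tendsto' (tendsto_ratio (F := F) m D1 0) fun i => ?_
    rw [le_div_iff₀ (hN _), add_zero]
    exact_mod_cast hD1 i
  have h2 : (2 : ℝ) ^ m ≤ ρ := by
    refine le_of_tendsto' (tendsto_ratio (F := F) m 0 D2) fun i => ?_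
    rw [div_le_iff₀ (hN _), add_zero]
    exact_mod_cast hD2 i
  have h3 := le_antisymm h1 h2
  exact_mod_cast h3

theorem finrank_PA (hp : ∀ i, (p i).totalDegree ≤ 2)
    (hGA : GA fun i => homogeneousComponent 2 (p i)) :
    Module.finrank (PA p) (MvPolynomial (Fin m) F) = 2 ^ m := by
  haveI := finite_PA hp hGA
  have hind := algInd hp hGA
  obtain ⟨ρ, hρ⟩ : ∃ ρ, Module.finrank (PA p) (MvPolynomial (Fin m) F) = ρ := ⟨_, rfl⟩
  obtain ⟨b, hb⟩ := exists_linearIndependent_of_le_finrank (R := PA p)
    (M := MvPolynomial (Fin m) F) (n := ρ) hρ.ge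
  rw [hρ]
  exact rank_eq hp hGA hind hb (exists_relation hρ hb)

end Main

end BezoutA

section Z
variable {F : Type*} [Field F] [CharZero F] {m : ℕ} (p : Fin m → MvPolynomial (Fin m) F)
  (hp : ∀ i, (p i).totalDegree ≤ 2) (hGA : GA fun i => homogeneousComponent 2 (p i))

include hp hGA

theorem zint : Algebra.IsIntegral (PA p) (MvPolynomial (Fin m) F) :=
  BezoutA.isIntegral_PA hp hGA

theorem zind : AlgebraicIndependent F p := BezoutA.algInd hp hGA

attribute [local instance] FractionRing.liftAlgebra in
theorem zdeg (θ : MvPolynomial (Fin m) F) : (minpoly (PA p) θ).natDegree ∣ 2 ^ m := by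
  haveI hint := zint p hp hGA
  haveI : Module.Finite (PA p) (MvPolynomial (Fin m) F) := BezoutA.finite_PA hp hGA
  have hind := zind p hp hGA
  haveI : IsIntegrallyClosed (PA p) :=
    IsIntegrallyClosed.of_equiv (hind.aevalEquiv : _ ≃ₐ[F] _).toRingEquiv
  have h1 := minpoly.isIntegrallyClosed_eq_field_fractions (FractionRing (PA p))
    (FractionRing (MvPolynomial (Fin m) F)) (hint.isIntegral θ)
  have h2 : (minpoly (PA p) θ).natDegree =
      (minpoly (FractionRing (PA p))
        (algebraMap (MvPolynomial (Fin m) F) (FractionRing (MvPolynomial (Fin m) F)) θ)).natDegree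
      := by
    rw [h1, (minpoly.monic (hint.isIntegral θ)).natDegree_map]
  have h3 : Module.finrank (FractionRing (PA p)) (FractionRing (MvPolynomial (Fin m) F)) =
      2 ^ m := by
    rw [IsFractionRing.finrank_eq (PA p) (FractionRing (PA p)) (MvPolynomial (Fin m) F)
      (FractionRing (MvPolynomial (Fin m) F)), BezoutA.finrank_PA hp hGA]
  haveI : FiniteDimensional (FractionRing (PA p)) (FractionRing (MvPolynomial (Fin m) F)) := by
    refine Module.finite_of_finrank_pos ?_
    rw [h3]
    positivity
  rw [h2, ← h3]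
  exact minpoly.degree_dvd (Algebra.IsIntegral.isIntegral _)

end Z

end LP5
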