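import Pool.Agent.LP5.Basic

/-! LP5: consequences of the degree statement `zdeg` (specialisation at `p = 0`). -/

namespace LP5
open MvPolynomial

namespace BB

theorem exists_extend {B S Ω : Type*} [CommRing B] [CommRing S] [IsDomain S] [Algebra B S]
    [Algebra.IsIntegral B S] (hinj : Function.Injective (algebraMap B S)) [Field Ω]
    [IsAlgClosed Ω] (χ : B →+* Ω) : ∃ ψ : S →+* Ω, ∀ b, ψ (algebraMap B S b) = χ b := by
  let p : Ideal B := RingHom.ker χ
  have hp : p.IsPrime := RingHom.ker_isPrime χ
  obtain ⟨q, hq, hqp⟩ := Ideal.exists_ideal_over_prime_of_isIntegral_of_isDomain (S := S) p (by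
    rw [(RingHom.injective_iff_ker_eq_bot _).1 hinj]; exact bot_le)
  have hlo : q.LiesOver p := ⟨hqp.symm⟩
  let _ : Algebra (B ⧸ p) Ω := (Ideal.Quotient.lift p χ (fun a ha => ha)).toAlgebra
  have hinj2 : Function.Injective (algebraMap (B ⧸ p) Ω) := RingHom.kerLift_injective χ
  have : FaithfulSMul (B ⧸ p) Ω := (faithfulSMul_iff_algebraMap_injective _ _).2 hinj2
  have h1 : Algebra.IsIntegral (B ⧸ p) (S ⧸ q) := inferInstance
  have h2 : Module.IsTorsionFree (B ⧸ p) (S ⧸ q) := inferInstance
  have h3 : Module.IsTorsionFree (B ⧸ p) Ω := inferInstance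
  let f : (S ⧸ q) →ₐ[B ⧸ p] Ω := IsAlgClosed.lift
  refine ⟨(f : (S ⧸ q) →+* Ω).comp (Ideal.Quotient.mk q), fun b => ?_⟩
  have e1 : Ideal.Quotient.mk q (algebraMap B S b) = algebraMap (B ⧸ p) (S ⧸ q)
      (Ideal.Quotient.mk p b) := by
    rw [Ideal.Quotient.algebraMap_mk_of_liesOver]
  rw [RingHom.comp_apply, e1]
  show f (algebraMap (B ⧸ p) (S ⧸ q) (Ideal.Quotient.mk p b)) = χ b
  rw [f.commutes]
  rfl

section

variable {F : Type*} [Field F] {m : ℕ} {p : Fin m → MvPolynomial (Fin m) F}

/-- specialisation of `F[p_1..p_m]` at `p = 0` -/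
noncomputable def ev0 (hi : AlgebraicIndependent F p) : PA p →ₐ[F] F :=
  (aeval (fun _ => (0 : F))).comp (hi.aevalEquiv.symm : PA p →ₐ[F] MvPolynomial (Fin m) F)

theorem ev0_hom (hi : AlgebraicIndependent F p) {S : Type*} [CommRing S] [Algebra F S]
    (φ : MvPolynomial (Fin m) F →ₐ[F] S) (hφ : ∀ i, φ (p i) = 0) (a : PA p) :
    φ (a : MvPolynomial (Fin m) F) = algebraMap F S (ev0 hi a) := by
  obtain ⟨b, rfl⟩ := hi.aevalEquiv.surjective a
  have e1 : ((hi.aevalEquiv b : PA p) : MvPolynomial (Fin m) F) = aeval p b :=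
    hi.algebraMap_aevalEquiv b
  have e2 : ev0 hi (hi.aevalEquiv b) = aeval (fun _ => (0 : F)) b := by
    simp [ev0]
  rw [e1, e2]
  induction b using MvPolynomial.induction_on with
  | C a => simp
  | add b c hb hc =>
    have h1 : ((hi.aevalEquiv b : PA p) : MvPolynomial (Fin m) F) = aeval p b :=
      hi.algebraMap_aevalEquiv b
    have h2 : ((hi.aevalEquiv c : PA p) : MvPolynomial (Fin m) F) = aeval p c :=
      hi.algebraMap_aevalEquiv c
    simp only [map_add]
    rw [hb h1 (by simp [ev0]), hc h2 (by simp [ev0])]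
  | mul_X b i hb =>
    have h1 : ((hi.aevalEquiv b : PA p) : MvPolynomial (Fin m) F) = aeval p b :=
      hi.algebraMap_aevalEquiv b
    simp only [map_mul, aeval_X, hφ, mul_zero, map_zero]

theorem isIntegrallyClosed (hi : AlgebraicIndependent F p) : IsIntegrallyClosed (PA p) :=
  IsIntegrallyClosed.of_equiv (hi.aevalEquiv.toRingEquiv)

/-- the specialised minimal polynomial -/
noncomputable def mb (hi : AlgebraicIndependent F p) (θ : MvPolynomial (Fin m) F) :
    Polynomial F := (minpoly (PA p) θ).map (ev0 hi : PA p →+* F)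

variable (hint : Algebra.IsIntegral (PA p) (MvPolynomial (Fin m) F))
  (hi : AlgebraicIndependent F p)

include hint in
theorem mb_monic (θ : MvPolynomial (Fin m) F) : (mb hi θ).Monic :=
  (minpoly.monic (hint.isIntegral θ)).map _

include hint in
theorem mb_natDegree (θ : MvPolynomial (Fin m) F) :
    (mb hi θ).natDegree = (minpoly (PA p) θ).natDegree :=
  (minpoly.monic (hint.isIntegral θ)).natDegree_map _

theorem mb_root {S : Type*} [CommRing S] [Algebra F S]
    (φ : MvPolynomial (Fin m) F →ₐ[F] S) (hφ : ∀ i, φ (p i) = 0) (θ : MvPolynomial (Fin m) F) :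
    Polynomial.aeval (φ θ) (mb hi θ) = 0 := by
  have h1 := congrArg φ (minpoly.aeval (PA p) θ)
  rw [map_zero, Polynomial.aeval_def] at h1
  have h2 := Polynomial.hom_eval₂ (minpoly (PA p) θ) (algebraMap (PA p) (MvPolynomial (Fin m) F))
    (φ : MvPolynomial (Fin m) F →+* S) θ
  rw [mb, Polynomial.aeval_def, Polynomial.eval₂_map]
  have h3 : (algebraMap F S).comp (ev0 hi : PA p →+* F) =
      (φ : MvPolynomial (Fin m) F →+* S).comp (algebraMap (PA p) (MvPolynomial (Fin m) F)) := by
    ext a
    exact (ev0_hom hi φ hφ a).symm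
  rw [h3]
  exact h2.symm.trans h1

include hint in
theorem exists_zero {Ω : Type*} [Field Ω] [Algebra F Ω] [IsAlgClosed Ω]
    (θ : MvPolynomial (Fin m) F) (τ : Ω) (hτ : Polynomial.aeval τ (mb hi θ) = 0) :
    ∃ x : Fin m → Ω, (∀ i, aeval x (p i) = 0) ∧ aeval x θ = τ := by
  have := isIntegrallyClosed hi
  let A := PA p
  let R := MvPolynomial (Fin m) F
  have hθ : IsIntegral A θ := hint.isIntegral θ
  let χ0 : A →+* Ω := (algebraMap F Ω).comp (ev0 hi : A →+* F)
  have h0 : Polynomial.eval₂ χ0 τ (minpoly A θ) = 0 := by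
    rw [mb, Polynomial.aeval_def, Polynomial.eval₂_map] at hτ
    exact hτ
  let χ1 : AdjoinRoot (minpoly A θ) →+* Ω := AdjoinRoot.lift χ0 τ h0
  let B := Algebra.adjoin A ({θ} : Set R)
  let χ : B →+* Ω := χ1.comp ((minpoly.equivAdjoin hθ).symm : B →+* AdjoinRoot (minpoly A θ))
  have hB : Algebra.IsIntegral B R := ⟨fun y => (hint.isIntegral y).tower_top⟩
  have hinj : Function.Injective (algebraMap B R) := Subtype.val_injective
  obtain ⟨ψ, hψ⟩ := exists_extend (B := B) (S := R) (Ω := Ω) hinj χ
  have hψA : ∀ a : A, ψ (a : R) = χ0 a := by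
    intro a
    have e1 : (a : R) = algebraMap B R (algebraMap A B a) := rfl
    rw [e1, hψ]
    show χ1 ((minpoly.equivAdjoin hθ).symm (algebraMap A B a)) = χ0 a
    rw [AlgEquiv.commutes]
    exact AdjoinRoot.lift_of h0
  have hψθ : ψ θ = τ := by
    have e1 : θ = algebraMap B R ⟨θ, Algebra.self_mem_adjoin_singleton A θ⟩ := rfl
    rw [e1, hψ]
    show χ1 ((minpoly.equivAdjoin hθ).symm ⟨θ, Algebra.self_mem_adjoin_singleton A θ⟩) = τ
    have e2 : (minpoly.equivAdjoin hθ) (AdjoinRoot.root (minpoly A θ)) =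
        ⟨θ, Algebra.self_mem_adjoin_singleton A θ⟩ := by
      rw [minpoly.coe_equivAdjoin]
      apply Subtype.ext
      simp [AdjoinRoot.Minpoly.toAdjoin]
    rw [← e2, AlgEquiv.symm_apply_apply]
    exact AdjoinRoot.lift_root h0
  let ψF : R →ₐ[F] Ω := { ψ with
    commutes' := fun c => by
      have e1 : algebraMap F R c = ((algebraMap F A c : A) : R) := rfl
      show ψ (algebraMap F R c) = _
      rw [e1, hψA]
      show algebraMap F Ω (ev0 hi (algebraMap F A c)) = _
      rw [AlgHom.commutes]; rfl }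
  have hae : ∀ q : R, aeval (fun i => ψF (X i)) q = ψF q := by
    intro q
    have : ψF = aeval (fun i => ψF (X i)) := MvPolynomial.algHom_ext (by simp)
    rw [← this]
  refine ⟨fun i => ψF (X i), fun i => ?_, ?_⟩
  · rw [hae]
    have hm : p i ∈ PA p := Algebra.subset_adjoin ⟨i, rfl⟩
    have e1 : ψF (p i) = χ0 ⟨p i, hm⟩ := hψA ⟨p i, hm⟩
    rw [e1]
    show algebraMap F Ω (ev0 hi ⟨p i, hm⟩) = 0
    have e2 : hi.aevalEquiv (X i) = ⟨p i, hm⟩ := by
      apply Subtype.ext
      exact (hi.algebraMap_aevalEquiv (X i)).trans (by simp)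
    rw [← e2]
    simp [ev0]
  · rw [hae]; exact hψθ

include hint in
theorem integral' {K : Type*} [Field K] [Algebra F K] (hi : AlgebraicIndependent F p)
    (x : Fin m → K) (hx : ∀ i, aeval x (p i) = 0) (j : Fin m) : IsIntegral F (x j) := by
  refine ⟨mb hi (X j), mb_monic hint hi _, ?_⟩
  have := mb_root hi (aeval x) hx (X j)
  rw [aeval_X] at this
  exact this

include hint in
theorem degree' [CharZero F] {K : Type*} [Field K] [Algebra F K]
    (hi : AlgebraicIndependent F p) (hd : ∀ θ : MvPolynomial (Fin m) F, (minpoly (PA p) θ).natDegree ∣ 2 ^ m)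
    (x : Fin m → K) (hx : ∀ i, aeval x (p i) = 0) :
    Module.finrank F (IntermediateField.adjoin F (Set.range x)) ≤ 2 ^ m := by
  have hxi : ∀ y ∈ Set.range x, IsIntegral F y := by
    rintro _ ⟨j, rfl⟩; exact integral' hint hi x hx j
  have hfd : FiniteDimensional F (IntermediateField.adjoin F (Set.range x)) :=
    IntermediateField.finiteDimensional_adjoin hxi
  obtain ⟨α, hα⟩ := Field.exists_primitive_element F (IntermediateField.adjoin F (Set.range x))
  have h1 : (minpoly F α).natDegree =
      Module.finrank F (IntermediateField.adjoin F (Set.range x)) :=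
    (Field.primitive_element_iff_minpoly_natDegree_eq F α).1 hα
  have h2 : (α : K) ∈ Algebra.adjoin F (Set.range x) := by
    have e : (IntermediateField.adjoin F (Set.range x)).toSubalgebra =
        Algebra.adjoin F (Set.range x) :=
      IntermediateField.adjoin_toSubalgebra_of_isAlgebraic fun y hy => (hxi y hy).isAlgebraic
    rw [← e]
    exact α.2
  rw [Algebra.adjoin_range_eq_range_aeval] at h2
  obtain ⟨θ, hθ⟩ := h2
  have h3 : Polynomial.aeval (α : K) (mb hi θ) = 0 := by
    rw [← hθ]; exact mb_root hi (aeval x) hx θ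
  have h4 : minpoly F (α : K) ∣ mb hi θ := minpoly.dvd F _ h3
  have h5 : minpoly F (α : K) = minpoly F α :=
    minpoly.algebraMap_eq (algebraMap (IntermediateField.adjoin F (Set.range x)) K).injective α
  rw [h5] at h4
  have h6 := Polynomial.natDegree_le_of_dvd h4 (mb_monic hint hi θ).ne_zero
  rw [mb_natDegree hint hi] at h6
  exact h1 ▸ h6.trans (Nat.le_of_dvd (by positivity) (hd θ))

include hint in
theorem finite' {K : Type*} [Field K] [Algebra F K] (hi : AlgebraicIndependent F p) :
    {x : Fin m → K | ∀ i, aeval x (p i) = 0}.Finite := by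
  have h1 : (Set.pi Set.univ fun j => (mb hi (X j)).rootSet K).Finite :=
    Set.Finite.pi fun j => Polynomial.rootSet_finite _ _
  refine h1.subset fun x hx => ?_
  intro j _
  rw [Polynomial.mem_rootSet]
  refine ⟨(mb_monic hint hi _).ne_zero, ?_⟩
  have := mb_root hi (aeval x) hx (X j)
  rwa [aeval_X] at this

theorem exists_factor {l : ℕ} (n : ℕ) (f : Polynomial F) (hf : f.Monic) (hn : f.natDegree = n)
    (hl : ¬ l ∣ n) : ∃ g : Polynomial F, Irreducible g ∧ g ∣ f ∧ ¬ l ∣ g.natDegree := by
  induction n using Nat.strong_induction_on generalizing f with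
  | _ n ih =>
  have hu : ¬ IsUnit f := by
    intro hu
    rw [hf.isUnit_iff] at hu
    rw [hu, Polynomial.natDegree_one] at hn
    exact hl (hn ▸ dvd_zero l)
  obtain ⟨g, hgm, hg, hgf⟩ := Polynomial.exists_monic_irreducible_factor f hu
  by_cases hgl : l ∣ g.natDegree
  · obtain ⟨q, hq⟩ := hgf
    have hqm : q.Monic := hgm.of_mul_monic_left (hq ▸ hf)
    have hd : f.natDegree = g.natDegree + q.natDegree := by
      rw [hq, hgm.natDegree_mul hqm]
    have hgpos : 0 < g.natDegree := hg.natDegree_pos
    have hql : ¬ l ∣ q.natDegree := fun h => hl (by rw [← hn, hd]; exact dvd_add hgl h)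
    obtain ⟨g', h1, h2, h3⟩ := ih q.natDegree (by omega) q hqm rfl hql
    exact ⟨g', h1, h2.trans (hq ▸ Dvd.intro_left g rfl), h3⟩
  · exact ⟨g, hg, hgf, hgl⟩

/-- a linear form over an infinite field separating finitely many vectors -/
theorem exists_linear [Infinite F] {K : Type*} [Field K] [Algebra F K] (S : Set (Fin m → K))
    (hS : S.Finite) (hS0 : (0 : Fin m → K) ∉ S) :
    ∃ c : Fin m → F, ∀ v ∈ S, ∑ j, algebraMap F K (c j) * v j ≠ 0 := by
  classical
  by_contra hcon
  push Not at hcon
  have := hS.to_subtype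
  let W : S → Submodule F (Fin m → F) := fun v =>
    { carrier := {c | ∑ j, algebraMap F K (c j) * v.1 j = 0}
      zero_mem' := by simp
      add_mem' := fun {a b} ha hb => by
        simp only [Set.mem_ofPred_eq, Pi.add_apply, map_add, add_mul, Finset.sum_add_distrib] at *
        rw [ha, hb, add_zero]
      smul_mem' := fun r a ha => by
        simp only [Set.mem_ofPred_eq, Pi.smul_apply, smul_eq_mul, map_mul, mul_assoc] at *
        rw [← Finset.mul_sum, ha, mul_zero] }
  have hcov : ⋃ v, (W v : Set (Fin m → F)) = Set.univ := by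
    rw [Set.eq_univ_iff_forall]
    intro c
    obtain ⟨v, hv, h0⟩ := hcon c
    exact Set.mem_iUnion.2 ⟨⟨v, hv⟩, h0⟩
  obtain ⟨v, hv⟩ := Subspace.exists_eq_top_of_iUnion_eq_univ hcov
  apply hS0
  have : (v.1 : Fin m → K) = 0 := by
    funext j
    have h1 : (Pi.single j (1 : F) : Fin m → F) ∈ W v := hv ▸ Submodule.mem_top
    have h2 : ∑ i, algebraMap F K ((Pi.single j (1 : F) : Fin m → F) i) * v.1 i = 0 := h1
    rw [Finset.sum_eq_single_of_mem j (Finset.mem_univ j)] at h2
    · simpa using h2
    · intro i _ hij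
      rw [Pi.single_eq_of_ne hij, map_zero, zero_mul]
  rw [← this]
  exact v.2

include hint in
theorem exists' [CharZero F] {Ω : Type*} [Field Ω] [Algebra F Ω] [IsAlgClosed Ω]
    (hi : AlgebraicIndependent F p) (hd : ∀ θ : MvPolynomial (Fin m) F, (minpoly (PA p) θ).natDegree ∣ 2 ^ m)
    {l : ℕ} (hl : l.Prime) (h2 : l ≠ 2) : ∃ x : Fin m → Ω, (∀ i, aeval x (p i) = 0) ∧
      ¬ l ∣ Module.finrank F (IntermediateField.adjoin F (Set.range x)) := by
  classical
  set Z := {x : Fin m → Ω | ∀ i, aeval x (p i) = 0} with hZ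
  have hZf : Z.Finite := finite' hint hi
  let S : Set (Fin m → Ω) := (fun q : (Fin m → Ω) × (Fin m → Ω) => q.1 - q.2) '' (Z ×ˢ Z) \ {0}
  have hSf : S.Finite := ((hZf.prod hZf).image _).subset Set.sdiff_subset
  obtain ⟨c, hc⟩ := exists_linear (F := F) S hSf (by simp [S])
  let θ : MvPolynomial (Fin m) F := ∑ j, C (c j) * X j
  have hθ : ∀ x : Fin m → Ω, aeval x θ = ∑ j, algebraMap F Ω (c j) * x j := by
    intro x; simp [θ, map_sum]
  have hinj : ∀ x ∈ Z, ∀ y ∈ Z, aeval x θ = aeval y θ → x = y := by
    intro x hx y hy hxy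
    by_contra hne
    apply hc (x - y) ⟨⟨(x, y), ⟨hx, hy⟩, rfl⟩, by simpa [sub_eq_zero] using hne⟩
    simp only [Pi.sub_apply, mul_sub, Finset.sum_sub_distrib]
    rw [← hθ, ← hθ, hxy, sub_self]
  have hnd : ¬ l ∣ (mb hi θ).natDegree := by
    rw [mb_natDegree hint hi]
    intro h
    exact h2 ((Nat.prime_dvd_prime_iff_eq hl Nat.prime_two).1
      (hl.dvd_of_dvd_pow (h.trans (hd θ))))
  obtain ⟨g, hg, hgf, hgl⟩ := exists_factor _ (mb hi θ) (mb_monic hint hi θ) rfl hnd
  obtain ⟨τ, hτ⟩ := IsAlgClosed.exists_aeval_eq_zero Ω g hg.degree_pos.ne'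
  have hτ2 : Polynomial.aeval τ (mb hi θ) = 0 := by
    obtain ⟨q, hq⟩ := hgf
    rw [hq, map_mul, hτ, zero_mul]
  obtain ⟨x, hx, hxθ⟩ := exists_zero hint hi θ τ hτ2
  refine ⟨x, hx, ?_⟩
  -- `F(x) = F(τ)`
  set N := IntermediateField.adjoin F (Set.range x) with hN
  have hxi : ∀ y ∈ Set.range x, IsIntegral F y := by
    rintro _ ⟨j, rfl⟩; exact integral' hint hi x hx j
  have hfd : FiniteDimensional F N := IntermediateField.finiteDimensional_adjoin hxi
  let x' : Fin m → N := fun j => ⟨x j, IntermediateField.subset_adjoin F _ ⟨j, rfl⟩⟩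
  have hx' : ∀ q : MvPolynomial (Fin m) F, algebraMap N Ω (aeval x' q) = aeval x q := by
    intro q
    rw [← MvPolynomial.aeval_algebraMap_apply]
    rfl
  let α : N := aeval x' θ
  have hαtop : IntermediateField.adjoin F {α} = ⊤ := by
    rw [Field.primitive_element_iff_algHom_eq_of_eval F Ω (fun y => IsAlgClosed.splits _) α
      (IsScalarTower.toAlgHom F N Ω)]
    intro ψ hψ
    -- `ψ ∘ x'` is a zero with the same value of `θ`
    have e1 : ∀ q : MvPolynomial (Fin m) F, aeval (fun j => ψ (x' j)) q = ψ (aeval x' q) := by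
      intro q
      exact (MvPolynomial.comp_aeval_apply (φ := ψ) x' q).symm ▸ rfl
    have e2 : (fun j => ψ (x' j)) ∈ Z := by
      intro i
      rw [e1]
      have : aeval x' (p i) = 0 := by
        apply (algebraMap N Ω).injective
        rw [hx', map_zero]; exact hx i
      rw [this, map_zero]
    have e3 : aeval x θ = aeval (fun j => ψ (x' j)) θ := by
      rw [e1, ← hx']
      exact hψ
    have e4 := hinj x hx _ e2 e3
    -- agree on generators
    have e5 : ∀ j, (IsScalarTower.toAlgHom F N Ω) (x' j) = ψ (x' j) := fun j => congrFun e4 j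
    have e6 : IntermediateField.adjoin F (Set.range x') = ⊤ := by
      apply IntermediateField.map_injective N.val
      rw [IntermediateField.adjoin_map, ← Set.range_comp, ← AlgHom.fieldRange_eq_map,
        IntermediateField.fieldRange_val]
      rfl
    refine AlgHom.ext fun y => ?_
    have hy : y ∈ IntermediateField.adjoin F (Set.range x') := e6 ▸ IntermediateField.mem_top
    induction hy using IntermediateField.adjoin_induction with
    | mem y hy => obtain ⟨j, rfl⟩ := hy; exact e5 j
    | algebraMap c => rw [AlgHom.commutes, AlgHom.commutes]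
    | add a b _ _ ha hb => rw [map_add, map_add, ha, hb]
    | mul a b _ _ ha hb => rw [map_mul, map_mul, ha, hb]
    | inv a _ ha => rw [map_inv₀, map_inv₀, ha]
  have h3 : (minpoly F α).natDegree = Module.finrank F N :=
    (Field.primitive_element_iff_minpoly_natDegree_eq F α).1 hαtop
  have h4 : minpoly F α = minpoly F τ := by
    have : algebraMap N Ω α = τ := by rw [hx']; exact hxθ
    rw [← this]
    exact (minpoly.algebraMap_eq (algebraMap N Ω).injective α).symm
  have h5 : (minpoly F τ).natDegree = g.natDegree := by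
    have h6 : minpoly F τ ∣ g := minpoly.dvd F τ hτ
    have h7 : Associated (minpoly F τ) g := by
      refine (minpoly.irreducible ?_).associated_of_dvd hg h6
      exact ⟨mb hi θ, mb_monic hint hi θ, hτ2⟩
    exact Polynomial.natDegree_eq_of_degree_eq (Polynomial.degree_eq_degree_of_associated h7)
  rw [← h3, h4, h5]
  exact hgl

include hint in
theorem singular' [CharZero F] (hi : AlgebraicIndependent F p)
    (hd : ∀ θ : MvPolynomial (Fin m) F, (minpoly (PA p) θ).natDegree ∣ 2 ^ m)
    (x : Fin (2 ^ m) → Fin m → F) (hinj : Function.Injective x)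
    (hx : ∀ k i, aeval (x k) (p i) = 0) (k₀ : Fin (2 ^ m)) (w : Fin m → F) (hw : w ≠ 0)
    (hs : ∀ i, aeval (fun j => algebraMap F (DualNumber F) (x k₀ j) + w j • DualNumber.eps)
      (p i) = 0) : False := by
  classical
  let D : Set (Fin m → F) := (Set.range fun q : Fin (2 ^ m) × Fin (2 ^ m) => x q.1 - x q.2)
  let S : Set (Fin m → F) := insert w (D \ {0})
  have hSf : S.Finite := ((Set.finite_range _).subset Set.sdiff_subset).insert w
  have hS0 : (0 : Fin m → F) ∉ S := by
    intro h
    rcases Set.mem_insert_iff.1 h with h | h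
    · exact hw h.symm
    · exact h.2 rfl
  obtain ⟨c, hc⟩ := exists_linear (F := F) S hSf hS0
  let θ : MvPolynomial (Fin m) F := ∑ j, C (c j) * X j
  let t : Fin (2 ^ m) → F := fun k => aeval (x k) θ
  have ht : ∀ k, t k = ∑ j, c j * x k j := by
    intro k; simp [t, θ, map_sum]
  have htinj : Function.Injective t := by
    intro k l hkl
    by_contra hne
    have h1 : x k - x l ∈ S := by
      refine Set.mem_insert_of_mem _ ⟨⟨(k, l), rfl⟩, ?_⟩
      intro h
      exact hne (hinj (sub_eq_zero.1 h))
    apply hc _ h1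
    simp only [Algebra.algebraMap_self, RingHom.id_apply, Pi.sub_apply, mul_sub,
      Finset.sum_sub_distrib]
    rw [← ht, ← ht, hkl, sub_self]
  let b : F := ∑ j, c j * w j
  have hb : b ≠ 0 := by
    have := hc w (Set.mem_insert _ _)
    simpa using this
  let f := mb hi θ
  have hfm : f.Monic := mb_monic hint hi θ
  have hfd : f.natDegree ≤ 2 ^ m := by
    show (mb hi θ).natDegree ≤ _
    rw [mb_natDegree hint hi]
    exact Nat.le_of_dvd (by positivity) (hd θ)
  have hroot : ∀ k, f.IsRoot (t k) := by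
    intro k
    have := mb_root hi (aeval (x k)) (hx k) θ
    rw [Polynomial.coe_aeval_eq_eval] at this
    exact this
  have hder : f.derivative.IsRoot (t k₀) := by
    have h1 := mb_root hi (aeval (fun j => algebraMap F (DualNumber F) (x k₀ j) +
      w j • DualNumber.eps)) hs θ
    have h2 : aeval (fun j => algebraMap F (DualNumber F) (x k₀ j) + w j • DualNumber.eps) θ =
        algebraMap F (DualNumber F) (t k₀) + b • DualNumber.eps := by
      rw [ht]
      simp only [θ, b, map_sum, map_mul, aeval_C, aeval_X, mul_add, Finset.sum_add_distrib,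
        Finset.sum_smul]
      congr 1
      refine Finset.sum_congr rfl fun j _ => ?_
      rw [mul_smul, Algebra.smul_def (c j)]
    rw [h2, Polynomial.aeval_add_of_sq_eq_zero] at h1
    · rw [Polynomial.aeval_algebraMap_apply, Polynomial.aeval_algebraMap_apply] at h1
      have h3 := congrArg TrivSqZeroExt.snd h1
      simp only [Polynomial.coe_aeval_eq_eval] at h3
      have h4 : Polynomial.eval (t k₀) f.derivative * b = 0 := by
        have e1 : ∀ a d b : F, TrivSqZeroExt.snd ((algebraMap F (DualNumber F)) a +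
            (algebraMap F (DualNumber F)) d * b • (DualNumber.eps : DualNumber F)) = d * b := by
          intro a d b
          rw [TrivSqZeroExt.snd_add, TrivSqZeroExt.snd_mul, TrivSqZeroExt.snd_smul,
            TrivSqZeroExt.fst_smul, DualNumber.fst_eps, DualNumber.snd_eps,
            TrivSqZeroExt.algebraMap_eq_inl, TrivSqZeroExt.snd_inl, TrivSqZeroExt.snd_inl,
            TrivSqZeroExt.fst_inl]
          simp
        rw [e1] at h3
        exact h3
      exact (mul_eq_zero.1 h4).resolve_right hb
    · rw [sq, smul_mul_smul_comm, DualNumber.eps_mul_eps, smul_zero]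
  have hmul : 1 < f.rootMultiplicity (t k₀) :=
    (Polynomial.one_lt_rootMultiplicity_iff_isRoot hfm.ne_zero).2 ⟨hroot k₀, hder⟩
  have hle : (t k₀) ::ₘ (Finset.univ.image t).val ≤ f.roots := by
    rw [Multiset.le_iff_count]
    intro z
    rw [Polynomial.count_roots]
    by_cases hz : z = t k₀
    · subst hz
      rw [Multiset.count_cons_self]
      have : Multiset.count (t k₀) (Finset.univ.image t).val ≤ 1 :=
        Multiset.nodup_iff_count_le_one.1 (Finset.nodup _) _
      omega
    · rw [Multiset.count_cons_of_ne hz]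
      by_cases hm : z ∈ (Finset.univ.image t).val
      · have h1 : Multiset.count z (Finset.univ.image t).val ≤ 1 :=
          Multiset.nodup_iff_count_le_one.1 (Finset.nodup _) _
        have h2 : 0 < f.rootMultiplicity z := by
          obtain ⟨k, -, rfl⟩ := Finset.mem_image.1 (Finset.mem_def.2 hm)
          exact (Polynomial.rootMultiplicity_pos hfm.ne_zero).2 (hroot k)
        omega
      · rw [Multiset.count_eq_zero_of_notMem hm]; exact Nat.zero_le _
  have h1 := Multiset.card_le_card hle
  rw [Multiset.card_cons] at h1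
  have h2 : Multiset.card (Finset.univ.image t).val = 2 ^ m := by
    show (Finset.univ.image t).card = _
    rw [Finset.card_image_of_injective _ htinj, Finset.card_univ, Fintype.card_fin]
  have h3 := Polynomial.card_roots' f
  omega

end

end BB

end LP5
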