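import Pool.Agent.LP5.Defs

/-! LP5: the union of the chain (tasks: all square roots, all systems of 4 forms in 6 variables) -/

namespace LP5
namespace U

/-- task solved in an extension -/
def Slv {F K : Type} [Field F] [Field K] (f : F →+* K) :
    (Fin 4 → Matrix (Fin 6) (Fin 6) F) ⊕ F → Prop
  | .inl A => ∃ x : Fin 6 → K, x ≠ 0 ∧ ∀ i, qv ((A i).map f) x = 0
  | .inr a => ∃ b : K, b ^ 2 = f a

theorem map_qv {F K : Type} [Field F] [Field K] (g : F →+* K) {n : ℕ}
    (A : Matrix (Fin n) (Fin n) F) (x : Fin n → F) :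
    qv (A.map g) (fun i => g (x i)) = g (qv A x) := by
  simp [qv, map_sum, Matrix.map_apply]

theorem Slv.comp {F K M : Type} [Field F] [Field K] [Field M] {f : F →+* K} (g : K →+* M)
    {t : (Fin 4 → Matrix (Fin 6) (Fin 6) F) ⊕ F} (h : Slv f t) : Slv (g.comp f) t := by
  rcases t with A | a
  · obtain ⟨x, hx0, hx⟩ := h
    refine ⟨fun i => g (x i), ?_, fun i => ?_⟩
    · intro h0
      apply hx0
      funext i
      exact g.injective ((congrFun h0 i).trans (map_zero g).symm)
    · have h1 : (A i).map (g.comp f) = ((A i).map f).map g := by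
        ext a b
        simp
      rw [h1, map_qv, hx i, map_zero]
  · obtain ⟨b, hb⟩ := h
    exact ⟨g b, by rw [← map_pow, hb]; rfl⟩

/-- transport of tasks -/
def tmap {F K : Type} [Field F] [Field K] (f : F →+* K) :
    (Fin 4 → Matrix (Fin 6) (Fin 6) F) ⊕ F → (Fin 4 → Matrix (Fin 6) (Fin 6) K) ⊕ K
  | .inl A => .inl fun i => (A i).map f
  | .inr a => .inr (f a)

theorem Slv_tmap {F K M : Type} [Field F] [Field K] [Field M] {f : F →+* K} {g : K →+* M}
    {t : (Fin 4 → Matrix (Fin 6) (Fin 6) F) ⊕ F} (h : Slv g (tmap f t)) : Slv (g.comp f) t := by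
  rcases t with A | a
  · obtain ⟨x, hx0, hx⟩ := h
    refine ⟨x, hx0, fun i => ?_⟩
    have h1 : (A i).map (g.comp f) = ((A i).map f).map g := by
      ext a b
      simp
    rw [h1]
    exact hx i
  · exact h

theorem S16_map {F K : Type} [Field F] [Field K] (g : F →+* K) (s : F) (c : Fin 5 → F)
    (j : Fin 4) : S16 (g s) (fun i => g (c i)) j = g (S16 s c j) := by
  fin_cases j <;> simp [S16, map_ofNat]

/-- one task can be solved in a good extension -/
def Step : Prop := ∀ (F : Type) [Field F] [CharZero F] (ζ s : F), IsPrimitiveRoot ζ 5 → Good s →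
  ∀ t : (Fin 4 → Matrix (Fin 6) (Fin 6) F) ⊕ F,
    ∃ (K : Type) (_ : Field K) (f : F →+* K), Good (f s) ∧ Slv f t

/-- finitely many tasks -/
theorem stepFin (H : Step) {F : Type} [Field F] [CharZero F] {ζ s : F} (hζ : IsPrimitiveRoot ζ 5)
    (hg : Good s) (T : Finset ((Fin 4 → Matrix (Fin 6) (Fin 6) F) ⊕ F)) :
    ∃ (K : Type) (_ : Field K) (f : F →+* K), Good (f s) ∧ ∀ t ∈ T, Slv f t := by
  classical
  induction T using Finset.induction_on with
  | empty => exact ⟨F, inferInstance, RingHom.id F, hg, by simp⟩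
  | insert t T _ ih =>
    obtain ⟨K, iK, f, h1, h2⟩ := ih
    have : CharZero K := charZero_of_injective_ringHom f.injective
    obtain ⟨M, iM, g, h3, h4⟩ := H K _ _ (hζ.map_of_injective f.injective) h1 (tmap f t)
    refine ⟨M, iM, g.comp f, h3, fun t' ht' => ?_⟩
    rcases Finset.mem_insert.1 ht' with rfl | h5
    · exact Slv_tmap h4
    · exact (h2 t' h5).comp g


/-- all tasks over `F` at once: a quotient of the product over all finite sets of tasks -/
theorem stepAll (H : Step) {F : Type} [Field F] [CharZero F] {ζ s : F} (hζ : IsPrimitiveRoot ζ 5)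
    (hg : Good s) : ∃ (K : Type) (_ : Field K) (f : F →+* K), Good (f s) ∧ ∀ t, Slv f t := by
  classical
  choose K iK f h1 h2 using fun T => stepFin H hζ hg T
  let I : Ideal (∀ T, K T) :=
    { carrier := {x | ∃ T₀, ∀ T, T₀ ⊆ T → x T = 0}
      zero_mem' := ⟨∅, fun _ _ => rfl⟩
      add_mem' := by
        rintro x y ⟨T, hT⟩ ⟨T', hT'⟩
        refine ⟨T ∪ T', fun S hS => ?_⟩
        rw [Pi.add_apply, hT S (Finset.union_subset_left hS), hT' S (Finset.union_subset_right hS),
          add_zero]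
      smul_mem' := by
        rintro c x ⟨T, hT⟩
        refine ⟨T, fun S hS => ?_⟩
        rw [smul_eq_mul, Pi.mul_apply, hT S hS, mul_zero] }
  have hI : I ≠ ⊤ := by
    intro h
    obtain ⟨T, hT⟩ : (1 : ∀ T, K T) ∈ I := h ▸ Submodule.mem_top
    exact one_ne_zero (hT T (Finset.Subset.refl T))
  obtain ⟨M, hM, hIM⟩ := Ideal.exists_le_maximal I hI
  have hmem : ∀ {ι : Type} [Fintype ι] (x : ι → ∀ T, K T), (∀ i, x i ∈ M) →
      ∃ T, ∀ i, x i T = 0 := by
    intro ι _ x hx
    by_contra hcon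
    push Not at hcon
    choose j hj using hcon
    apply hM.ne_top
    rw [Ideal.eq_top_iff_one]
    have h3 : (1 : ∀ T, K T) = ∑ i, (fun T => if i = j T then (x i T)⁻¹ else 0) * x i := by
      funext T
      rw [Finset.sum_apply, Finset.sum_eq_single (j T)]
      · simp [hj T]
      · intro i _ hi
        simp [hi]
      · intro h
        exact absurd (Finset.mem_univ _) h
    rw [h3]
    exact sum_mem fun i _ => M.mul_mem_left _ (hx i)
  let π : (∀ T, K T) →+* ((∀ T, K T) ⧸ M) := Ideal.Quotient.mk M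
  have hπ : ∀ x, π x = 0 ↔ x ∈ M := fun x => Ideal.Quotient.eq_zero_iff_mem
  have hsurj : Function.Surjective π := Ideal.Quotient.mk_surjective
  let _ : Field ((∀ T, K T) ⧸ M) := Ideal.Quotient.field M
  refine ⟨(∀ T, K T) ⧸ M, inferInstance, π.comp (RingHom.pi f), ⟨?_, ?_⟩, ?_⟩
  · intro r hr
    obtain ⟨r, rfl⟩ := hsurj r
    have h3 : r ^ 5 - RingHom.pi f s ∈ M := by
      rw [← hπ, map_sub, map_pow, sub_eq_zero]
      exact hr
    obtain ⟨T, hT⟩ := hmem (fun _ : Unit => r ^ 5 - RingHom.pi f s) (fun _ => h3)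
    exact (h1 T).1 (r T) (sub_eq_zero.1 (hT ()))
  · intro c hc
    by_contra hc0
    obtain ⟨j₀, hj₀⟩ := Function.ne_iff.1 hc0
    choose c' hc' using fun j => hsurj (c j)
    obtain ⟨u, hu⟩ := hsurj (c j₀)⁻¹
    have h3 : c' j₀ * u - 1 ∈ M := by
      rw [← hπ, map_sub, map_mul, hc', hu, map_one, sub_eq_zero]
      exact mul_inv_cancel₀ hj₀
    let p : Fin 4 → ∀ T, K T := fun i T => S16 (f T s) (fun k => c' k T) i
    have h4 : ∀ i, p i ∈ M := by
      intro i
      rw [← hπ]
      have h6 := congrFun hc i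
      have h5 : c = fun j => π (c' j) := by
        funext j
        exact (hc' j).symm
      rw [h5] at h6
      refine Eq.trans ?_ h6
      clear h6
      fin_cases i
      · show π (c' 1 ^ 2 + 2 * c' 0 * c' 2 + 2 * RingHom.pi f s * c' 3 * c' 4) = _
        simp [S16, map_ofNat]
      · show π (2 * c' 0 * c' 3 + 2 * c' 1 * c' 2 + RingHom.pi f s * c' 4 ^ 2) = _
        simp [S16, map_ofNat]
      · show π (c' 2 ^ 2 + 2 * c' 0 * c' 4 + 2 * c' 1 * c' 3) = _
        simp [S16, map_ofNat]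
      · show π ((c' 0 ^ 2 + 2 * RingHom.pi f s * c' 1 * c' 4 + 2 * RingHom.pi f s * c' 2 * c' 3) +
          (2 * c' 0 * c' 1 + 2 * RingHom.pi f s * c' 2 * c' 4 + RingHom.pi f s * c' 3 ^ 2)) = _
        simp [S16, map_ofNat]
    obtain ⟨T, hT⟩ := hmem (fun i : Option (Fin 4) => i.elim (c' j₀ * u - 1) p)
      (by rintro (_ | i); exacts [h3, h4 i])
    have h5 := (h1 T).2 (fun k => c' k T) (by
      funext i
      exact hT (some i))
    have h6 : c' j₀ T * u T - 1 = 0 := hT none
    have h7 : c' j₀ T = 0 := congrFun h5 j₀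
    rw [h7, zero_mul, zero_sub, neg_eq_zero] at h6
    exact one_ne_zero h6
  · intro t
    have he : (fun T => if t ∈ T then (0 : K T) else 1) ∈ M := by
      apply hIM
      refine ⟨{t}, fun T hT => ?_⟩
      simp only [if_pos (hT (Finset.mem_singleton_self t))]
    rcases t with A | a
    · have h3 : ∀ T, ∃ x : Fin 6 → K T, (.inl A ∈ T → x ≠ 0) ∧
          ∀ i, qv ((A i).map (f T)) x = 0 := by
        intro T
        by_cases hT : (.inl A) ∈ T
        · obtain ⟨x, hx0, hx⟩ := h2 T _ hT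
          exact ⟨x, fun _ => hx0, hx⟩
        · exact ⟨0, fun h => absurd h hT, fun i => by simp [qv]⟩
      choose x hx0 hx using h3
      refine ⟨fun k => π fun T => x T k, ?_, ?_⟩
      · intro h0
        obtain ⟨T, hT⟩ := hmem (fun i : Option (Fin 6) =>
          i.elim (fun T => if (.inl A) ∈ T then (0 : K T) else 1) (fun k T => x T k)) (by
            rintro (_ | k)
            · exact he
            · exact (hπ _).1 (congrFun h0 k))
        have h4 : (if (.inl A) ∈ T then (0 : K T) else 1) = 0 := hT none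
        have h5 : (.inl A) ∈ T := by
          by_contra h6
          rw [if_neg h6] at h4
          exact one_ne_zero h4
        apply hx0 T h5
        funext k
        exact hT (some k)
      · intro i
        have h4 : π (∑ a, ∑ b, RingHom.pi f (A i a b) * (fun T => x T a) * (fun T => x T b)) = 0 := by
          have h5 : (∑ a, ∑ b, RingHom.pi f (A i a b) * (fun T => x T a) * (fun T => x T b)) = 0 := by
            funext T
            have h6 := hx T i
            simp only [Finset.sum_apply, Pi.mul_apply, RingHom.pi_apply, Pi.zero_apply]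
            exact h6
          rw [h5, map_zero]
        rw [← h4]
        simp only [qv, map_sum, map_mul, Matrix.map_apply]
        rfl
    · have h3 : ∀ T, ∃ b : K T, (.inr a ∈ T → b ^ 2 = f T a) := by
        intro T
        by_cases hT : (.inr a) ∈ T
        · obtain ⟨b, hb⟩ := h2 T _ hT
          exact ⟨b, fun _ => hb⟩
        · exact ⟨0, fun h => absurd h hT⟩
      choose b hb using h3
      refine ⟨π b, ?_⟩
      show π b ^ 2 = π (RingHom.pi f a)
      rw [← map_pow, ← sub_eq_zero, ← map_sub, hπ]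
      apply hIM
      refine ⟨{.inr a}, fun T hT => ?_⟩
      have := hb T (hT (Finset.mem_singleton_self _))
      rw [Pi.sub_apply, Pi.pow_apply, this]
      exact sub_self _


/-- good fields, bundled -/
structure GF where
  K : Type
  fld : Field K
  chz : CharZero K
  ζ : K
  s : K
  hζ : IsPrimitiveRoot ζ 5
  hg : Good s

attribute [instance] GF.fld GF.chz

theorem exists_next (H : Step) (G : GF) : ∃ (G' : GF) (f : G.K →+* G'.K), f G.ζ = G'.ζ ∧ f G.s = G'.s ∧
    ∀ t, Slv f t := by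
  obtain ⟨K, iK, f, h1, h2⟩ := stepAll H G.hζ G.hg
  exact ⟨⟨K, iK, charZero_of_injective_ringHom f.injective, f G.ζ, f G.s,
    G.hζ.map_of_injective f.injective, h1⟩, f, rfl, rfl, h2⟩

noncomputable def nxt (H : Step) (G : GF) : GF := (exists_next H G).choose
noncomputable def emb (H : Step) (G : GF) : G.K →+* (nxt H G).K :=
  (exists_next H G).choose_spec.choose
theorem emb_ζ (H : Step) (G : GF) : emb H G G.ζ = (nxt H G).ζ :=
  (exists_next H G).choose_spec.choose_spec.1
theorem emb_s (H : Step) (G : GF) : emb H G G.s = (nxt H G).s :=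
  (exists_next H G).choose_spec.choose_spec.2.1
theorem emb_slv (H : Step) (G : GF) : ∀ t, Slv (emb H G) t :=
  (exists_next H G).choose_spec.choose_spec.2.2

section Lim
variable (H : Step) (G₀ : GF)

/-- the sequence -/
noncomputable def sq (n : ℕ) : GF := Nat.rec G₀ (fun _ G => nxt H G) n

/-- the step maps -/
noncomputable def eb (n : ℕ) : (sq H G₀ n).K →+* (sq H G₀ (n + 1)).K := emb H (sq H G₀ n)

theorem eb_ζ (n : ℕ) : eb H G₀ n (sq H G₀ n).ζ = (sq H G₀ (n + 1)).ζ := emb_ζ H _
theorem eb_s (n : ℕ) : eb H G₀ n (sq H G₀ n).s = (sq H G₀ (n + 1)).s := emb_s H _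
theorem eb_slv (n : ℕ) : ∀ t, Slv (eb H G₀ n) t := emb_slv H _

/-- the transition maps -/
noncomputable def tr (m n : ℕ) (h : m ≤ n) : (sq H G₀ m).K →+* (sq H G₀ n).K :=
  Nat.leRecOn (C := fun n => (sq H G₀ m).K →+* (sq H G₀ n).K) h
    (fun {k} φ => (eb H G₀ k).comp φ) (RingHom.id _)

theorem tr_self (m : ℕ) : tr H G₀ m m le_rfl = RingHom.id _ := Nat.leRecOn_self _

theorem tr_succ (m n : ℕ) (h : m ≤ n) :
    tr H G₀ m (n + 1) (h.trans (Nat.le_succ n)) = (eb H G₀ n).comp (tr H G₀ m n h) :=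
  Nat.leRecOn_succ h _

theorem tr_one (m : ℕ) : tr H G₀ m (m + 1) (Nat.le_succ m) = eb H G₀ m := by
  rw [tr_succ H G₀ m m le_rfl, tr_self]
  exact RingHom.comp_id _

theorem tr_trans (l m n : ℕ) (h : l ≤ m) (h' : m ≤ n) :
    tr H G₀ l n (h.trans h') = (tr H G₀ m n h').comp (tr H G₀ l m h) := by
  induction n, h' using Nat.le_induction with
  | base => rw [tr_self]; rfl
  | succ n h' ih => rw [tr_succ H G₀ l n (h.trans h'), tr_succ H G₀ m n h', ih]; rfl

theorem tr_ζ (m n : ℕ) (h : m ≤ n) : tr H G₀ m n h (sq H G₀ m).ζ = (sq H G₀ n).ζ := by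
  induction n, h using Nat.le_induction with
  | base => rw [tr_self]; rfl
  | succ n h ih => rw [tr_succ H G₀ m n h, RingHom.comp_apply, ih]; exact eb_ζ H _ _

theorem tr_s (m n : ℕ) (h : m ≤ n) : tr H G₀ m n h (sq H G₀ m).s = (sq H G₀ n).s := by
  induction n, h using Nat.le_induction with
  | base => rw [tr_self]; rfl
  | succ n h ih => rw [tr_succ H G₀ m n h, RingHom.comp_apply, ih]; exact eb_s H _ _

instance dirsys : DirectedSystem (fun n => (sq H G₀ n).K) fun i j h => tr H G₀ i j h where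
  map_self := by
    intro i x
    rw [tr_self]
    rfl
  map_map := by
    intro k j i h h' x
    exact (DFunLike.congr_fun (tr_trans H G₀ i j k h h') x).symm

/-- the limit field -/
abbrev Lim : Type := Ring.DirectLimit (fun n => (sq H G₀ n).K) fun i j h => tr H G₀ i j h

noncomputable instance : Field (Lim H G₀) :=
  Field.DirectLimit.field (fun n => (sq H G₀ n).K) fun i j h => tr H G₀ i j h

noncomputable def ofn (n : ℕ) : (sq H G₀ n).K →+* Lim H G₀ :=
  Ring.DirectLimit.of (fun n => (sq H G₀ n).K) (fun i j h => tr H G₀ i j h) n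

theorem ofn_tr (m n : ℕ) (h : m ≤ n) (x : (sq H G₀ m).K) :
    ofn H G₀ n (tr H G₀ m n h x) = ofn H G₀ m x := Ring.DirectLimit.of_f _ _

theorem ofn_eb (m : ℕ) (x : (sq H G₀ m).K) : ofn H G₀ (m + 1) (eb H G₀ m x) = ofn H G₀ m x := by
  rw [← tr_one, ofn_tr]

theorem exists_ofn (x : Lim H G₀) : ∃ n y, ofn H G₀ n y = x := Ring.DirectLimit.exists_of x

theorem exists_ofn_fam {ι : Type} [Finite ι] (x : ι → Lim H G₀) :
    ∃ n, ∃ y : ι → (sq H G₀ n).K, ∀ i, ofn H G₀ n (y i) = x i := by
  have := Fintype.ofFinite ι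
  choose N y hy using fun i => exists_ofn H G₀ (x i)
  refine ⟨Finset.univ.sup N, fun i => tr H G₀ _ _ (Finset.le_sup (Finset.mem_univ i)) (y i),
    fun i => ?_⟩
  rw [ofn_tr, hy]

end Lim

theorem exists_field_of (H : Step) (hbase : ∃ (F : Type) (_ : Field F) (_ : CharZero F) (ζ s : F),
    IsPrimitiveRoot ζ 5 ∧ Good s) : ∃ (K : Type) (_ : Field K) (_ : CharZero K) (ζ s : K),
    IsPrimitiveRoot ζ 5 ∧ Good s ∧ (∀ a : K, ∃ b, b ^ 2 = a) ∧
    ∀ A : Fin 4 → Matrix (Fin 6) (Fin 6) K, ∃ x : Fin 6 → K, x ≠ 0 ∧ ∀ i, qv (A i) x = 0 := by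
  obtain ⟨F, iF, iC, ζ, s, hζ, hg⟩ := hbase
  let G₀ : GF := ⟨F, iF, iC, ζ, s, hζ, hg⟩
  have hs : ∀ n, ofn H G₀ 0 (sq H G₀ 0).s = ofn H G₀ n (sq H G₀ n).s := by
    intro n
    rw [← ofn_tr H G₀ 0 n (Nat.zero_le n), tr_s]
  refine ⟨Lim H G₀, inferInstance, charZero_of_injective_ringHom (ofn H G₀ 0).injective,
    ofn H G₀ 0 (sq H G₀ 0).ζ, ofn H G₀ 0 (sq H G₀ 0).s,
    (sq H G₀ 0).hζ.map_of_injective (ofn H G₀ 0).injective, ⟨?_, ?_⟩, ?_, ?_⟩
  · intro r hr
    obtain ⟨n, r, rfl⟩ := exists_ofn H G₀ r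
    rw [hs n, ← map_pow] at hr
    exact (sq H G₀ n).hg.1 r ((ofn H G₀ n).injective hr)
  · intro c hc
    obtain ⟨n, c', hc'⟩ := exists_ofn_fam H G₀ c
    have h1 : c = fun i => ofn H G₀ n (c' i) := by
      funext i
      exact (hc' i).symm
    have h2 : c' = 0 := by
      apply (sq H G₀ n).hg.2
      funext j
      apply (ofn H G₀ n).injective
      rw [← S16_map, ← h1, ← hs n, hc]
      exact (map_zero _).symm
    rw [h1, h2]
    funext i
    exact map_zero _
  · intro a
    obtain ⟨n, a, rfl⟩ := exists_ofn H G₀ a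
    obtain ⟨b, hb⟩ := eb_slv H G₀ n (.inr a)
    exact ⟨ofn H G₀ (n + 1) b, by rw [← map_pow, hb, ofn_eb]⟩
  · intro A
    obtain ⟨n, A', hA'⟩ := exists_ofn_fam H G₀ (fun p : Fin 4 × Fin 6 × Fin 6 => A p.1 p.2.1 p.2.2)
    obtain ⟨x, hx0, hx⟩ := eb_slv H G₀ n (.inl fun i => Matrix.of fun a b => A' (i, a, b))
    refine ⟨fun i => ofn H G₀ (n + 1) (x i), ?_, fun i => ?_⟩
    · intro h
      apply hx0
      funext i
      exact (ofn H G₀ (n + 1)).injective ((congrFun h i).trans (map_zero _).symm)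
    · have h1 : A i = ((Matrix.of fun a b => A' (i, a, b)).map (eb H G₀ n)).map (ofn H G₀ (n + 1)) := by
        ext a b
        rw [Matrix.map_apply, Matrix.map_apply, ofn_eb]
        exact (hA' (i, a, b)).symm
      rw [h1, map_qv, hx i, map_zero]

end U
end LP5
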