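import Mathlib

/-!
# LP5: definitions (MP_c32625_al, estimate (A) for r = 5)

Quadratic forms are given by square matrices.  `qv A x = ∑ a b, A a b * x a * x b`.
-/

namespace LP5

open MvPolynomial

section Forms

variable {F : Type*} [Field F] {n m : ℕ}

/-- value of the quadratic form with coefficient matrix `A` -/
def qv (A : Matrix (Fin n) (Fin n) F) (x : Fin n → F) : F :=
  ∑ a, ∑ b, A a b * x a * x b

/-- its polar form -/
def pv (A : Matrix (Fin n) (Fin n) F) (x y : Fin n → F) : F :=
  ∑ a, ∑ b, A a b * (x a * y b + y a * x b)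

/-- the matrix `A` over an extension -/
abbrev up (K : Type*) [Field K] [Algebra F K] (A : Matrix (Fin n) (Fin n) F) :
    Matrix (Fin n) (Fin n) K := A.map (algebraMap F K)

/-- a vector over an extension -/
abbrev upv (K : Type*) [Field K] [Algebra F K] (x : Fin n → F) : Fin n → K :=
  fun i => algebraMap F K (x i)

/-- linear combination `∑ y_j h_j + u` -/
def lin (h : Fin m → Fin n → F) (u : Fin n → F) (y : Fin m → F) : Fin n → F :=
  fun a => (∑ j, y j * h j a) + u a

/-- the polynomial `y ↦ qv A (∑ y_j h_j + u)` -/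
noncomputable def pol (A : Matrix (Fin n) (Fin n) F) (h : Fin m → Fin n → F) (u : Fin n → F) :
    MvPolynomial (Fin m) F :=
  ∑ a, ∑ b, C (A a b) * ((∑ j, C (h j a) * X j) + C (u a)) * ((∑ j, C (h j b) * X j) + C (u b))

/-- geometric anisotropy of a family of polynomials (used for forms): every variable has a power
in the ideal generated by the family. -/
def GA {k : ℕ} (q : Fin k → MvPolynomial (Fin m) F) : Prop :=
  ∃ D : ℕ, ∀ j, (X j : MvPolynomial (Fin m) F) ^ D ∈ Ideal.span (Set.range q)

end Forms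

section Good

variable {F : Type*} [Field F]

/-- The four forms in five variables: `(∑ c_k τ^k)^2 = λ (τ - 1)` with `τ^5 = s`, i.e. the
coefficients of `τ^2, τ^3, τ^4` of the square vanish and the coefficients of `1` and `τ` add up
to zero. -/
def S16 (s : F) (c : Fin 5 → F) : Fin 4 → F :=
  ![c 1 ^ 2 + 2 * c 0 * c 2 + 2 * s * c 3 * c 4,
    2 * c 0 * c 3 + 2 * c 1 * c 2 + s * c 4 ^ 2,
    c 2 ^ 2 + 2 * c 0 * c 4 + 2 * c 1 * c 3,
    (c 0 ^ 2 + 2 * s * c 1 * c 4 + 2 * s * c 2 * c 3) +
      (2 * c 0 * c 1 + 2 * s * c 2 * c 4 + s * c 3 ^ 2)]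

/-- good fields (with distinguished element `s`) -/
def Good (s : F) : Prop :=
  (∀ r : F, r ^ 5 ≠ s) ∧ ∀ c : Fin 5 → F, S16 s c = 0 → c = 0

end Good

end LP5
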