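import Pool.Agent.LP5.Defs

/-! LP5: the subalgebra generated by the polynomials (used by BezoutA and BezoutB) -/

namespace LP5
open MvPolynomial

/-- the subalgebra generated by the `p_i` -/
noncomputable abbrev PA {F : Type*} [Field F] {m : ℕ} (p : Fin m → MvPolynomial (Fin m) F) :
    Subalgebra F (MvPolynomial (Fin m) F) := Algebra.adjoin F (Set.range p)

end LP5
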