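import Pool.Agent.LP5.Defs

/-!
# LP5/EndThree (helper66): the endgame for three linear sections

`V` of dimension 6 over `L`, a four dimensional family of symmetric bilinear forms, five conjugate
totally isotropic subspaces of dimension 3.
-/

set_option autoImplicit false

namespace LP5
namespace E3

open Module

section Abstract

variable {L : Type*} [Field L] {V : Type*} [AddCommGroup V] [Module L V] [FiniteDimensional L V]

/-- the family of symmetric bilinear forms -/
structure Fam (B : (Fin 4 → L) →ₗ[L] V →ₗ[L] V →ₗ[L] L) : Prop where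
  symm : ∀ c x y, B c x y = B c y x
  inj : ∀ c, (∀ x y, B c x y = 0) → c = 0
  two : (2 : L) ≠ 0
  dim : finrank L V = 6

variable {B : (Fin 4 → L) →ₗ[L] V →ₗ[L] V →ₗ[L] L}

/-- totally isotropic for all forms -/
def Iso (B : (Fin 4 → L) →ₗ[L] V →ₗ[L] V →ₗ[L] L) (W : Submodule L V) : Prop :=
  ∀ c, ∀ x ∈ W, ∀ y ∈ W, B c x y = 0

/-- totally isotropic for one form -/
def Iso1 (B : (Fin 4 → L) →ₗ[L] V →ₗ[L] V →ₗ[L] L) (c : Fin 4 → L) (W : Submodule L V) : Prop :=
  ∀ x ∈ W, ∀ y ∈ W, B c x y = 0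

/-- three linear conditions on `L⁴` -/
lemma three (f g h : (Fin 4 → L) →ₗ[L] L) : ∃ c, c ≠ 0 ∧ f c = 0 ∧ g c = 0 ∧ h c = 0 := by
  have h1 : finrank L (L × L × L) < finrank L (Fin 4 → L) := by simp
  obtain ⟨c, hc, hc0⟩ := Submodule.exists_mem_ne_zero_of_ne_bot
    (LinearMap.ker_ne_bot_of_finrank_lt (f := f.prod (g.prod h)) h1)
  rw [LinearMap.mem_ker] at hc
  have h2 : (f c, g c, h c) = 0 := hc
  simp only [Prod.mk_eq_zero] at h2
  exact ⟨c, hc0, h2.1, h2.2.1, h2.2.2⟩

/-- evaluation at a pair of vectors -/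
def ev (B : (Fin 4 → L) →ₗ[L] V →ₗ[L] V →ₗ[L] L) (x y : V) : (Fin 4 → L) →ₗ[L] L where
  toFun c := B c x y
  map_add' c d := by simp
  map_smul' a c := by simp

omit [FiniteDimensional L V] in
@[simp] lemma ev_apply (x y : V) (c : Fin 4 → L) : ev B x y c = B c x y := rfl

lemma decomp (hB : Fam B) {A C : Submodule L V} (hA : finrank L A = 3) (hC : finrank L C = 3)
    (hd : A ⊓ C = ⊥) (v : V) : ∃ a ∈ A, ∃ c ∈ C, a + c = v := by
  have h1 := Submodule.finrank_sup_add_finrank_inf_eq A C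
  rw [hd, finrank_bot, hA, hC] at h1
  have h2 : A ⊔ C = ⊤ := Submodule.eq_top_of_finrank_eq (by rw [hB.dim]; omega)
  have h3 : v ∈ A ⊔ C := by rw [h2]; trivial
  exact Submodule.mem_sup.1 h3

omit [FiniteDimensional L V] in
lemma two_not_cover {X P Q : Submodule L V} (hP : ¬ X ≤ P) (hQ : ¬ X ≤ Q) :
    ∃ t ∈ X, t ∉ P ∧ t ∉ Q := by
  obtain ⟨p, hp, hp'⟩ := SetLike.not_le_iff_exists.1 hP
  obtain ⟨q, hq, hq'⟩ := SetLike.not_le_iff_exists.1 hQ
  by_cases h1 : p ∈ Q
  · by_cases h2 : q ∈ P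
    · refine ⟨p + q, X.add_mem hp hq, fun h => hp' ?_, fun h => hq' ?_⟩
      · simpa using P.sub_mem h h2
      · simpa using Q.sub_mem h h1
    · exact ⟨q, hq, h2, hq'⟩
  · exact ⟨p, hp, hp', h1⟩

omit [FiniteDimensional L V] in
/-- isotropy of a sum -/
lemma iso1_sup (hB : Fam B) {c : Fin 4 → L} {P Q : Submodule L V} (hP : Iso1 B c P) (hQ : Iso1 B c Q)
    (h : ∀ x ∈ P, ∀ y ∈ Q, B c x y = 0) : Iso1 B c (P ⊔ Q) := by
  intro x hx y hy
  obtain ⟨p, hp, q, hq, rfl⟩ := Submodule.mem_sup.1 hx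
  obtain ⟨p', hp', q', hq', rfl⟩ := Submodule.mem_sup.1 hy
  simp only [map_add, LinearMap.add_apply]
  rw [hP p hp p' hp', hQ q hq q' hq', h p hp q' hq', hB.symm c q p', h p' hp' q hq]
  simp

/-- a vector outside and a hyperplane -/
lemma hyper (hB : Fam B) {W : Submodule L V} (hW : finrank L W = 5) {u : V} (hu : u ∉ W) (v : V) :
    ∃ w ∈ W, ∃ a : L, v = w + a • u := by
  have h1 : W < W ⊔ Submodule.span L {u} := by
    refine lt_of_le_of_ne le_sup_left fun h => hu ?_
    rw [h]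
    exact Submodule.mem_sup_right (Submodule.mem_span_singleton_self u)
  have h2 := Submodule.finrank_lt_finrank_of_lt h1
  have h3 : finrank L ↥(W ⊔ Submodule.span L {u}) ≤ 6 := by
    rw [← hB.dim]; exact Submodule.finrank_le _
  have h4 : W ⊔ Submodule.span L {u} = ⊤ := Submodule.eq_top_of_finrank_eq (by rw [hB.dim]; omega)
  have h5 : v ∈ W ⊔ Submodule.span L {u} := by rw [h4]; trivial
  obtain ⟨w, hw, y, hy, e⟩ := Submodule.mem_sup.1 h5
  obtain ⟨a, rfl⟩ := Submodule.mem_span_singleton.1 hy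
  exact ⟨w, hw, a, e.symm⟩

/-- **(P0)** -/
lemma P0 (hB : Fam B) {A P C : Submodule L V} (hA : finrank L A = 3) (hP : finrank L P = 3)
    (hC : finrank L C = 3) (iA : Iso B A) (iP : Iso B P) (iC : Iso B C)
    (hAP : A ⊓ P = ⊥) (hAC : A ⊓ C = ⊥) : P ⊓ C ≠ ⊥ := by
  intro hPC
  let b : Basis (Fin 3) L P := finBasisOfFinrankEq L P hP
  have hx : ∀ i : Fin 3, ∃ x ∈ A, x + (b i : V) ∈ C := by
    intro i
    obtain ⟨a, ha, c, hc, e⟩ := decomp hB hA hC hAC (b i : V)
    refine ⟨-a, A.neg_mem ha, ?_⟩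
    rw [← e]
    simpa using hc
  choose x hxA hxC using hx
  obtain ⟨c, hc0, h01, h02, h12⟩ := three (ev B (x 0) (b 1 : V)) (ev B (x 0) (b 2 : V)) (ev B (x 1) (b 2 : V))
  simp only [ev_apply] at h01 h02 h12
  have skew : ∀ i j : Fin 3, B c (x i) (b j : V) + B c (x j) (b i : V) = 0 := by
    intro i j
    have h := iC c _ (hxC i) _ (hxC j)
    simp only [map_add, LinearMap.add_apply] at h
    rw [iA c _ (hxA i) _ (hxA j), iP c _ (b i).2 _ (b j).2, hB.symm c (b i : V) (x j)] at h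
    rw [← h]; ring
  have diag : ∀ i : Fin 3, B c (x i) (b i : V) = 0 := by
    intro i
    have h := skew i i
    rw [← two_mul] at h
    exact (mul_eq_zero.1 h).resolve_left hB.two
  have hall : ∀ i j : Fin 3, B c (x i) (b j : V) = 0 := by
    intro i j
    have k10 : B c (x 1) (b 0 : V) = 0 := by have := skew 0 1; rw [h01, zero_add] at this; exact this
    have k20 : B c (x 2) (b 0 : V) = 0 := by have := skew 0 2; rw [h02, zero_add] at this; exact this
    have k21 : B c (x 2) (b 1 : V) = 0 := by have := skew 1 2; rw [h12, zero_add] at this; exact this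
    fin_cases i <;> fin_cases j <;> first
      | exact diag _
      | assumption
  -- the x_i span A
  have hli : LinearIndependent L (fun i => (⟨x i, hxA i⟩ : A)) := by
    rw [Fintype.linearIndependent_iff]
    intro g hg
    have e1 : ∑ i, g i • x i = 0 := by
      have := congrArg (Subtype.val : A → V) hg
      simpa using this
    have e2 : (∑ i, g i • (b i : V)) ∈ C := by
      have h1 : ∑ i, g i • (x i + (b i : V)) ∈ C := Submodule.sum_mem _ fun i _ => C.smul_mem _ (hxC i)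
      simp only [smul_add, Finset.sum_add_distrib, e1, zero_add] at h1
      exact h1
    have e3 : (∑ i, g i • (b i : V)) ∈ P := Submodule.sum_mem _ fun i _ => P.smul_mem _ (b i).2
    have e4 : (∑ i, g i • (b i : V)) = 0 := by
      have : (∑ i, g i • (b i : V)) ∈ P ⊓ C := ⟨e3, e2⟩
      rw [hPC] at this
      simpa using this
    have e5 : ∑ i, g i • b i = 0 := by
      apply Subtype.val_injective
      simpa using e4
    exact Fintype.linearIndependent_iff.1 b.linearIndependent g e5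
  have hspA : ∀ a ∈ A, ∃ g : Fin 3 → L, a = ∑ i, g i • x i := by
    intro a ha
    obtain ⟨b', hb'⟩ : ∃ b' : Basis (Fin 3) L A, ∀ i, (b' i : V) = x i :=
      ⟨basisOfLinearIndependentOfCardEqFinrank hli (by rw [hA]; rfl), fun i => by
        rw [coe_basisOfLinearIndependentOfCardEqFinrank]⟩
    have h2 := congrArg A.subtype (b'.sum_repr ⟨a, ha⟩)
    simp only [map_sum, map_smul, Submodule.subtype_apply, hb'] at h2
    exact ⟨_, h2.symm⟩
  have hspP : ∀ p ∈ P, ∃ g : Fin 3 → L, p = ∑ i, g i • (b i : V) := by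
    intro p hp
    have h2 := congrArg P.subtype (b.sum_repr ⟨p, hp⟩)
    simp only [map_sum, map_smul, Submodule.subtype_apply] at h2
    exact ⟨_, h2.symm⟩
  have hAPz : ∀ a ∈ A, ∀ p ∈ P, B c a p = 0 := by
    intro a ha p hp
    obtain ⟨g, rfl⟩ := hspA a ha
    obtain ⟨g', rfl⟩ := hspP p hp
    simp only [map_sum, LinearMap.sum_apply, map_smul, LinearMap.smul_apply, hall, smul_zero,
      Finset.sum_const_zero]
  refine hc0 (hB.inj c fun v w => ?_)
  obtain ⟨a, ha, p, hp, rfl⟩ := decomp hB hA hP hAP v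
  obtain ⟨a', ha', p', hp', rfl⟩ := decomp hB hA hP hAP w
  simp only [map_add, LinearMap.add_apply]
  rw [iA c a ha a' ha', iP c p hp p' hp', hAPz a ha p' hp', hB.symm c p a', hAPz a' ha' p hp]
  simp


omit [FiniteDimensional L V] in
/-- three independent vectors of a space of dimension 3 span it -/
lemma span3 {W : Submodule L V} (hW : finrank L W = 3) {v : Fin 3 → V} (hv : ∀ i, v i ∈ W)
    (hli : LinearIndependent L v) : ∀ w ∈ W, ∃ g : Fin 3 → L, w = ∑ i, g i • v i := by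
  intro a ha
  have hli' : LinearIndependent L (fun i => (⟨v i, hv i⟩ : W)) := by
    rw [Fintype.linearIndependent_iff] at hli ⊢
    intro g hg
    refine hli g ?_
    have := congrArg W.subtype hg
    simpa using this
  obtain ⟨b', hb'⟩ : ∃ b' : Basis (Fin 3) L W, ∀ i, (b' i : V) = v i :=
    ⟨basisOfLinearIndependentOfCardEqFinrank hli' (by rw [hW]; rfl), fun i => by
      rw [coe_basisOfLinearIndependentOfCardEqFinrank]⟩
  have h2 := congrArg W.subtype (b'.sum_repr ⟨a, ha⟩)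
  simp only [map_sum, map_smul, Submodule.subtype_apply, hb'] at h2
  exact ⟨_, h2.symm⟩

/-- extension of an independent pair -/
lemma ext2 {W : Submodule L V} (hW : finrank L W = 3) {x z : V}
    (hli : LinearIndependent L ![x, z]) : ∃ x' ∈ W, LinearIndependent L ![x', x, z] := by
  have h1 : finrank L (Submodule.span L (Set.range ![x, z])) = 2 := by
    rw [finrank_span_eq_card hli]; rfl
  have h2 : ¬ W ≤ Submodule.span L (Set.range ![x, z]) := by
    intro h
    have := Submodule.finrank_mono h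
    omega
  obtain ⟨x', hx', hn⟩ := SetLike.not_le_iff_exists.1 h2
  exact ⟨x', hx', linearIndependent_finCons.2 ⟨hli, hn⟩⟩

/-- extension of a non-zero vector -/
lemma ext1 {W : Submodule L V} (hW : finrank L W = 3) {z : V} (hz : z ≠ 0) :
    ∃ x ∈ W, ∃ x' ∈ W, LinearIndependent L ![x', x, z] := by
  have h0 : LinearIndependent L ![z] := by
    rw [linearIndependent_unique_iff]
    exact hz
  have h1 : finrank L (Submodule.span L (Set.range ![z])) = 1 := by
    rw [finrank_span_eq_card h0]; rfl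
  have h2 : ¬ W ≤ Submodule.span L (Set.range ![z]) := by
    intro h
    have := Submodule.finrank_mono h
    omega
  obtain ⟨x, hx, hn⟩ := SetLike.not_le_iff_exists.1 h2
  have h3 : LinearIndependent L ![x, z] := linearIndependent_finCons.2 ⟨h0, hn⟩
  obtain ⟨x', hx', h4⟩ := ext2 hW h3
  exact ⟨x, hx, x', hx', h4⟩

/-- **(T1)** -/
lemma T1 (hB : Fam B) {A P C : Submodule L V} (hA : finrank L A = 3) (hP : finrank L P = 3)
    (hC : finrank L C = 3) (iA : Iso B A) (iP : Iso B P) (iC : Iso B C)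
    (hAP : A ⊓ P = ⊥) (hAC : A ⊓ C = ⊥) {z : V} (hz : z ≠ 0) (hzP : z ∈ P) (hzC : z ∈ C) :
    ∃ f : (Fin 4 → L) →ₗ[L] L, ∀ c, f c = 0 → Iso1 B c (P ⊔ C) := by
  obtain ⟨y1, hy1, y2, hy2, hli⟩ := ext1 hP hz
  obtain ⟨a1, ha1, c1, hc1, e1⟩ := decomp hB hA hC hAC y1
  obtain ⟨a2, ha2, c2, hc2, e2⟩ := decomp hB hA hC hAC y2
  set y : Fin 3 → V := ![y2, y1, z] with hy
  set x : Fin 3 → V := ![-a2, -a1, 0] with hx
  have hyP : ∀ i, y i ∈ P := by
    intro i; fin_cases i
    · exact hy2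
    · exact hy1
    · exact hzP
  have hxA : ∀ i, x i ∈ A := by
    intro i; fin_cases i
    · exact A.neg_mem ha2
    · exact A.neg_mem ha1
    · exact A.zero_mem
  have hxC : ∀ i, x i + y i ∈ C := by
    intro i; fin_cases i
    · show -a2 + y2 ∈ C
      rw [← e2]; simpa using hc2
    · show -a1 + y1 ∈ C
      rw [← e1]; simpa using hc1
    · show 0 + z ∈ C
      rw [zero_add]; exact hzC
  refine ⟨ev B (x 0) (y 1), fun c h01 => ?_⟩
  rw [ev_apply] at h01
  have skew : ∀ i j : Fin 3, B c (x i) (y j) + B c (x j) (y i) = 0 := by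
    intro i j
    have h := iC c _ (hxC i) _ (hxC j)
    simp only [map_add, LinearMap.add_apply] at h
    rw [iA c _ (hxA i) _ (hxA j), iP c _ (hyP i) _ (hyP j), hB.symm c (y i) (x j)] at h
    rw [← h]; ring
  have diag : ∀ i : Fin 3, B c (x i) (y i) = 0 := by
    intro i
    have h := skew i i
    rw [← two_mul] at h
    exact (mul_eq_zero.1 h).resolve_left hB.two
  have h2 : ∀ j, B c (x 2) (y j) = 0 := by
    intro j
    have : x 2 = 0 := rfl
    rw [this]; simp
  have h2' : ∀ j, B c (x j) (y 2) = 0 := by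
    intro j
    have h := skew j 2
    rwa [h2 j, add_zero] at h
  have h10 : B c (x 1) (y 0) = 0 := by
    have h := skew 0 1
    rwa [h01, zero_add] at h
  have hall : ∀ i j : Fin 3, B c (x i) (y j) = 0 := by
    intro i j
    fin_cases i <;> fin_cases j <;> first
      | exact diag _
      | exact h2 _
      | exact h2' _
      | assumption
  have hw : LinearIndependent L (fun i => x i + y i) := by
    rw [Fintype.linearIndependent_iff]
    intro g hg
    simp only [smul_add, Finset.sum_add_distrib] at hg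
    have e2 : (∑ i, g i • y i) ∈ A := by
      have h1 : ∑ i, g i • x i ∈ A := Submodule.sum_mem _ fun i _ => A.smul_mem _ (hxA i)
      have h3 : ∑ i, g i • y i = -∑ i, g i • x i := by
        rw [eq_neg_iff_add_eq_zero, add_comm]; exact hg
      rw [h3]; exact A.neg_mem h1
    have e3 : (∑ i, g i • y i) ∈ P := Submodule.sum_mem _ fun i _ => P.smul_mem _ (hyP i)
    have e4 : (∑ i, g i • y i) = 0 := by
      have : (∑ i, g i • y i) ∈ A ⊓ P := ⟨e2, e3⟩
      rw [hAP] at this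
      simpa using this
    exact Fintype.linearIndependent_iff.1 hli g e4
  refine iso1_sup hB (iP c) (iC c) ?_
  intro p hp q hq
  obtain ⟨g, rfl⟩ := span3 hP hyP hli p hp
  obtain ⟨g', rfl⟩ := span3 hC hxC hw q hq
  have hyw : ∀ i j, B c (y i) (x j + y j) = 0 := by
    intro i j
    rw [map_add, iP c _ (hyP i) _ (hyP j), hB.symm c (y i), hall j i, add_zero]
  simp only [map_sum, LinearMap.sum_apply, map_smul, LinearMap.smul_apply, hyw, smul_zero,
      Finset.sum_const_zero]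

/-- `B c` vanishes if it vanishes on a hyperplane and against a vector outside -/
lemma zero_of_hyper (hB : Fam B) {c : Fin 4 → L} {W : Submodule L V} (hW : finrank L W = 5)
    (iW : Iso1 B c W) {u : V} (hu : u ∉ W) (h1 : ∀ w ∈ W, B c w u = 0) (h2 : B c u u = 0) : c = 0 := by
  refine hB.inj c fun x y => ?_
  obtain ⟨w, hw, a, rfl⟩ := hyper hB hW hu x
  obtain ⟨w', hw', a', rfl⟩ := hyper hB hW hu y
  simp only [map_add, LinearMap.add_apply, map_smul, LinearMap.smul_apply]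
  rw [iW w hw w' hw', h1 w hw, hB.symm c u w', h1 w' hw', h2]
  simp

/-- **(T2)** -/
lemma T2 (hB : Fam B) {c : Fin 4 → L} {T T' : Submodule L V} (hT : finrank L T = 5)
    (hT' : finrank L T' = 5) (hne : T ≠ T') (iT : Iso1 B c T) (iT' : Iso1 B c T') {v : V}
    (hv : v ∉ T) (hv' : v ∉ T') (h0 : B c v v = 0) : c = 0 := by
  have hnle : ¬ T' ≤ T := fun h => hne (Submodule.eq_of_le_of_finrank_eq h (by rw [hT, hT'])).symm
  obtain ⟨w', hw', hn⟩ := SetLike.not_le_iff_exists.1 hnle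
  obtain ⟨w1, hw1, r, e⟩ := hyper hB hT hv w'
  have hr : r ≠ 0 := by
    rintro rfl
    rw [zero_smul, add_zero] at e
    exact hn (e ▸ hw1)
  have b1 : B c w1 v = 0 := by
    have h := iT' w' hw' w' hw'
    rw [e] at h
    simp only [map_add, LinearMap.add_apply, map_smul, LinearMap.smul_apply, smul_eq_mul] at h
    rw [iT w1 hw1 w1 hw1, hB.symm c v w1, h0] at h
    have h' : 2 * (r * B c w1 v) = 0 := by rw [← h]; ring
    exact (mul_eq_zero.1 ((mul_eq_zero.1 h').resolve_left hB.two)).resolve_left hr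
  have b2 : ∀ w ∈ T, w ∈ T' → B c w v = 0 := by
    intro w hw hwT'
    have h := iT' w hwT' w' hw'
    rw [e] at h
    simp only [map_add, map_smul, smul_eq_mul] at h
    rw [iT w hw w1 hw1, zero_add] at h
    exact (mul_eq_zero.1 h).resolve_left hr
  refine zero_of_hyper hB hT iT hv (fun w hw => ?_) h0
  obtain ⟨t', ht', α, e'⟩ := hyper hB hT' hv' w
  have h3 : w + (α / r) • w1 ∈ T' := by
    have : w + (α / r) • w1 = t' + (α / r) • w' := by
      rw [e', e, smul_add, smul_smul, div_mul_cancel₀ _ hr]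
      abel
    rw [this]
    exact T'.add_mem ht' (T'.smul_mem _ hw')
  have h4 := b2 _ (T.add_mem hw (T.smul_mem _ hw1)) h3
  simp only [map_add, LinearMap.add_apply, map_smul, LinearMap.smul_apply, b1, smul_zero, add_zero] at h4
  exact h4

/-- **(R)** -/
lemma R0 (hB : Fam B) {P Q C : Submodule L V} (hP : finrank L P = 3) (hQ : finrank L Q = 3)
    (hC : finrank L C = 3) (iP : Iso B P) (iQ : Iso B Q) (iC : Iso B C)
    (hPQ : finrank L ↥(P ⊓ Q) = 1) (hCP : finrank L ↥(C ⊓ P) = 1) (hCQ : finrank L ↥(C ⊓ Q) = 1) :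
    ∃ c, c ≠ 0 ∧ Iso1 B c (P ⊔ Q) := by
  have h1 := Submodule.finrank_sup_add_finrank_inf_eq P Q
  have h2 := Submodule.finrank_sup_add_finrank_inf_eq C (P ⊔ Q)
  have h3 : finrank L ↥(C ⊔ (P ⊔ Q)) ≤ 6 := by rw [← hB.dim]; exact Submodule.finrank_le _
  have h4 : 2 ≤ finrank L ↥(C ⊓ (P ⊔ Q)) := by omega
  have hnP : ¬ C ⊓ (P ⊔ Q) ≤ P := by
    intro h
    have : C ⊓ (P ⊔ Q) ≤ C ⊓ P := le_inf inf_le_left h
    have := Submodule.finrank_mono this
    omega
  have hnQ : ¬ C ⊓ (P ⊔ Q) ≤ Q := by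
    intro h
    have : C ⊓ (P ⊔ Q) ≤ C ⊓ Q := le_inf inf_le_left h
    have := Submodule.finrank_mono this
    omega
  obtain ⟨t, ⟨htC, htPQ⟩, htP, htQ⟩ := two_not_cover hnP hnQ
  obtain ⟨x, hx, y, hy, rfl⟩ := Submodule.mem_sup.1 htPQ
  have hxQ : x ∉ Q := fun h => htQ (Q.add_mem h hy)
  have hyP : y ∉ P := fun h => htP (P.add_mem hx h)
  have hne : P ⊓ Q ≠ ⊥ := by
    intro h
    rw [h, finrank_bot] at hPQ
    omega
  obtain ⟨z, ⟨hzP, hzQ⟩, hz⟩ := Submodule.exists_mem_ne_zero_of_ne_bot hne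
  have hxz : LinearIndependent L ![x, z] := by
    refine linearIndependent_finCons.2 ⟨?_, ?_⟩
    · rw [linearIndependent_unique_iff]; exact hz
    · intro h
      refine hxQ ?_
      rw [Matrix.range_cons, Matrix.range_empty, Set.union_empty] at h
      exact (Submodule.span_singleton_le_iff_mem z Q).2 hzQ h
  have hyz : LinearIndependent L ![y, z] := by
    refine linearIndependent_finCons.2 ⟨?_, ?_⟩
    · rw [linearIndependent_unique_iff]; exact hz
    · intro h
      refine hyP ?_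
      rw [Matrix.range_cons, Matrix.range_empty, Set.union_empty] at h
      exact (Submodule.span_singleton_le_iff_mem z P).2 hzP h
  obtain ⟨x', hx', lx⟩ := ext2 hP hxz
  obtain ⟨y', hy', ly⟩ := ext2 hQ hyz
  obtain ⟨c, hc0, f1, f2, f3⟩ := three (ev B x y') (ev B x' y) (ev B x' y')
  simp only [ev_apply] at f1 f2 f3
  refine ⟨c, hc0, iso1_sup hB (iP c) (iQ c) ?_⟩
  have hxy : B c x y = 0 := by
    have h := iC c _ htC _ htC
    simp only [map_add, LinearMap.add_apply] at h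
    rw [iP c x hx x hx, iQ c y hy y hy, hB.symm c y x] at h
    have h' : 2 * B c x y = 0 := by rw [← h]; ring
    exact (mul_eq_zero.1 h').resolve_left hB.two
  intro p hp q hq
  have mP : ∀ i, (![x', x, z] : Fin 3 → V) i ∈ P := by
    intro i; fin_cases i
    · exact hx'
    · exact hx
    · exact hzP
  have mQ : ∀ i, (![y', y, z] : Fin 3 → V) i ∈ Q := by
    intro i; fin_cases i
    · exact hy'
    · exact hy
    · exact hzQ
  obtain ⟨g, rfl⟩ := span3 hP mP lx p hp
  obtain ⟨g', rfl⟩ := span3 hQ mQ ly q hq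
  have z1 : ∀ q ∈ Q, B c z q = 0 := fun q hq => iQ c z hzQ q hq
  have z2 : ∀ p ∈ P, B c p z = 0 := fun p hp => iP c p hp z hzP
  simp only [Fin.sum_univ_three, Matrix.cons_val_zero, Matrix.cons_val_one, Matrix.cons_val_two,
    Matrix.head_cons, Matrix.tail_cons, map_add, LinearMap.add_apply, map_smul, LinearMap.smul_apply,
    f1, f2, f3, hxy, z1 _ hy, z1 _ hy', z1 _ hzQ, z2 _ hx, z2 _ hx', smul_zero, add_zero]

/-- one step of **(X)** -/
lemma X1 (hB : Fam B) {c : Fin 4 → L} {W : Submodule L V} (hW : finrank L W = 5)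
    (iW : Iso1 B c W) {u : V} (hu : u ∉ W) (huu : B c u u = 0) {C : Submodule L V}
    (iC : Iso B C) (hC : ¬ C ≤ W) : ∀ y ∈ C, B c y u = 0 := by
  obtain ⟨u', hu', hn⟩ := SetLike.not_le_iff_exists.1 hC
  obtain ⟨w', hw', r, e⟩ := hyper hB hW hu u'
  have hr : r ≠ 0 := by
    rintro rfl
    rw [zero_smul, add_zero] at e
    exact hn (e ▸ hw')
  have b1 : B c w' u = 0 := by
    have h := iC c u' hu' u' hu'
    rw [e] at h
    simp only [map_add, LinearMap.add_apply, map_smul, LinearMap.smul_apply, smul_eq_mul] at h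
    rw [iW w' hw' w' hw', hB.symm c u w', huu] at h
    have h' : 2 * (r * B c w' u) = 0 := by rw [← h]; ring
    exact (mul_eq_zero.1 ((mul_eq_zero.1 h').resolve_left hB.two)).resolve_left hr
  have b2 : B c u' u = 0 := by
    rw [e]
    simp only [map_add, LinearMap.add_apply, map_smul, LinearMap.smul_apply, b1, huu, smul_zero, add_zero]
  have b3 : ∀ w ∈ C, w ∈ W → B c w u = 0 := by
    intro w hwC hw
    have h := iC c w hwC u' hu'
    rw [e] at h
    simp only [map_add, map_smul, smul_eq_mul] at h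
    rw [iW w hw w' hw', zero_add] at h
    exact (mul_eq_zero.1 h).resolve_left hr
  intro y hy
  obtain ⟨wy, hwy, m, ey⟩ := hyper hB hW hu y
  have h3 : y - (m / r) • u' ∈ W := by
    have : y - (m / r) • u' = wy - (m / r) • w' := by
      rw [ey, e, smul_add, smul_smul, div_mul_cancel₀ _ hr]
      abel
    rw [this]
    exact W.sub_mem hwy (W.smul_mem _ hw')
  have h4 := b3 _ (C.sub_mem hy (C.smul_mem _ hu')) h3
  simp only [map_sub, LinearMap.sub_apply, map_smul, LinearMap.smul_apply, b2, smul_zero, sub_zero] at h4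
  exact h4

/-- **(X)** -/
lemma X0 (hB : Fam B) {c : Fin 4 → L} (hc : c ≠ 0) {W : Submodule L V} (hW : finrank L W = 5)
    (iW : Iso1 B c W) {P Q C : Submodule L V} (iP : Iso B P) (iQ : Iso B Q) (iC : Iso B C)
    (hP : ¬ P ≤ W) (hQ : ¬ Q ≤ W) (hC : ¬ C ≤ W) (hPQ : finrank L ↥(P ⊔ Q) = 5) : C ≤ P ⊔ Q := by
  obtain ⟨u, hu, hn⟩ := SetLike.not_le_iff_exists.1 hP
  have huu : B c u u = 0 := iP c u hu u hu
  set M : Submodule L V := LinearMap.ker ((B c).flip u) with hM
  have memM : ∀ x, x ∈ M ↔ B c x u = 0 := fun x => by rw [hM, LinearMap.mem_ker, LinearMap.flip_apply]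
  have m1 : P ≤ M := fun y hy => (memM y).2 (X1 hB hW iW hn huu iP hP y hy)
  have m2 : Q ≤ M := fun y hy => (memM y).2 (X1 hB hW iW hn huu iQ hQ y hy)
  have m3 : C ≤ M := fun y hy => (memM y).2 (X1 hB hW iW hn huu iC hC y hy)
  have hMtop : M ≠ ⊤ := by
    intro h
    refine hc (zero_of_hyper hB hW iW hn (fun w _ => ?_) huu)
    rw [← memM, h]; trivial
  have h5 : finrank L M < 6 := by
    rw [← hB.dim]; exact Submodule.finrank_lt hMtop
  have h6 : P ⊔ Q ≤ M := sup_le m1 m2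
  have h7 : P ⊔ Q = M := Submodule.eq_of_le_of_finrank_le h6 (by omega)
  rw [h7]; exact m3

end Abstract

section Concrete

variable {F : Type*} [Field F] {L : Type*} [Field L] [Algebra F L] {n : ℕ}

lemma pv_comm (A : Matrix (Fin n) (Fin n) F) (x y : Fin n → F) : pv A x y = pv A y x := by
  unfold pv
  refine Finset.sum_congr rfl fun a _ => Finset.sum_congr rfl fun b _ => ?_
  ring

lemma pv_add (A : Matrix (Fin n) (Fin n) F) (x x' y : Fin n → F) :
    pv A (x + x') y = pv A x y + pv A x' y := by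
  unfold pv
  rw [← Finset.sum_add_distrib]
  refine Finset.sum_congr rfl fun a _ => ?_
  rw [← Finset.sum_add_distrib]
  refine Finset.sum_congr rfl fun b _ => ?_
  simp only [Pi.add_apply]
  ring

lemma pv_smul (A : Matrix (Fin n) (Fin n) F) (r : F) (x y : Fin n → F) :
    pv A (r • x) y = r * pv A x y := by
  unfold pv
  rw [Finset.mul_sum]
  refine Finset.sum_congr rfl fun a _ => ?_
  rw [Finset.mul_sum]
  refine Finset.sum_congr rfl fun b _ => ?_
  simp only [Pi.smul_apply, smul_eq_mul]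
  ring

/-- the bilinear form as a linear map -/
def bil (A : Matrix (Fin n) (Fin n) F) : (Fin n → F) →ₗ[F] (Fin n → F) →ₗ[F] F :=
  LinearMap.mk₂ F (pv A) (pv_add A) (pv_smul A)
    (fun x y y' => by rw [pv_comm, pv_add, pv_comm A y, pv_comm A y'])
    (fun r x y => by rw [pv_comm, pv_smul, pv_comm A y]; rfl)

@[simp] lemma bil_apply (A : Matrix (Fin n) (Fin n) F) (x y : Fin n → F) : bil A x y = pv A x y := rfl

lemma pv_self (A : Matrix (Fin n) (Fin n) F) (x : Fin n → F) : pv A x x = 2 * qv A x := by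
  unfold pv qv
  rw [Finset.mul_sum]
  refine Finset.sum_congr rfl fun a _ => ?_
  rw [Finset.mul_sum]
  refine Finset.sum_congr rfl fun b _ => ?_
  ring

lemma pv_eq (A : Matrix (Fin n) (Fin n) F) (x y : Fin n → F) :
    pv A x y = qv A (x + y) - qv A x - qv A y := by
  unfold pv qv
  rw [← Finset.sum_sub_distrib, ← Finset.sum_sub_distrib]
  refine Finset.sum_congr rfl fun a _ => ?_
  rw [← Finset.sum_sub_distrib, ← Finset.sum_sub_distrib]
  refine Finset.sum_congr rfl fun b _ => ?_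
  simp only [Pi.add_apply]
  ring

lemma pv_upv (A : Matrix (Fin n) (Fin n) F) (x y : Fin n → F) :
    pv (up L A) (upv L x) (upv L y) = algebraMap F L (pv A x y) := by
  unfold pv
  simp only [map_sum, map_mul, map_add]
  rfl

/-- the family over `L` -/
def fam (A : Fin 4 → Matrix (Fin 6) (Fin 6) F) :
    (Fin 4 → F) →ₗ[F] (Fin 6 → F) →ₗ[F] (Fin 6 → F) →ₗ[F] F :=
  ∑ i, (LinearMap.proj i : (Fin 4 → F) →ₗ[F] F).smulRight (bil (A i))

lemma fam_apply (A : Fin 4 → Matrix (Fin 6) (Fin 6) F) (c : Fin 4 → F) (x y : Fin 6 → F) :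
    fam A c x y = ∑ i, c i * pv (A i) x y := by
  unfold fam
  simp [LinearMap.sum_apply]

lemma iso_fam {A : Fin 4 → Matrix (Fin 6) (Fin 6) F} {W : Submodule F (Fin 6 → F)}
    (h : ∀ i, ∀ x ∈ W, ∀ y ∈ W, pv (A i) x y = 0) : Iso (fam A) W := by
  intro c x hx y hy
  rw [fam_apply]
  exact Finset.sum_eq_zero fun i _ => by rw [h i x hx y hy, mul_zero]

lemma fam_single (A : Fin 4 → Matrix (Fin 6) (Fin 6) F) (i : Fin 4) (x y : Fin 6 → F) :
    fam A (Pi.single i 1) x y = pv (A i) x y := by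
  rw [fam_apply, Finset.sum_eq_single i]
  · simp
  · intro j _ hj
    simp [hj]
  · simp

/-- an `F`-linear retraction -/
lemma exists_retr (F L : Type*) [Field F] [Field L] [Algebra F L] : ∃ r : L →ₗ[F] F, r 1 = 1 := by
  obtain ⟨r, hr⟩ := (Algebra.linearMap F L).exists_leftInverse_of_injective
    (LinearMap.ker_eq_bot.2 (algebraMap F L).injective)
  refine ⟨r, ?_⟩
  have := LinearMap.congr_fun hr 1
  simpa using this

lemma retr_mul (r : L →ₗ[F] F) (x : L) (a : F) : r (x * algebraMap F L a) = r x * a := by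
  rw [mul_comm, ← Algebra.smul_def, map_smul, smul_eq_mul, mul_comm]

/-- independence of the four forms over `L` -/
lemma fam_inj [CharZero F] (A : Fin 4 → Matrix (Fin 6) (Fin 6) F)
    (hA : ∀ c : Fin 4 → F, (∀ x, ∑ i, c i * qv (A i) x = 0) → c = 0) (c : Fin 4 → L)
    (hc : ∀ x y, fam (fun i => up L (A i)) c x y = 0) : c = 0 := by
  by_contra hne
  obtain ⟨i0, hi0⟩ := Function.ne_iff.1 hne
  simp only [Pi.zero_apply] at hi0
  obtain ⟨r, hr⟩ := exists_retr F L
  have h1 : ∀ x : Fin 6 → F, ∑ i, r (c i / c i0) * qv (A i) x = 0 := by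
    intro x
    have h2 := hc (upv L x) (upv L x)
    rw [fam_apply] at h2
    have h3 : ∑ i, c i / c i0 * algebraMap F L (pv (A i) x x) = 0 := by
      have : ∑ i, c i / c i0 * algebraMap F L (pv (A i) x x) =
          (∑ i, c i * pv (up L (A i)) (upv L x) (upv L x)) / c i0 := by
        rw [Finset.sum_div]
        refine Finset.sum_congr rfl fun i _ => ?_
        rw [pv_upv]
        ring
      rw [this, h2, zero_div]
    have h4 := congrArg r h3
    rw [map_sum, map_zero] at h4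
    simp_rw [retr_mul, pv_self] at h4
    have h5 : 2 * ∑ i, r (c i / c i0) * qv (A i) x = 0 := by
      rw [← h4, Finset.mul_sum]
      refine Finset.sum_congr rfl fun i _ => ?_
      ring
    exact (mul_eq_zero.1 h5).resolve_left two_ne_zero
  have h2 := congrFun (hA _ h1) i0
  simp only [div_self hi0, hr, Pi.zero_apply] at h2
  exact one_ne_zero h2

end Concrete

/-! ### the conjugates -/

section Sigma

variable {F : Type*} [Field F] {L : Type*} [Field L] [Algebra F L] (σ : L ≃ₐ[F] L)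

/-- powers of `σ` -/
def g (k : ZMod 5) : L ≃ₐ[F] L := σ ^ k.val

/-- action on vectors -/
def act (k : ZMod 5) (v : Fin 6 → L) : Fin 6 → L := fun b => g σ k (v b)

variable {σ}

lemma g_zero (x : L) : g σ 0 x = x := by
  unfold g
  rw [ZMod.val_zero, pow_zero]
  rfl

lemma g_add (h5 : σ ^ 5 = 1) (a b : ZMod 5) (x : L) : g σ (a + b) x = g σ a (g σ b x) := by
  unfold g
  rw [ZMod.val_add, ← pow_eq_pow_mod _ h5, pow_add]
  rfl

lemma act_zero (v : Fin 6 → L) : act σ 0 v = v := by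
  funext b; exact g_zero _

lemma act_add (h5 : σ ^ 5 = 1) (a b : ZMod 5) (v : Fin 6 → L) :
    act σ (a + b) v = act σ a (act σ b v) := by
  funext j; exact g_add h5 a b _

lemma act_vadd (k : ZMod 5) (v w : Fin 6 → L) : act σ k (v + w) = act σ k v + act σ k w := by
  funext b; simp [act]

lemma act_smul (k : ZMod 5) (c : L) (v : Fin 6 → L) : act σ k (c • v) = g σ k c • act σ k v := by
  funext b; simp [act]

lemma act_vzero (k : ZMod 5) : act σ k (0 : Fin 6 → L) = 0 := by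
  funext b; simp [act]

/-- conjugate subspace -/
def tw (σ : L ≃ₐ[F] L) (k : ZMod 5) (W : Submodule L (Fin 6 → L)) : Submodule L (Fin 6 → L) where
  carrier := {v | act σ (-k) v ∈ W}
  add_mem' := by
    intro v w hv hw
    simp only [Set.mem_ofPred_eq] at *
    rw [act_vadd]; exact W.add_mem hv hw
  zero_mem' := by
    simp only [Set.mem_ofPred_eq]
    rw [act_vzero]; exact W.zero_mem
  smul_mem' := by
    intro c v hv
    simp only [Set.mem_ofPred_eq] at *
    rw [act_smul]; exact W.smul_mem _ hv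

lemma mem_tw {k : ZMod 5} {W : Submodule L (Fin 6 → L)} {v : Fin 6 → L} :
    v ∈ tw σ k W ↔ act σ (-k) v ∈ W := Iff.rfl

lemma act_mem_tw (h5 : σ ^ 5 = 1) {k : ZMod 5} {W : Submodule L (Fin 6 → L)} {v : Fin 6 → L}
    (hv : v ∈ W) : act σ k v ∈ tw σ k W := by
  rw [mem_tw, ← act_add h5, neg_add_cancel, act_zero]; exact hv

lemma tw_add (h5 : σ ^ 5 = 1) (a b : ZMod 5) (W : Submodule L (Fin 6 → L)) :
    tw σ (a + b) W = tw σ a (tw σ b W) := by
  ext v
  rw [mem_tw, mem_tw, mem_tw, ← act_add h5, neg_add_rev]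

lemma tw_inf (k : ZMod 5) (W W' : Submodule L (Fin 6 → L)) :
    tw σ k (W ⊓ W') = tw σ k W ⊓ tw σ k W' := by
  ext v; simp only [mem_tw, Submodule.mem_inf]

lemma tw_zero (W : Submodule L (Fin 6 → L)) : tw σ 0 W = W := by
  ext v; rw [mem_tw, neg_zero, act_zero]

lemma tw_mono {k : ZMod 5} {W W' : Submodule L (Fin 6 → L)} (h : W ≤ W') : tw σ k W ≤ tw σ k W' :=
  fun _ hv => h hv

lemma tw_sup (h5 : σ ^ 5 = 1) (k : ZMod 5) (W W' : Submodule L (Fin 6 → L)) :
    tw σ k (W ⊔ W') = tw σ k W ⊔ tw σ k W' := by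
  refine le_antisymm ?_ (sup_le (tw_mono le_sup_left) (tw_mono le_sup_right))
  intro v hv
  rw [mem_tw] at hv
  obtain ⟨w, hw, w', hw', e⟩ := Submodule.mem_sup.1 hv
  have h1 : v = act σ k w + act σ k w' := by
    rw [← act_vadd, e, ← act_add h5, add_neg_cancel, act_zero]
  rw [h1]
  exact Submodule.add_mem_sup (act_mem_tw h5 hw) (act_mem_tw h5 hw')

lemma tw_bot (h5 : σ ^ 5 = 1) (k : ZMod 5) : tw σ k (⊥ : Submodule L (Fin 6 → L)) = ⊥ := by
  ext v
  rw [mem_tw, Submodule.mem_bot, Submodule.mem_bot]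
  constructor
  · intro h
    have h1 := congrArg (act σ k) h
    rw [← act_add h5, add_neg_cancel, act_zero, act_vzero] at h1
    exact h1
  · rintro rfl; exact act_vzero _

lemma finrank_tw (h5 : σ ^ 5 = 1) (k : ZMod 5) (W : Submodule L (Fin 6 → L)) :
    finrank L (tw σ k W) = finrank L W := by
  let j : W ≃+ tw σ k W :=
    { toFun := fun v => ⟨act σ k v, act_mem_tw h5 v.2⟩
      invFun := fun v => ⟨act σ (-k) v, v.2⟩
      left_inv := fun v => by
        apply Subtype.ext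
        show act σ (-k) (act σ k v) = v
        rw [← act_add h5, neg_add_cancel, act_zero]
      right_inv := fun v => by
        apply Subtype.ext
        show act σ k (act σ (-k) v) = v
        rw [← act_add h5, add_neg_cancel, act_zero]
      map_add' := fun v w => by
        apply Subtype.ext
        show act σ k ((v : Fin 6 → L) + w) = act σ k v + act σ k w
        exact act_vadd _ _ _ }
  have h := rank_eq_of_equiv_equiv (g σ k) j (g σ k).bijective (fun r m => by
    apply Subtype.ext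
    show act σ k (r • (m : Fin 6 → L)) = g σ k r • act σ k m
    exact act_smul _ _ _)
  unfold finrank
  rw [h]

lemma pv_act (A : Matrix (Fin 6) (Fin 6) F) (k : ZMod 5) (x y : Fin 6 → L) :
    pv (up L A) (act σ k x) (act σ k y) = g σ k (pv (up L A) x y) := by
  unfold pv act
  simp only [map_sum, map_mul, map_add, Matrix.map_apply, AlgEquiv.commutes]

lemma iso_tw (h5 : σ ^ 5 = 1) {A : Fin 4 → Matrix (Fin 6) (Fin 6) F} {W : Submodule L (Fin 6 → L)}
    (h : ∀ i, ∀ x ∈ W, ∀ y ∈ W, pv (up L (A i)) x y = 0) (k : ZMod 5) :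
    ∀ i, ∀ x ∈ tw σ k W, ∀ y ∈ tw σ k W, pv (up L (A i)) x y = 0 := by
  intro i x hx y hy
  have h1 := pv_act (σ := σ) (A i) k (act σ (-k) x) (act σ (-k) y)
  rw [← act_add h5, ← act_add h5, add_neg_cancel, act_zero, act_zero, h i _ hx _ hy, map_zero] at h1
  exact h1

/-- **(D)** -/
lemma D0 [CharZero F] (h5 : σ ^ 5 = 1) (hσ : ∀ x : L, σ x = x → ∃ a : F, algebraMap F L a = x)
    {A : Fin 4 → Matrix (Fin 6) (Fin 6) F} (H0 : ∀ x : Fin 6 → F, (∀ i, qv (A i) x = 0) → x = 0)
    {z : Fin 6 → L} (hz : z ≠ 0) (h : ∀ (k : ZMod 5) (i : Fin 4), pv (up L (A i)) z (act σ k z) = 0) :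
    False := by
  have : CharZero L := charZero_of_injective_algebraMap (algebraMap F L).injective
  obtain ⟨b, hb⟩ := Function.ne_iff.1 hz
  simp only [Pi.zero_apply] at hb
  set w : Fin 6 → L := (z b)⁻¹ • z with hw
  have hwb : w b = 1 := by rw [hw, Pi.smul_apply, smul_eq_mul, inv_mul_cancel₀ hb]
  set x : Fin 6 → L := ∑ k : ZMod 5, act σ k w with hx
  have hxb : x b = 5 := by
    rw [hx, Finset.sum_apply]
    have : ∀ k : ZMod 5, act σ k w b = 1 := fun k => by unfold act; rw [hwb, map_one]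
    simp only [this, Finset.sum_const, Finset.card_univ, ZMod.card]
    norm_num
  have hfix : ∀ k : ZMod 5, act σ k x = x := by
    intro k
    have h1 : act σ k x = ∑ l : ZMod 5, act σ k (act σ l w) := by
      rw [hx]
      funext j
      simp only [act, Finset.sum_apply, map_sum]
    rw [h1]
    simp_rw [← act_add h5]
    exact Fintype.sum_equiv (Equiv.addLeft k) _ _ fun l => rfl
  have hfix1 : ∀ j, σ (x j) = x j := by
    intro j
    have h1 := congrFun (hfix 1) j
    have h2 : g σ 1 (x j) = σ (x j) := by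
      unfold g
      have : (1 : ZMod 5).val = 1 := rfl
      rw [this, pow_one]
    rw [← h2]; exact h1
  choose x' hx' using fun j => hσ (x j) (hfix1 j)
  have hxx' : upv L x' = x := funext hx'
  have hww : ∀ (k : ZMod 5) (i : Fin 4), pv (up L (A i)) w (act σ k w) = 0 := by
    intro k i
    rw [hw, act_smul, pv_smul, pv_comm, pv_smul, pv_comm, h k i]
    simp
  have hkl : ∀ (k l : ZMod 5) (i : Fin 4), pv (up L (A i)) (act σ k w) (act σ l w) = 0 := by
    intro k l i
    have e : act σ l w = act σ k (act σ (l - k) w) := by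
      rw [← act_add h5]; congr 1; ring
    rw [e, pv_act, hww, map_zero]
  have hq : ∀ i, qv (A i) x' = 0 := by
    intro i
    have h1 : pv (up L (A i)) x x = 0 := by
      rw [← bil_apply, hx]
      simp only [map_sum, LinearMap.sum_apply, bil_apply, hkl, Finset.sum_const_zero]
    rw [← hxx', pv_upv, pv_self, map_mul] at h1
    have h2 : algebraMap F L (qv (A i) x') = 0 := by
      refine (mul_eq_zero.1 h1).resolve_left ?_
      rw [map_ofNat]; exact two_ne_zero
    exact (map_eq_zero _).1 h2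
  have h0 := H0 x' hq
  have h3 : x b = 0 := by rw [← hxx', h0]; simp [upv]
  rw [hxb] at h3
  exact (by norm_num : (5 : L) ≠ 0) h3

/-! ### the combinatorics of the five conjugates -/

/-- the hypotheses -/
structure Ctx (σ : L ≃ₐ[F] L) (A : Fin 4 → Matrix (Fin 6) (Fin 6) F) (U0 : Submodule L (Fin 6 → L)) : Prop where
  h5 : σ ^ 5 = 1
  hσ : ∀ x : L, σ x = x → ∃ a : F, algebraMap F L a = x
  H0 : ∀ x : Fin 6 → F, (∀ i, qv (A i) x = 0) → x = 0
  hB : Fam (fam fun i => up L (A i))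
  dim : finrank L U0 = 3
  iso : ∀ i, ∀ x ∈ U0, ∀ y ∈ U0, pv (up L (A i)) x y = 0

variable {A : Fin 4 → Matrix (Fin 6) (Fin 6) F} {U0 : Submodule L (Fin 6 → L)}

lemma Ctx.isoU' (C : Ctx σ A U0) (k : ZMod 5) :
    ∀ i, ∀ x ∈ tw σ k U0, ∀ y ∈ tw σ k U0, pv (up L (A i)) x y = 0 := iso_tw C.h5 C.iso k

lemma Ctx.isoU (C : Ctx σ A U0) (k : ZMod 5) : Iso (fam fun i => up L (A i)) (tw σ k U0) :=
  iso_fam (C.isoU' k)

lemma Ctx.dimU (C : Ctx σ A U0) (k : ZMod 5) : finrank L (tw σ k U0) = 3 := by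
  rw [finrank_tw C.h5, C.dim]

lemma Ctx.shift (C : Ctx σ A U0) (a b c : ZMod 5) :
    tw σ c (tw σ a U0 ⊓ tw σ b U0) = tw σ (c + a) U0 ⊓ tw σ (c + b) U0 := by
  rw [tw_inf, ← tw_add C.h5, ← tw_add C.h5]

lemma Ctx.fr (C : Ctx σ A U0) (a b : ZMod 5) :
    finrank L ↥(tw σ a U0 ⊓ tw σ b U0) = finrank L ↥(tw σ 0 U0 ⊓ tw σ (b - a) U0) := by
  have h := C.shift 0 (b - a) a
  rw [add_zero, add_sub_cancel] at h
  rw [← h, finrank_tw C.h5]

lemma Ctx.bot (C : Ctx σ A U0) {a b : ZMod 5} (h : finrank L ↥(tw σ 0 U0 ⊓ tw σ (b - a) U0) = 0) :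
    tw σ a U0 ⊓ tw σ b U0 = ⊥ := by
  rw [← C.fr] at h
  exact Submodule.finrank_eq_zero.1 h

lemma c1 : ∀ a b c k : ZMod 5, a ≠ b → b ≠ c → a ≠ c →
    ∃ l, (l = a ∨ l = b ∨ l = c) ∧ (l - k = a ∨ l - k = b ∨ l - k = c) := by decide

/-- **(T)** -/
lemma Ctx.tri [CharZero F] (C : Ctx σ A U0) {a b c : ZMod 5} (hab : a ≠ b) (hbc : b ≠ c) (hac : a ≠ c)
    {z : Fin 6 → L} (ha : z ∈ tw σ a U0) (hb : z ∈ tw σ b U0) (hc : z ∈ tw σ c U0) : z = 0 := by
  by_contra hz
  refine D0 C.h5 C.hσ C.H0 hz fun k i => ?_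
  obtain ⟨l, h1, h2⟩ := c1 a b c k hab hbc hac
  have m1 : z ∈ tw σ l U0 := by rcases h1 with rfl | rfl | rfl <;> assumption
  have m2 : z ∈ tw σ (l - k) U0 := by rcases h2 with h | h | h <;> rw [h] <;> assumption
  have m3 : act σ k z ∈ tw σ l U0 := by
    have h := act_mem_tw C.h5 (k := k) m2
    rwa [← tw_add C.h5, add_sub_cancel] at h
  exact C.isoU' l i z m1 _ m3

/-- stability -/
lemma stable (h5 : σ ^ 5 = 1) {T : Submodule L (Fin 6 → L)} {c : ZMod 5} (hc : c ≠ 0)
    (h : tw σ c T = T) (k : ZMod 5) : tw σ k T = T := by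
  have : Fact (Nat.Prime 5) := ⟨by norm_num⟩
  have h1 : ∀ m : ℕ, tw σ ((m : ZMod 5) * c) T = T := by
    intro m
    induction m with
    | zero => rw [Nat.cast_zero, zero_mul, tw_zero]
    | succ m ih => rw [Nat.cast_succ, add_mul, one_mul, add_comm, tw_add h5, ih, h]
  have h2 := h1 (k * c⁻¹).val
  rwa [ZMod.natCast_val, ZMod.cast_id, mul_assoc, inv_mul_cancel₀ hc, mul_one] at h2

/-- a stable sum of two isotropic spaces with a common vector -/
lemma Ctx.final [CharZero F] (C : Ctx σ A U0) {a b c : ZMod 5} (hc : c ≠ 0) {z : Fin 6 → L}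
    (hz : z ≠ 0) (ha : z ∈ tw σ a U0) (hb : z ∈ tw σ b U0)
    (h : tw σ c (tw σ a U0 ⊔ tw σ b U0) = tw σ a U0 ⊔ tw σ b U0) : False := by
  refine D0 C.h5 C.hσ C.H0 hz fun k i => ?_
  have h1 := stable C.h5 hc h k
  have h2 : act σ k z ∈ tw σ a U0 ⊔ tw σ b U0 := by
    rw [← h1]
    exact act_mem_tw C.h5 (Submodule.mem_sup_left ha)
  obtain ⟨p, hp, q, hq, e⟩ := Submodule.mem_sup.1 h2
  rw [← e, pv_comm, pv_add, pv_comm, C.isoU' a i z ha p hp, pv_comm, C.isoU' b i z hb q hq, add_zero]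

lemma four (d : ZMod 5) : -(2 * d) - 2 * d = d := by revert d; decide

/-- **(I)** -/
lemma Ctx.ne_bot [CharZero F] (C : Ctx σ A U0) {d : ZMod 5} (_hd : d ≠ 0) :
    finrank L ↥(tw σ 0 U0 ⊓ tw σ d U0) ≠ 0 := by
  intro h
  have hB := C.hB
  have hAP : tw σ 0 U0 ⊓ tw σ d U0 = ⊥ := C.bot (by rwa [sub_zero])
  have hAC : tw σ 0 U0 ⊓ tw σ (-d) U0 = ⊥ := by
    rw [inf_comm]
    exact C.bot (by rwa [zero_sub, neg_neg])
  have hne := P0 hB (C.dimU 0) (C.dimU d) (C.dimU (-d)) (C.isoU 0) (C.isoU d) (C.isoU (-d)) hAP hAC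
  obtain ⟨z, ⟨hz1, hz2⟩, hz⟩ := Submodule.exists_mem_ne_zero_of_ne_bot hne
  have hpos : finrank L ↥(tw σ d U0 ⊓ tw σ (-d) U0) ≠ 0 := fun h => hne (Submodule.finrank_eq_zero.1 h)
  have hle : finrank L ↥(tw σ d U0 ⊓ tw σ (-d) U0) ≤ 1 := by
    by_contra hgt
    push Not at hgt
    have k1 : finrank L ↥(tw σ 0 U0 ⊓ tw σ (2 * d) U0) = finrank L ↥(tw σ d U0 ⊓ tw σ (-d) U0) := by
      rw [inf_comm (tw σ d U0), C.fr (-d) d, show d - -d = 2 * d by ring]
    have k2 : finrank L ↥(tw σ 0 U0 ⊓ tw σ (-(2 * d)) U0) = finrank L ↥(tw σ d U0 ⊓ tw σ (-d) U0) := by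
      rw [C.fr d (-d), show -d - d = -(2 * d) by ring]
    have k3 := Submodule.finrank_sup_add_finrank_inf_eq (tw σ 0 U0 ⊓ tw σ (2 * d) U0)
      (tw σ 0 U0 ⊓ tw σ (-(2 * d)) U0)
    have k4 : finrank L ↥((tw σ 0 U0 ⊓ tw σ (2 * d) U0) ⊔ (tw σ 0 U0 ⊓ tw σ (-(2 * d)) U0)) ≤ 3 := by
      rw [← C.dimU 0]
      exact Submodule.finrank_mono (sup_le inf_le_left inf_le_left)
    have k5 : finrank L ↥((tw σ 0 U0 ⊓ tw σ (2 * d) U0) ⊓ (tw σ 0 U0 ⊓ tw σ (-(2 * d)) U0)) ≤
        finrank L ↥(tw σ (2 * d) U0 ⊓ tw σ (-(2 * d)) U0) :=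
      Submodule.finrank_mono (inf_le_inf inf_le_right inf_le_right)
    rw [C.fr, four, h] at k5
    omega
  have h1 : finrank L ↥(tw σ d U0 ⊓ tw σ (-d) U0) = 1 := by omega
  set T := tw σ d U0 ⊔ tw σ (-d) U0 with hT
  have hT5 : finrank L T = 5 := by
    have := Submodule.finrank_sup_add_finrank_inf_eq (tw σ d U0) (tw σ (-d) U0)
    rw [h1, C.dimU, C.dimU, ← hT] at this
    omega
  by_cases hst : tw σ 1 T = T
  · exact C.final (show (1 : ZMod 5) ≠ 0 by decide) hz hz1 hz2 hst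
  · have hT' : tw σ 1 T = tw σ (1 + d) U0 ⊔ tw σ (1 + -d) U0 := by
      rw [hT, tw_sup C.h5, ← tw_add C.h5, ← tw_add C.h5]
    have hT'5 : finrank L (tw σ 1 T) = 5 := by rw [finrank_tw C.h5, hT5]
    have hAP' : tw σ 1 U0 ⊓ tw σ (1 + d) U0 = ⊥ := C.bot (by rwa [add_sub_cancel_left])
    have hAC' : tw σ 1 U0 ⊓ tw σ (1 + -d) U0 = ⊥ := by
      rw [inf_comm]
      exact C.bot (by rwa [show (1 : ZMod 5) - (1 + -d) = d by ring])
    obtain ⟨f, hf⟩ := T1 hB (C.dimU 0) (C.dimU d) (C.dimU (-d)) (C.isoU 0) (C.isoU d) (C.isoU (-d)) hAP hAC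
      hz hz1 hz2
    have hz' : act σ 1 z ≠ 0 := by
      intro h0
      have := congrArg (act σ (-1)) h0
      rw [← act_add C.h5, neg_add_cancel, act_zero, act_vzero] at this
      exact hz this
    have hz1' : act σ 1 z ∈ tw σ (1 + d) U0 := by rw [tw_add C.h5]; exact act_mem_tw C.h5 hz1
    have hz2' : act σ 1 z ∈ tw σ (1 + -d) U0 := by rw [tw_add C.h5]; exact act_mem_tw C.h5 hz2
    obtain ⟨f', hf'⟩ := T1 hB (C.dimU 1) (C.dimU (1 + d)) (C.dimU (1 + -d)) (C.isoU 1) (C.isoU (1 + d))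
      (C.isoU (1 + -d)) hAP' hAC' hz' hz1' hz2'
    rw [← hT] at hf
    rw [← hT'] at hf'
    have n1 : ¬ (⊤ : Submodule L (Fin 6 → L)) ≤ T := by
      intro hle
      have := Submodule.finrank_mono hle
      rw [finrank_top, hB.dim] at this
      omega
    have n2 : ¬ (⊤ : Submodule L (Fin 6 → L)) ≤ tw σ 1 T := by
      intro hle
      have := Submodule.finrank_mono hle
      rw [finrank_top, hB.dim] at this
      omega
    obtain ⟨v, -, hv, hv'⟩ := two_not_cover n1 n2
    obtain ⟨c, hc, e1, e2, e3⟩ := three f f' (ev (fam fun i => up L (A i)) v v)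
    exact hc (T2 hB hT5 hT'5 (fun h => hst h.symm) (hf c e1) (hf' c e2) hv hv' e3)

lemma c2 : ∀ a b : ZMod 5, a ≠ b → b ≠ 2 * a - b ∧ a ≠ 2 * a - b := by decide

/-- intersections have dimension one -/
lemma Ctx.dim1 [CharZero F] (C : Ctx σ A U0) {a b : ZMod 5} (hab : a ≠ b) :
    finrank L ↥(tw σ a U0 ⊓ tw σ b U0) = 1 := by
  have h1 : finrank L ↥(tw σ a U0 ⊓ tw σ b U0) ≠ 0 := by
    rw [C.fr]
    exact C.ne_bot (sub_ne_zero.2 hab.symm)
  have h2 : finrank L ↥(tw σ a U0 ⊓ tw σ b U0) ≤ 1 := by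
    by_contra hgt
    push Not at hgt
    have k2 : finrank L ↥(tw σ a U0 ⊓ tw σ (2 * a - b) U0) = finrank L ↥(tw σ a U0 ⊓ tw σ b U0) := by
      rw [inf_comm, C.fr, show a - (2 * a - b) = b - a by ring, ← C.fr]
    have k3 := Submodule.finrank_sup_add_finrank_inf_eq (tw σ a U0 ⊓ tw σ b U0)
      (tw σ a U0 ⊓ tw σ (2 * a - b) U0)
    have k4 : finrank L ↥((tw σ a U0 ⊓ tw σ b U0) ⊔ (tw σ a U0 ⊓ tw σ (2 * a - b) U0)) ≤ 3 := by
      rw [← C.dimU a]
      exact Submodule.finrank_mono (sup_le inf_le_left inf_le_left)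
    have k5 : (tw σ a U0 ⊓ tw σ b U0) ⊓ (tw σ a U0 ⊓ tw σ (2 * a - b) U0) ≠ ⊥ := by
      intro h
      rw [h, finrank_bot] at k3
      omega
    obtain ⟨z, ⟨⟨ha, hb⟩, ⟨_, hc⟩⟩, hz⟩ := Submodule.exists_mem_ne_zero_of_ne_bot k5
    obtain ⟨n1, n2⟩ := c2 a b hab
    exact hz (C.tri hab n1 n2 ha hb hc)
  omega

lemma Ctx.dim5 [CharZero F] (C : Ctx σ A U0) {a b : ZMod 5} (hab : a ≠ b) :
    finrank L ↥(tw σ a U0 ⊔ tw σ b U0) = 5 := by
  have := Submodule.finrank_sup_add_finrank_inf_eq (tw σ a U0) (tw σ b U0)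
  rw [C.dim1 hab, C.dimU, C.dimU] at this
  omega

/-- **(F)** -/
lemma Ctx.exists_le [CharZero F] (C : Ctx σ A U0) : ∃ i j k : ZMod 5, i ≠ j ∧ j ≠ k ∧ i ≠ k ∧
    tw σ k U0 ≤ tw σ i U0 ⊔ tw σ j U0 := by
  by_contra hcon
  push Not at hcon
  obtain ⟨c, hc, hc'⟩ := R0 C.hB (C.dimU 0) (C.dimU 1) (C.dimU 2) (C.isoU 0) (C.isoU 1) (C.isoU 2)
    (C.dim1 (by decide)) (C.dim1 (by decide)) (C.dim1 (by decide))
  have h := X0 C.hB hc (C.dim5 (a := 0) (b := 1) (by decide)) hc' (C.isoU 2) (C.isoU 3) (C.isoU 4)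
    (hcon 0 1 2 (by decide) (by decide) (by decide)) (hcon 0 1 3 (by decide) (by decide) (by decide))
    (hcon 0 1 4 (by decide) (by decide) (by decide)) (C.dim5 (by decide))
  exact hcon 2 3 4 (by decide) (by decide) (by decide) h

lemma c3 : ∀ i j k : ZMod 5, i ≠ j → j ≠ k → i ≠ k → ∃ c a b, c ≠ 0 ∧ a ≠ b ∧
    (a = i ∨ a = j ∨ a = k) ∧ (b = i ∨ b = j ∨ b = k) ∧ (c + a = i ∨ c + a = j ∨ c + a = k) ∧
    (c + b = i ∨ c + b = j ∨ c + b = k) := by decide

theorem Ctx.false [CharZero F] (C : Ctx σ A U0) : False := by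
  obtain ⟨i, j, k, hij, hjk, hik, hle⟩ := C.exists_le
  obtain ⟨c, a, b, hc, hab, h1, h2, h3, h4⟩ := c3 i j k hij hjk hik
  set W := tw σ i U0 ⊔ tw σ j U0 with hW
  have hW5 : finrank L W = 5 := C.dim5 hij
  have hall : ∀ l, (l = i ∨ l = j ∨ l = k) → tw σ l U0 ≤ W := by
    rintro l (rfl | rfl | rfl)
    · exact le_sup_left
    · exact le_sup_right
    · exact hle
  have e1 : tw σ a U0 ⊔ tw σ b U0 = W :=
    Submodule.eq_of_le_of_finrank_eq (sup_le (hall a h1) (hall b h2)) (by rw [C.dim5 hab, hW5])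
  have e2 : tw σ (c + a) U0 ⊔ tw σ (c + b) U0 = W :=
    Submodule.eq_of_le_of_finrank_eq (sup_le (hall _ h3) (hall _ h4))
      (by rw [C.dim5 (fun h => hab (add_left_cancel h)), hW5])
  have e3 : tw σ c W = W := by
    conv_lhs => rw [← e1]
    rw [tw_sup C.h5, ← tw_add C.h5, ← tw_add C.h5, e2]
  have hne : tw σ i U0 ⊓ tw σ j U0 ≠ ⊥ := by
    intro h
    have := C.dim1 hij
    rw [h, finrank_bot] at this
    omega
  obtain ⟨z, ⟨hz1, hz2⟩, hz⟩ := Submodule.exists_mem_ne_zero_of_ne_bot hne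
  exact C.final hc hz hz1 hz2 e3

end Sigma

end E3

/-! ## Module E3: file EndThree.lean -/

open E3 in
theorem endgame3 {F : Type} [Field F] [CharZero F]
    (A : Fin 4 → Matrix (Fin 6) (Fin 6) F)
    (hA : ∀ c : Fin 4 → F, (∀ x, ∑ i, c i * qv (A i) x = 0) → c = 0)
    (H0 : ∀ x : Fin 6 → F, (∀ i, qv (A i) x = 0) → x = 0)
    (h : Fin 3 → Fin 6 → F) (e : Fin 3 → Fin 6 → F)
    (hb : LinearIndependent F (Sum.elim h e))
    (hH : ∀ (K : Type) [Field K] [Algebra F K] (y : Fin 3 → K),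
      (∀ i, qv (up K (A i)) (fun b => ∑ j, y j * algebraMap F K (h j b)) = 0) → y = 0)
    (L : Type) [Field L] [Algebra F L] (σ : L ≃ₐ[F] L) (hσ5 : ∀ x, (σ^[5]) x = x)
    (hσ : ∀ x : L, σ x = x → ∃ a : F, algebraMap F L a = x) (hσ1 : ∃ x, σ x ≠ x)
    (φ : Fin 3 → Fin 3 → L)
    (hφ : ∀ (a : Fin 3 → L) (i : Fin 4), qv (up L (A i)) (fun b => ∑ t, a t *
      (algebraMap F L (e t b) + ∑ j, φ t j * algebraMap F L (h j b))) = 0) : False := by
  have h5 : σ ^ 5 = 1 := by
    ext x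
    exact hσ5 x
  set v : Fin 3 → Fin 6 → L := fun t b => algebraMap F L (e t b) + ∑ j, φ t j * algebraMap F L (h j b) with hv
  have hsum : ∀ a : Fin 3 → L, (∑ t, a t • v t) = fun b => ∑ t, a t *
      (algebraMap F L (e t b) + ∑ j, φ t j * algebraMap F L (h j b)) := by
    intro a
    funext b
    rw [Finset.sum_apply]
    rfl
  have hq : ∀ (i : Fin 4) (x : Fin 6 → L), x ∈ Submodule.span L (Set.range v) → qv (up L (A i)) x = 0 := by
    intro i x hx
    obtain ⟨a, rfl⟩ := (Submodule.mem_span_range_iff_exists_fun L).1 hx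
    rw [hsum]
    exact hφ a i
  have hli : LinearIndependent L v := by
    rw [Fintype.linearIndependent_iff]
    intro c hc
    by_contra hne
    push Not at hne
    obtain ⟨t0, ht0⟩ := hne
    obtain ⟨r, hr⟩ := exists_retr F L
    have hc' : ∀ b, ∑ t, c t / c t0 * (algebraMap F L (e t b) + ∑ j, φ t j * algebraMap F L (h j b)) = 0 := by
      intro b
      have h1 : ∑ t, c t * (algebraMap F L (e t b) + ∑ j, φ t j * algebraMap F L (h j b)) = 0 := by
        have h1 := congrFun hc b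
        rw [hsum] at h1
        exact h1
      have h2 : ∑ t, c t / c t0 * (algebraMap F L (e t b) + ∑ j, φ t j * algebraMap F L (h j b)) =
          (∑ t, c t * (algebraMap F L (e t b) + ∑ j, φ t j * algebraMap F L (h j b))) / c t0 := by
        rw [Finset.sum_div]
        exact Finset.sum_congr rfl fun t _ => by ring
      rw [h2, h1, zero_div]
    have h3 : ∑ i, (Sum.elim (fun j => r (∑ t, c t / c t0 * φ t j)) (fun t => r (c t / c t0)) i : F) •
        Sum.elim h e i = 0 := by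
      funext b
      have h4 := congrArg r (hc' b)
      rw [map_zero, map_sum] at h4
      simp only [mul_add, map_add, retr_mul, Finset.sum_add_distrib, Finset.mul_sum] at h4
      rw [Fintype.sum_sum_type, Pi.add_apply, Finset.sum_apply, Finset.sum_apply, Pi.zero_apply, ← h4, add_comm]
      simp only [Sum.elim_inl, Sum.elim_inr, Pi.smul_apply, smul_eq_mul]
      congr 1
      rw [Finset.sum_congr rfl fun j _ => by rw [map_sum, Finset.sum_mul], Finset.sum_comm]
      refine Finset.sum_congr rfl fun t _ => ?_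
      rw [map_sum]
      refine Finset.sum_congr rfl fun j _ => ?_
      rw [← mul_assoc, retr_mul]
    have h4 := Fintype.linearIndependent_iff.1 hb _ h3 (Sum.inr t0)
    simp only [Sum.elim_inr, div_self ht0, hr] at h4
    exact one_ne_zero h4
  have hLz : CharZero L := charZero_of_injective_algebraMap (algebraMap F L).injective
  have C : Ctx σ A (Submodule.span L (Set.range v)) := by
    refine ⟨h5, hσ, H0, ⟨?_, ?_, two_ne_zero, by simp⟩, ?_, ?_⟩
    · intro c x y
      rw [fam_apply, fam_apply]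
      exact Finset.sum_congr rfl fun i _ => by rw [pv_comm]
    · exact fun c hc => fam_inj A hA c hc
    · rw [finrank_span_eq_card hli]; rfl
    · intro i x hx y hy
      rw [pv_eq, hq i _ (Submodule.add_mem _ hx hy), hq i x hx, hq i y hy]
      simp
  exact C.false

end LP5
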