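import Pool.Agent.LP5.Defs

set_option linter.unusedSimpArgs false
set_option linter.unusedSectionVars false
set_option linter.unusedVariables false

/-! # LP5: good fields (section G of the blueprint): base field, rational function fields, finite
extensions, uniqueness, algebraicity, and the anisotropic system of 5 forms in 10 variables. -/

namespace LP5
open Polynomial

section Ring
variable {R : Type*} [CommRing R]

/-- the value `c_0 + c_1 τ + … + c_4 τ^4` -/
def ex (τ : R) (c : Fin 5 → R) : R :=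
  c 0 + c 1 * τ + c 2 * τ ^ 2 + c 3 * τ ^ 3 + c 4 * τ ^ 4

/-- coordinates of the square -/
def sqc (s : R) (c : Fin 5 → R) : Fin 5 → R :=
  ![c 0 ^ 2 + 2 * s * c 1 * c 4 + 2 * s * c 2 * c 3,
    2 * c 0 * c 1 + 2 * s * c 2 * c 4 + s * c 3 ^ 2,
    c 1 ^ 2 + 2 * c 0 * c 2 + 2 * s * c 3 * c 4,
    2 * c 0 * c 3 + 2 * c 1 * c 2 + s * c 4 ^ 2,
    c 2 ^ 2 + 2 * c 0 * c 4 + 2 * c 1 * c 3]

theorem ex_sq {s τ : R} (h : τ ^ 5 = s) (c : Fin 5 → R) : ex τ c ^ 2 = ex τ (sqc s c) := by
  subst h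
  simp only [ex, sqc, Matrix.cons_val]
  ring

end Ring

section Fld
variable {F : Type*} [Field F] {s : F}

theorem S16_iff (c : Fin 5 → F) : S16 s c = 0 ↔
    sqc s c 2 = 0 ∧ sqc s c 3 = 0 ∧ sqc s c 4 = 0 ∧ sqc s c 0 + sqc s c 1 = 0 := by
  constructor
  · intro h
    have h0 := congrFun h 0
    have h1 := congrFun h 1
    have h2 := congrFun h 2
    have h3 := congrFun h 3
    simp only [S16, Matrix.cons_val, Pi.zero_apply] at h0 h1 h2 h3
    simp only [sqc, Matrix.cons_val]
    exact ⟨h0, h1, h2, h3⟩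
  · rintro ⟨h0, h1, h2, h3⟩
    simp only [sqc, Matrix.cons_val] at h0 h1 h2 h3
    funext i
    fin_cases i <;> simp only [S16, Pi.zero_apply] <;> assumption

theorem ex_sq_of_S16 {τ : F} (h : τ ^ 5 = s) (c : Fin 5 → F) (hc : S16 s c = 0) :
    ex τ c ^ 2 = sqc s c 1 * (τ - 1) := by
  obtain ⟨h2, h3, h4, h0⟩ := (S16_iff c).1 hc
  rw [ex_sq h, ex, h2, h3, h4]
  linear_combination h0

variable {Ω : Type*} [Field Ω] [Algebra F Ω]

theorem irr (hs : ∀ r : F, r ^ 5 ≠ s) : Irreducible (X ^ 5 - C s : F[X]) :=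
  X_pow_sub_C_irreducible_of_prime (by norm_num) hs

theorem minpoly_tau (hs : ∀ r : F, r ^ 5 ≠ s) {τ : Ω} (hτ : τ ^ 5 = algebraMap F Ω s) :
    minpoly F τ = X ^ 5 - C s := by
  symm
  apply minpoly.eq_of_irreducible_of_monic (irr hs)
  · simp [hτ]
  · exact monic_X_pow_sub_C s (by norm_num)

/-- the conjugation principle -/
theorem conj (hs : ∀ r : F, r ^ 5 ≠ s) {τ : Ω} (hτ : τ ^ 5 = algebraMap F Ω s) (η : F)
    (hη : η ^ 5 = 1) (P : F[X]) (h : aeval τ P = 0) : aeval (algebraMap F Ω η * τ) P = 0 := by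
  have hd : X ^ 5 - C s ∣ P := by
    rw [← minpoly_tau hs hτ]
    exact minpoly.dvd F τ h
  obtain ⟨Q, rfl⟩ := hd
  rw [map_mul]
  have : aeval (algebraMap F Ω η * τ) (X ^ 5 - C s : F[X]) = 0 := by
    simp only [map_sub, map_pow, aeval_X, aeval_C, mul_pow, hτ]
    rw [← map_pow, hη]
    simp
  rw [this, zero_mul]

theorem ex_eq_zero (hs : ∀ r : F, r ^ 5 ≠ s) {τ : Ω} (hτ : τ ^ 5 = algebraMap F Ω s)
    (c : Fin 5 → F) (h : ex τ (upv Ω c) = 0) : c = 0 := by
  set P : F[X] := C (c 0) + C (c 1) * X + C (c 2) * X ^ 2 + C (c 3) * X ^ 3 + C (c 4) * X ^ 4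
    with hP
  have hPτ : aeval τ P = 0 := by
    rw [← h]
    simp [hP, ex, upv]
  have hd : X ^ 5 - C s ∣ P := by
    rw [← minpoly_tau hs hτ]
    exact minpoly.dvd F τ hPτ
  have hP0 : P = 0 := by
    by_contra hne
    have h1 := natDegree_le_of_dvd hd hne
    rw [natDegree_X_pow_sub_C] at h1
    have h2 : P.natDegree ≤ 4 := by
      rw [hP]
      compute_degree
    omega
  funext i
  have hk : ∀ k : ℕ, P.coeff k = 0 := fun k => by rw [hP0, coeff_zero]
  fin_cases i
  · simpa [hP, coeff_X, coeff_C, coeff_X_pow] using hk 0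
  · simpa [hP, coeff_X, coeff_C, coeff_X_pow] using hk 1
  · simpa [hP, coeff_X, coeff_C, coeff_X_pow] using hk 2
  · simpa [hP, coeff_X, coeff_C, coeff_X_pow] using hk 3
  · simpa [hP, coeff_X, coeff_C, coeff_X_pow] using hk 4

theorem exists_ex {τ : Ω} (hτ : τ ^ 5 = algebraMap F Ω s) (P : F[X]) :
    ∃ c : Fin 5 → F, aeval τ P = ex τ (upv Ω c) := by
  have key : ∀ n : ℕ, ∃ c : Fin 5 → F, τ ^ n = ex τ (upv Ω c) := by
    intro n
    induction n with
    | zero => exact ⟨![1, 0, 0, 0, 0], by simp [ex, upv]⟩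
    | succ n ih =>
      obtain ⟨c, hc⟩ := ih
      refine ⟨![s * c 4, c 0, c 1, c 2, c 3], ?_⟩
      rw [pow_succ, hc]
      simp only [ex, upv, Matrix.cons_val, map_mul]
      rw [← hτ]
      ring
  induction P using Polynomial.induction_on' with
  | add p q hp hq =>
    obtain ⟨c, hc⟩ := hp
    obtain ⟨d, hd⟩ := hq
    refine ⟨c + d, ?_⟩
    rw [map_add, hc, hd]
    simp only [ex, upv, Pi.add_apply, map_add]
    ring
  | monomial n a =>
    obtain ⟨c, hc⟩ := key n
    refine ⟨a • c, ?_⟩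
    rw [aeval_monomial, hc]
    simp only [ex, upv, Pi.smul_apply, smul_eq_mul, map_mul]
    ring





theorem ex_inj (hs : ∀ r : F, r ^ 5 ≠ s) {τ : Ω} (hτ : τ ^ 5 = algebraMap F Ω s)
    (c d : Fin 5 → F) (h : ex τ (upv Ω c) = ex τ (upv Ω d)) : c = d := by
  have : c - d = 0 := by
    apply ex_eq_zero hs hτ
    have e : ex τ (upv Ω (c - d)) = ex τ (upv Ω c) - ex τ (upv Ω d) := by
      simp only [ex, upv, Pi.sub_apply, map_sub]
      ring
    rw [e, h, sub_self]
  exact sub_eq_zero.1 this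

theorem sqc_map (c : Fin 5 → F) : upv Ω (sqc s c) = sqc (algebraMap F Ω s) (upv Ω c) := by
  have h2 : algebraMap F Ω 2 = 2 := map_ofNat _ 2
  funext i
  fin_cases i <;> simp [sqc, upv, h2]

/-- in a good field `(∑ c_k τ^k)^2 = λ (η τ - 1)` forces `c = 0` -/
theorem Good.sq_lin (hg : Good s) {τ : Ω} (hτ : τ ^ 5 = algebraMap F Ω s) (η l : F)
    (hη : η ^ 5 = 1) (c : Fin 5 → F)
    (h : ex τ (upv Ω c) ^ 2 = algebraMap F Ω l * (algebraMap F Ω η * τ - 1)) : c = 0 := by
  have h1 : sqc s c = ![-l, l * η, 0, 0, 0] := by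
    apply ex_inj hg.1 hτ
    rw [sqc_map, ← ex_sq hτ, h]
    simp only [ex, upv, Matrix.cons_val, map_neg, map_mul, map_zero]
    ring
  have hη0 : η ≠ 0 := by
    rintro rfl
    simp at hη
  have e0 := congrFun h1 0
  have e1 := congrFun h1 1
  have e2 := congrFun h1 2
  have e3 := congrFun h1 3
  have e4 := congrFun h1 4
  simp only [sqc, Matrix.cons_val] at e0 e1 e2 e3 e4
  have h20 : η ^ 20 = 1 := by
    rw [show 20 = 5 * 4 from rfl, pow_mul, hη, one_pow]
  have hc' : (fun j : Fin 5 => c j * (η ^ 4) ^ (j : ℕ)) = 0 := by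
    apply hg.2
    rw [S16_iff]
    simp only [sqc, Matrix.cons_val]
    have t0 : (((0 : Fin 5) : ℕ)) = 0 := rfl
    have t1 : (((1 : Fin 5) : ℕ)) = 1 := rfl
    have t2 : (((2 : Fin 5) : ℕ)) = 2 := rfl
    have t3 : (((3 : Fin 5) : ℕ)) = 3 := rfl
    have t4 : (((4 : Fin 5) : ℕ)) = 4 := rfl
    simp only [t0, t1, t2, t3, t4]
    refine ⟨?_, ?_, ?_, ?_⟩
    · linear_combination η ^ 8 * e2 + 2 * s * c 3 * c 4 * η ^ 8 * h20
    · linear_combination η ^ 12 * e3 + s * c 4 ^ 2 * η ^ 12 * h20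
    · linear_combination η ^ 16 * e4
    · linear_combination e0 + η ^ 4 * e1 + (2 * s * c 1 * c 4 + 2 * s * c 2 * c 3) * h20 +
        (2 * s * c 2 * c 4 + s * c 3 ^ 2) * η ^ 4 * h20 + l * hη
  funext j
  have hj := congrFun hc' j
  simp only [Pi.zero_apply, mul_eq_zero] at hj
  rcases hj with hj | hj
  · exact hj
  · exact absurd hj (pow_ne_zero _ (pow_ne_zero _ hη0))

theorem s_ne_zero (hs : ∀ r : F, r ^ 5 ≠ s) : s ≠ 0 := fun h => hs 0 (by simp [h])
theorem s_ne_one (hs : ∀ r : F, r ^ 5 ≠ s) : s ≠ 1 := fun h => hs 1 (by simp [h])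

theorem lin_ne_zero (hs : ∀ r : F, r ^ 5 ≠ s) {τ : Ω} (hτ : τ ^ 5 = algebraMap F Ω s) (η : F)
    (hη : η ^ 5 = 1) : algebraMap F Ω η * τ - 1 ≠ 0 := by
  intro h
  have h1 : algebraMap F Ω η * τ = 1 := sub_eq_zero.1 h
  have h2 : (algebraMap F Ω η * τ) ^ 5 = 1 := by rw [h1, one_pow]
  rw [mul_pow, hτ, ← map_pow, hη, map_one, one_mul] at h2
  apply s_ne_one hs
  apply (algebraMap F Ω).injective
  rw [h2, map_one]

theorem tau_ne_zero (hs : ∀ r : F, r ^ 5 ≠ s) {τ : Ω} (hτ : τ ^ 5 = algebraMap F Ω s) :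
    τ ≠ 0 := by
  rintro rfl
  apply s_ne_zero hs
  apply (algebraMap F Ω).injective
  rw [← hτ]
  simp

theorem prod5 {R : Type*} [CommRing R] (θ u : R) (hθ : 1 + θ + θ ^ 2 + θ ^ 3 + θ ^ 4 = 0) :
    (u - 1) * (θ * u - 1) * (θ ^ 2 * u - 1) * (θ ^ 3 * u - 1) * (θ ^ 4 * u - 1) = u ^ 5 - 1 := by
  linear_combination (u - u ^ 5 - θ * u ^ 2 + θ * u ^ 5 - θ ^ 3 * u ^ 2 + θ ^ 3 * u ^ 3 +
    θ ^ 5 * u ^ 3 - θ ^ 5 * u ^ 5 - θ ^ 6 * u ^ 4 + θ ^ 6 * u ^ 5) * hθ

/-- no product of four of the `p_i` is a square in `F(τ)` -/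
theorem Good.quad (hg : Good s) {τ : Ω} (hτ : τ ^ 5 = algebraMap F Ω s) (η θ : F)
    (hη : η ^ 5 = 1) (hθ : 1 + θ + θ ^ 2 + θ ^ 3 + θ ^ 4 = 0) (P : F[X])
    (h : aeval τ P ^ 2 = (algebraMap F Ω η * τ - 1) * (algebraMap F Ω (η * θ) * τ - 1) *
      (algebraMap F Ω (η * θ ^ 2) * τ - 1) * (algebraMap F Ω (η * θ ^ 3) * τ - 1)) : False := by
  have hθ5 : θ ^ 5 = 1 := by linear_combination (θ - 1) * hθ
  have hη4 : (η * θ ^ 4) ^ 5 = 1 := by
    rw [mul_pow, hη, ← pow_mul, show 4 * 5 = 5 * 4 from rfl, pow_mul, hθ5]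
    simp
  obtain ⟨c, hc⟩ := exists_ex hτ (P * (C (η * θ ^ 4) * X - 1))
  have hprod := prod5 (algebraMap F Ω θ) (algebraMap F Ω η * τ) (by
    simp only [← map_pow]
    rw [← map_one (algebraMap F Ω)]
    simp only [← map_add]
    rw [hθ, map_zero])
  have hu : (algebraMap F Ω η * τ) ^ 5 = algebraMap F Ω s := by
    rw [mul_pow, hτ, ← map_pow, hη, map_one, one_mul]
  have hc0 : c = 0 := by
    apply hg.sq_lin hτ (η * θ ^ 4) (s - 1) hη4
    rw [← hc]
    simp only [map_mul, map_sub, map_one, aeval_X, aeval_C, map_pow] at h hprod ⊢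
    rw [mul_pow, h]
    linear_combination (algebraMap F Ω η * algebraMap F Ω θ ^ 4 * τ - 1) * hprod +
      (algebraMap F Ω η * algebraMap F Ω θ ^ 4 * τ - 1) * hu
  have hz : aeval τ (P * (C (η * θ ^ 4) * X - 1)) = 0 := by
    rw [hc, hc0]
    simp [ex, upv]
  have hl := lin_ne_zero hg.1 hτ _ hη4
  rw [map_mul] at hz
  have hP : aeval τ P = 0 := by
    rcases mul_eq_zero.1 hz with h1 | h1
    · exact h1
    · exfalso
      apply hl
      simpa using h1
  rw [hP] at h
  have hne : ∀ k : ℕ, algebraMap F Ω (η * θ ^ k) * τ - 1 ≠ 0 := by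
    intro k
    apply lin_ne_zero hg.1 hτ
    rw [mul_pow, hη, ← pow_mul, mul_comm k 5, pow_mul, hθ5]
    simp
  have h0 := hne 0
  have h1 := hne 1
  have h2 := hne 2
  have h3 := hne 3
  rw [pow_zero, mul_one] at h0
  rw [pow_one] at h1
  have := mul_ne_zero (mul_ne_zero (mul_ne_zero h0 h1) h2) h3
  apply this
  rw [← h]
  simp

/-- no product of two of the `p_i` is a square in `F(τ)` -/
theorem Good.pair (hg : Good s) {τ : Ω} (hτ : τ ^ 5 = algebraMap F Ω s) (η θ : F)
    (hη : η ^ 5 = 1) (hθ : 1 + θ + θ ^ 2 + θ ^ 3 + θ ^ 4 = 0) (P : F[X])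
    (h : aeval τ P ^ 2 = (algebraMap F Ω η * τ - 1) * (algebraMap F Ω (η * θ) * τ - 1)) :
    False := by
  have hθ5 : θ ^ 5 = 1 := by linear_combination (θ - 1) * hθ
  have hθ2 : (θ ^ 2) ^ 5 = 1 := by rw [← pow_mul, mul_comm, pow_mul, hθ5, one_pow]
  have h2 := conj hg.1 hτ (θ ^ 2) hθ2 (P ^ 2 - (C η * X - 1) * (C (η * θ) * X - 1)) (by
    simp only [map_sub, map_mul, map_pow, aeval_X, aeval_C, map_one] at h ⊢
    rw [h]
    ring)
  apply hg.quad hτ η θ hη hθ (P * P.comp (C (θ ^ 2) * X))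
  simp only [map_sub, map_mul, map_pow, aeval_X, aeval_C, map_one] at h h2
  simp only [map_mul, aeval_comp, aeval_X, aeval_C, map_pow]
  linear_combination (aeval (algebraMap F Ω θ ^ 2 * τ) P) ^ 2 * h +
    (algebraMap F Ω η * τ - 1) * (algebraMap F Ω η * algebraMap F Ω θ * τ - 1) * h2

end Fld

section Quad
variable {A Ω : Type*} [Field A] [Field Ω] [Algebra A Ω]

theorem quad_minpoly {w : Ω} {a : A} (hw : w ^ 2 = algebraMap A Ω a)
    (hn : w ∉ (algebraMap A Ω).range) : minpoly A w = X ^ 2 - C a := by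
  have hm : (X ^ 2 - C a : A[X]).Monic := monic_X_pow_sub_C a (by norm_num)
  have h0 : aeval w (X ^ 2 - C a : A[X]) = 0 := by simp [hw]
  have hint : IsIntegral A w := ⟨_, hm, h0⟩
  have hd : minpoly A w ∣ X ^ 2 - C a := minpoly.dvd A w h0
  have h2 : 2 ≤ (minpoly A w).natDegree := (minpoly.two_le_natDegree_iff hint).2 hn
  refine (eq_of_monic_of_dvd_of_natDegree_le (minpoly.monic hint) hm hd ?_).symm
  rw [natDegree_X_pow_sub_C]
  exact h2

theorem quad_repr {w : Ω} {a : A} (hw : w ^ 2 = algebraMap A Ω a)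
    (y : Ω) (hy : y ∈ IntermediateField.adjoin A {w}) :
    ∃ u v : A, y = algebraMap A Ω u + algebraMap A Ω v * w := by
  have hm : (X ^ 2 - C a : A[X]).Monic := monic_X_pow_sub_C a (by norm_num)
  have h0 : aeval w (X ^ 2 - C a : A[X]) = 0 := by simp [hw]
  have hint : IsIntegral A w := ⟨_, hm, h0⟩
  have hy' : y ∈ (IntermediateField.adjoin A {w}).toSubalgebra := hy
  rw [IntermediateField.adjoin_simple_toSubalgebra_of_isAlgebraic hint.isAlgebraic,
    Algebra.adjoin_singleton_eq_range_aeval] at hy'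
  obtain ⟨P, rfl⟩ := hy'
  have key : ∀ P : A[X], ∃ u v : A, aeval w P = algebraMap A Ω u + algebraMap A Ω v * w := by
    intro P
    have kn : ∀ n : ℕ, ∃ u v : A, w ^ n = algebraMap A Ω u + algebraMap A Ω v * w := by
      intro n
      induction n with
      | zero => exact ⟨1, 0, by simp⟩
      | succ n ih =>
        obtain ⟨u, v, h⟩ := ih
        refine ⟨v * a, u, ?_⟩
        rw [pow_succ, h, map_mul, ← hw]
        ring
    induction P using Polynomial.induction_on' with
    | add p q hp hq =>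
      obtain ⟨u, v, h⟩ := hp
      obtain ⟨u', v', h'⟩ := hq
      refine ⟨u + u', v + v', ?_⟩
      rw [map_add, h, h', map_add, map_add]
      ring
    | monomial n b =>
      obtain ⟨u, v, h⟩ := kn n
      refine ⟨b * u, b * v, ?_⟩
      rw [aeval_monomial, h, map_mul, map_mul]
      ring
  exact key P

theorem quad_finrank {w : Ω} {a : A} (hw : w ^ 2 = algebraMap A Ω a)
    (hn : w ∉ (algebraMap A Ω).range) : Module.finrank A (IntermediateField.adjoin A {w}) = 2 := by
  have hm : (X ^ 2 - C a : A[X]).Monic := monic_X_pow_sub_C a (by norm_num)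
  have h0 : aeval w (X ^ 2 - C a : A[X]) = 0 := by simp [hw]
  have hint : IsIntegral A w := ⟨_, hm, h0⟩
  rw [IntermediateField.adjoin.finrank hint, quad_minpoly hw hn, natDegree_X_pow_sub_C]

end Quad

theorem kummer {E Ω : Type*} [Field E] [Field Ω] [Algebra E Ω] (h2 : (2 : E) ≠ 0) {n : ℕ}
    (w : Fin n → Ω) (a : Fin n → E) (hw : ∀ i, w i ^ 2 = algebraMap E Ω (a i))
    (ha : ∀ S : Finset (Fin n), S.Nonempty → ∀ b : E, b ^ 2 ≠ ∏ i ∈ S, a i)
    (T : Finset (Fin n)) :
    Module.finrank E (IntermediateField.adjoin E (w '' T)) = 2 ^ T.card ∧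
    ∀ y ∈ IntermediateField.adjoin E (w '' T), (∃ e : E, y ^ 2 = algebraMap E Ω e) →
      ∃ S ⊆ T, ∃ e : E, y = algebraMap E Ω e * ∏ i ∈ S, w i := by
  classical
  induction T using Finset.induction_on with
  | empty =>
    constructor
    · simp
    · intro y hy _
      simp only [Finset.coe_empty, Set.image_empty, IntermediateField.adjoin_empty,
        IntermediateField.mem_bot] at hy
      obtain ⟨e, rfl⟩ := hy
      exact ⟨∅, Finset.Subset.refl _, e, by simp⟩
  | insert j T hj ih =>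
    obtain ⟨hfin, hrep⟩ := ih
    set A := IntermediateField.adjoin E (w '' T) with hA
    have hjA : w j ∉ A := by
      intro hmem
      obtain ⟨S, hS, e, he⟩ := hrep (w j) hmem ⟨a j, hw j⟩
      have hjS : j ∉ S := fun h => hj (hS h)
      apply ha (insert j S) (Finset.insert_nonempty _ _) (e * ∏ i ∈ S, a i)
      apply (algebraMap E Ω).injective
      rw [Finset.prod_insert hjS, map_mul, map_pow, map_mul, map_prod, ← hw j]
      have : ∀ i, algebraMap E Ω (a i) = w i ^ 2 := fun i => (hw i).symm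
      simp only [this]
      rw [he, Finset.prod_pow]
      ring
    have hins : (w '' (↑(insert j T) : Set (Fin n))) = w '' T ∪ {w j} := by
      rw [Finset.coe_insert, Set.image_insert_eq, Set.union_singleton]
    have hrs : (IntermediateField.adjoin A {w j}).restrictScalars E =
        IntermediateField.adjoin E (w '' (↑(insert j T) : Set (Fin n))) := by
      rw [hins, ← IntermediateField.adjoin_adjoin_left]
    have hwA : w j ^ 2 = algebraMap A Ω (algebraMap E A (a j)) := by
      rw [hw j]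
      rfl
    have hnr : w j ∉ (algebraMap A Ω).range := by
      rintro ⟨x, hx⟩
      apply hjA
      rw [← hx]
      exact x.2
    constructor
    · rw [← hrs, Finset.card_insert_of_notMem hj, pow_succ, ← hfin,
        ← quad_finrank hwA hnr]
      exact (Module.finrank_mul_finrank E A (IntermediateField.adjoin A {w j})).symm
    · intro y hy hye
      rw [← hrs] at hy
      obtain ⟨u, v, huv⟩ := quad_repr hwA y hy
      obtain ⟨e, he⟩ := hye
      have hcross : 2 * (algebraMap A Ω u * algebraMap A Ω v) * w j ∈ A := by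
        have : 2 * (algebraMap A Ω u * algebraMap A Ω v) * w j =
            algebraMap E Ω e - algebraMap A Ω u ^ 2 -
              algebraMap A Ω v ^ 2 * algebraMap E Ω (a j) := by
          rw [← he, huv, ← hw j]
          ring
        rw [this]
        exact A.sub_mem (A.sub_mem (A.algebraMap_mem e) (pow_mem u.2 2))
          (A.mul_mem (pow_mem v.2 2) (A.algebraMap_mem _))
      have huv0 : algebraMap A Ω u * algebraMap A Ω v = 0 := by
        by_contra hne
        apply hjA
        have h2' : (2 : Ω) ≠ 0 := by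
          intro h
          apply h2
          apply (algebraMap E Ω).injective
          rw [map_ofNat, map_zero, h]
        have hc : 2 * (algebraMap A Ω u * algebraMap A Ω v) ≠ 0 := mul_ne_zero h2' hne
        have hcA : 2 * (algebraMap A Ω u * algebraMap A Ω v) ∈ A :=
          A.mul_mem (by simp) (A.mul_mem u.2 v.2)
        have : w j = (2 * (algebraMap A Ω u * algebraMap A Ω v))⁻¹ *
            (2 * (algebraMap A Ω u * algebraMap A Ω v) * w j) := by
          rw [← mul_assoc, inv_mul_cancel₀ hc, one_mul]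
        rw [this]
        exact A.mul_mem (A.inv_mem hcA) hcross
      rcases mul_eq_zero.1 huv0 with hu | hv
      · -- y = v w_j
        have hy1 : y = algebraMap A Ω v * w j := by rw [huv, hu, zero_add]
        have hwj0 : algebraMap E Ω (a j) ≠ 0 := by
          intro h
          apply hjA
          have : w j = 0 := by
            have := hw j
            rw [h] at this
            exact pow_eq_zero_iff (two_ne_zero) |>.1 this
          rw [this]
          exact A.zero_mem
        obtain ⟨S, hS, e', he'⟩ := hrep (algebraMap A Ω v) v.2 ⟨e / a j, by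
          rw [map_div₀, ← he, hy1, mul_pow, hw j]
          field_simp⟩
        have hjS : j ∉ S := fun h => hj (hS h)
        refine ⟨insert j S, Finset.insert_subset_insert j hS, e', ?_⟩
        rw [Finset.prod_insert hjS, hy1, he']
        ring
      · have hy1 : y = algebraMap A Ω u := by rw [huv, hv]; simp
        obtain ⟨S, hS, e', he'⟩ := hrep (algebraMap A Ω u) u.2 ⟨e, by rw [← he, hy1]⟩
        exact ⟨S, hS.trans (Finset.subset_insert j T), e', by rw [hy1, he']⟩



section Sixteen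
variable {F : Type*} [Field F] [CharZero F] {ζ s : F}

theorem geom5 (hζ : IsPrimitiveRoot ζ 5) (k : ℕ) (h0 : 0 < k) (h5 : k < 5) :
    1 + ζ ^ k + (ζ ^ k) ^ 2 + (ζ ^ k) ^ 3 + (ζ ^ k) ^ 4 = 0 := by
  have hp : IsPrimitiveRoot (ζ ^ k) 5 := by
    apply hζ.pow_of_coprime
    have : Nat.Prime 5 := by norm_num
    exact (Nat.coprime_comm.1 ((Nat.Prime.coprime_iff_not_dvd this).2 (Nat.not_dvd_of_pos_of_lt h0 h5)))
  have := hp.geom_sum_eq_zero (by norm_num)
  simp only [Finset.sum_range_succ, Finset.sum_range_zero, zero_add, pow_zero, pow_one] at this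
  linear_combination this

variable {Ω : Type*} [Field Ω] [Algebra F Ω]

theorem Good.pair' (hζ : IsPrimitiveRoot ζ 5) (hg : Good s) {τ : Ω}
    (hτ : τ ^ 5 = algebraMap F Ω s) (a b : ℕ) (hab : a < b) (hb : b < 5) (P : F[X]) :
    aeval τ P ^ 2 ≠ (algebraMap F Ω (ζ ^ a) * τ - 1) * (algebraMap F Ω (ζ ^ b) * τ - 1) := by
  intro h
  apply hg.pair hτ (ζ ^ a) (ζ ^ (b - a)) _ (geom5 hζ (b - a) (by omega) (by omega)) P
  · rw [h, ← pow_add, show a + (b - a) = b by omega]
  · rw [← pow_mul, mul_comm, pow_mul, hζ.pow_eq_one, one_pow]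

theorem Good.quad' (hζ : IsPrimitiveRoot ζ 5) (hg : Good s) {τ : Ω}
    (hτ : τ ^ 5 = algebraMap F Ω s) (m : ℕ) (P : F[X]) :
    aeval τ P ^ 2 ≠ (algebraMap F Ω (ζ ^ (m + 1)) * τ - 1) * (algebraMap F Ω (ζ ^ (m + 2)) * τ - 1)
      * (algebraMap F Ω (ζ ^ (m + 3)) * τ - 1) * (algebraMap F Ω (ζ ^ (m + 4)) * τ - 1) := by
  intro h
  have hg5 := geom5 hζ 1 (by norm_num) (by norm_num)
  rw [pow_one] at hg5
  apply hg.quad hτ (ζ ^ (m + 1)) ζ _ hg5 P
  · rw [h]
    congr 1 
    · congr 1
      · congr 1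
        rw [← pow_succ]
      · rw [← pow_add]
    · rw [← pow_add]
  · rw [← pow_mul, mul_comm, pow_mul, hζ.pow_eq_one, one_pow]

theorem no_square (hζ : IsPrimitiveRoot ζ 5) (hg : Good s) {τ : Ω}
    (hτ : τ ^ 5 = algebraMap F Ω s) (S : Finset (Fin 4)) (hS : S.Nonempty) (P : F[X])
    (h : aeval τ P ^ 2 * (τ - 1) ^ S.card =
      ∏ i ∈ S, (algebraMap F Ω (ζ ^ ((i : ℕ) + 1)) * τ - 1)) : False := by
  have h5 : ζ ^ 5 = 1 := hζ.pow_eq_one
  have h6 : ζ ^ 6 = ζ := by rw [pow_succ, h5, one_mul]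
  have h7 : ζ ^ 7 = ζ ^ 2 := by rw [pow_succ, h6, sq]
  have h8 : ζ ^ 8 = ζ ^ 3 := by rw [pow_succ, h7]; ring
  have p := fun a b hab hb => hg.pair' (ζ := ζ) hζ hτ a b hab hb
  have q := fun m => hg.quad' (ζ := ζ) hζ hτ m
  have hcases : S = ∅ ∨ S = {0} ∨ S = {1} ∨ S = {2} ∨ S = {3} ∨ S = {0, 1} ∨ S = {0, 2} ∨
      S = {0, 3} ∨ S = {1, 2} ∨ S = {1, 3} ∨ S = {2, 3} ∨ S = {1, 2, 3} ∨ S = {0, 2, 3} ∨
      S = {0, 1, 3} ∨ S = {0, 1, 2} ∨ S = {0, 1, 2, 3} := by
    clear h hS
    revert S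
    decide
  have e0 : (((0 : Fin 4) : ℕ)) = 0 := rfl
  have e1 : (((1 : Fin 4) : ℕ)) = 1 := rfl
  have e2 : (((2 : Fin 4) : ℕ)) = 2 := rfl
  have e3 : (((3 : Fin 4) : ℕ)) = 3 := rfl
  have c2 : ∀ a b : Fin 4, a ≠ b → ({a, b} : Finset (Fin 4)).card = 2 := fun a b hab =>
    Finset.card_pair hab
  rcases hcases with h' | h' | h' | h' | h' | h' | h' | h' | h' | h' | h' | h' | h' | h' | h' | h'
  · rw [h'] at hS
    exact absurd hS (by simp)
  · subst h'
    simp only [Finset.card_singleton, Finset.prod_singleton, Fin.isValue, Fin.val_zero] at h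
    apply p 0 1 (by norm_num) (by norm_num) (P * (X - 1))
    simp only [map_mul, map_sub, aeval_X, map_one, mul_pow, pow_zero]
    linear_combination (τ - 1) * h
  · subst h'
    simp only [Finset.card_singleton, Finset.prod_singleton, Fin.isValue, Fin.val_one] at h
    apply p 0 2 (by norm_num) (by norm_num) (P * (X - 1))
    simp only [map_mul, map_sub, aeval_X, map_one, mul_pow, pow_zero]
    linear_combination (τ - 1) * h
  · subst h'
    have e : (((2 : Fin 4) : ℕ)) = 2 := rfl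
    simp only [Finset.card_singleton, Finset.prod_singleton, e] at h
    apply p 0 3 (by norm_num) (by norm_num) (P * (X - 1))
    simp only [map_mul, map_sub, aeval_X, map_one, mul_pow, pow_zero]
    linear_combination (τ - 1) * h
  · subst h'
    have e : (((3 : Fin 4) : ℕ)) = 3 := rfl
    simp only [Finset.card_singleton, Finset.prod_singleton, e] at h
    apply p 0 4 (by norm_num) (by norm_num) (P * (X - 1))
    simp only [map_mul, map_sub, aeval_X, map_one, mul_pow, pow_zero]
    linear_combination (τ - 1) * h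
  · subst h'
    rw [c2 _ _ (by decide), Finset.prod_pair (by decide)] at h
    simp only [e0, e1, e2, e3, Nat.reduceAdd] at h
    apply p 1 2 (by norm_num) (by norm_num) (P * (X - 1))
    simp only [map_mul, map_sub, aeval_X, map_one, mul_pow]
    linear_combination h
  · subst h'
    rw [c2 _ _ (by decide), Finset.prod_pair (by decide)] at h
    simp only [e0, e1, e2, e3, Nat.reduceAdd] at h
    apply p 1 3 (by norm_num) (by norm_num) (P * (X - 1))
    simp only [map_mul, map_sub, aeval_X, map_one, mul_pow]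
    linear_combination h
  · subst h'
    rw [c2 _ _ (by decide), Finset.prod_pair (by decide)] at h
    simp only [e0, e1, e2, e3, Nat.reduceAdd] at h
    apply p 1 4 (by norm_num) (by norm_num) (P * (X - 1))
    simp only [map_mul, map_sub, aeval_X, map_one, mul_pow]
    linear_combination h
  · subst h'
    rw [c2 _ _ (by decide), Finset.prod_pair (by decide)] at h
    simp only [e0, e1, e2, e3, Nat.reduceAdd] at h
    apply p 2 3 (by norm_num) (by norm_num) (P * (X - 1))
    simp only [map_mul, map_sub, aeval_X, map_one, mul_pow]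
    linear_combination h
  · subst h'
    rw [c2 _ _ (by decide), Finset.prod_pair (by decide)] at h
    simp only [e0, e1, e2, e3, Nat.reduceAdd] at h
    apply p 2 4 (by norm_num) (by norm_num) (P * (X - 1))
    simp only [map_mul, map_sub, aeval_X, map_one, mul_pow]
    linear_combination h
  · subst h'
    rw [c2 _ _ (by decide), Finset.prod_pair (by decide)] at h
    simp only [e0, e1, e2, e3, Nat.reduceAdd] at h
    apply p 3 4 (by norm_num) (by norm_num) (P * (X - 1))
    simp only [map_mul, map_sub, aeval_X, map_one, mul_pow]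
    linear_combination h
  · subst h'
    rw [show (({1, 2, 3} : Finset (Fin 4)).card) = 3 by decide,
      Finset.prod_insert (by decide), Finset.prod_pair (by decide)] at h
    simp only [e0, e1, e2, e3, Nat.reduceAdd] at h
    apply q 1 (P * (X - 1) ^ 2)
    simp only [map_mul, map_sub, aeval_X, map_one, mul_pow, map_pow, Nat.reduceAdd, h5, h6, h7, h8] at h ⊢
    linear_combination (τ - 1) * h
  · subst h'
    rw [show (({0, 2, 3} : Finset (Fin 4)).card) = 3 by decide,
      Finset.prod_insert (by decide), Finset.prod_pair (by decide)] at h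
    simp only [e0, e1, e2, e3, Nat.reduceAdd] at h
    apply q 2 (P * (X - 1) ^ 2)
    simp only [map_mul, map_sub, aeval_X, map_one, mul_pow, map_pow, Nat.reduceAdd, h5, h6, h7, h8] at h ⊢
    linear_combination (τ - 1) * h
  · subst h'
    rw [show (({0, 1, 3} : Finset (Fin 4)).card) = 3 by decide,
      Finset.prod_insert (by decide), Finset.prod_pair (by decide)] at h
    simp only [e0, e1, e2, e3, Nat.reduceAdd] at h
    apply q 3 (P * (X - 1) ^ 2)
    simp only [map_mul, map_sub, aeval_X, map_one, mul_pow, map_pow, Nat.reduceAdd, h5, h6, h7, h8] at h ⊢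
    linear_combination (τ - 1) * h
  · subst h'
    rw [show (({0, 1, 2} : Finset (Fin 4)).card) = 3 by decide,
      Finset.prod_insert (by decide), Finset.prod_pair (by decide)] at h
    simp only [e0, e1, e2, e3, Nat.reduceAdd] at h
    apply q 4 (P * (X - 1) ^ 2)
    simp only [map_mul, map_sub, aeval_X, map_one, mul_pow, map_pow, Nat.reduceAdd, h5, h6, h7, h8] at h ⊢
    linear_combination (τ - 1) * h
  · subst h'
    rw [show (({0, 1, 2, 3} : Finset (Fin 4)).card) = 4 by decide,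
      Finset.prod_insert (by decide), Finset.prod_insert (by decide),
      Finset.prod_pair (by decide)] at h
    simp only [e0, e1, e2, e3, Nat.reduceAdd] at h
    apply q 0 (P * (X - 1) ^ 2)
    simp only [map_mul, map_sub, aeval_X, map_one, mul_pow, map_pow, Nat.reduceAdd] at h ⊢
    linear_combination h


omit [CharZero F] in
theorem mem_adjoin_iff {τ : Ω} (hτ : τ ^ 5 = algebraMap F Ω s) (y : Ω)
    (hy : y ∈ IntermediateField.adjoin F {τ}) : ∃ P : F[X], aeval τ P = y := by
  have h0 : aeval τ (X ^ 5 - C s : F[X]) = 0 := by simp [hτ]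
  have hint : IsIntegral F τ := ⟨_, monic_X_pow_sub_C s (by norm_num), h0⟩
  have hy' : y ∈ (IntermediateField.adjoin F {τ}).toSubalgebra := hy
  rw [IntermediateField.adjoin_simple_toSubalgebra_of_isAlgebraic hint.isAlgebraic,
    Algebra.adjoin_singleton_eq_range_aeval] at hy'
  exact hy'

omit [CharZero F] in
theorem finrank_tau (hs : ∀ r : F, r ^ 5 ≠ s) {τ : Ω} (hτ : τ ^ 5 = algebraMap F Ω s) :
    Module.finrank F (IntermediateField.adjoin F {τ}) = 5 := by
  have h0 : aeval τ (X ^ 5 - C s : F[X]) = 0 := by simp [hτ]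
  have hint : IsIntegral F τ := ⟨_, monic_X_pow_sub_C s (by norm_num), h0⟩
  rw [IntermediateField.adjoin.finrank hint, minpoly_tau hs hτ, natDegree_X_pow_sub_C]

theorem S16_map {K L : Type*} [Field K] [Field L] [Algebra K L] {t : K} (c : Fin 5 → K)
    (hc : S16 t c = 0) : S16 (algebraMap K L t) (upv L c) = 0 := by
  obtain ⟨h2, h3, h4, h0⟩ := (S16_iff c).1 hc
  rw [S16_iff, ← sqc_map]
  refine ⟨?_, ?_, ?_, ?_⟩
  · simp only [upv, h2, map_zero]
  · simp only [upv, h3, map_zero]
  · simp only [upv, h4, map_zero]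
  · simp only [upv, ← map_add, h0, map_zero]

theorem sixteen_dvd {K : Type*} [Field K] [Algebra F K] [FiniteDimensional F K]
    (hζ : IsPrimitiveRoot ζ 5) (hg : Good s) (hs : ∀ r : K, r ^ 5 ≠ algebraMap F K s)
    (c : Fin 5 → K) (hc : S16 (algebraMap F K s) c = 0) (hc0 : c ≠ 0) :
    16 ∣ Module.finrank F K := by
  classical
  set Ω := AlgebraicClosure K
  obtain ⟨τ, hτ⟩ := IsAlgClosed.exists_pow_nat_eq (algebraMap F Ω s) (show 0 < 5 by norm_num)
  have hτK : τ ^ 5 = algebraMap K Ω (algebraMap F K s) := by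
    rw [hτ]
    exact IsScalarTower.algebraMap_apply F K Ω s
  have hη : ∀ k : ℕ, (ζ ^ k) ^ 5 = 1 := fun k => by
    rw [← pow_mul, mul_comm, pow_mul, hζ.pow_eq_one, one_pow]
  -- the elements `x_i`
  let t : ℕ → Ω := fun k => algebraMap F Ω (ζ ^ k) * τ
  have ht5 : ∀ k, t k ^ 5 = algebraMap F Ω s := fun k => by
    simp only [t]
    rw [mul_pow, hτ, ← map_pow, hη, map_one, one_mul]
  let x : ℕ → Ω := fun k => ex (t k) (upv Ω c)
  have hSΩ : S16 (algebraMap F Ω s) (upv Ω c) = 0 := by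
    have := S16_map (L := Ω) c hc
    rwa [← IsScalarTower.algebraMap_apply F K Ω s] at this
  set l : Ω := sqc (algebraMap F Ω s) (upv Ω c) 1 with hl
  have hx : ∀ k, x k ^ 2 = l * (t k - 1) := fun k => ex_sq_of_S16 (ht5 k) _ hSΩ
  have ht0 : t 0 = τ := by simp [t]
  have hx0 : x 0 ≠ 0 := by
    intro h
    apply hc0
    apply ex_eq_zero hs hτK
    simpa [x, ht0] using h
  have hpne : ∀ k, t k - 1 ≠ 0 := fun k => lin_ne_zero hg.1 hτ _ (hη k)
  have hl0 : l ≠ 0 := by
    intro h
    have := hx 0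
    rw [h, zero_mul] at this
    exact hx0 (pow_eq_zero_iff two_ne_zero |>.1 this)
  -- the fields
  set EF := IntermediateField.adjoin F ({τ} : Set Ω) with hEF
  set EK := (IntermediateField.adjoin K ({τ} : Set Ω)).restrictScalars F with hEK
  have hτEF : τ ∈ EF := IntermediateField.mem_adjoin_simple_self F τ
  have hτEK : τ ∈ EK := IntermediateField.mem_adjoin_simple_self K τ
  have hle : EF ≤ EK := by
    rw [hEF, IntermediateField.adjoin_simple_le_iff]
    exact hτEK
  have hd1 : Module.finrank F EF = 5 := finrank_tau hg.1 hτ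
  have hd2 : Module.finrank F EK = Module.finrank F K * 5 := by
    have h1 : Module.finrank K (IntermediateField.adjoin K ({τ} : Set Ω)) = 5 :=
      finrank_tau hs hτK
    rw [← h1]
    exact (Module.finrank_mul_finrank F K (IntermediateField.adjoin K ({τ} : Set Ω))).symm
  have hrel : EF.relfinrank EK = Module.finrank F K := by
    have := IntermediateField.finrank_bot_mul_relfinrank hle
    rw [hd1, hd2] at this
    omega
  rw [← hrel, IntermediateField.relfinrank_eq_finrank_of_le hle]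
  -- Kummer theory over EF
  have htEF : ∀ k, t k ∈ EF := fun k => EF.mul_mem (EF.algebraMap_mem _) hτEF
  let p : ℕ → EF := fun k => ⟨t k - 1, EF.sub_mem (htEF k) EF.one_mem⟩
  have hp0 : ∀ k, p k ≠ 0 := fun k h => hpne k (congrArg Subtype.val h)
  let w : Fin 4 → Ω := fun i => x ((i : ℕ) + 1) / x 0
  let a : Fin 4 → EF := fun i => p ((i : ℕ) + 1) / p 0
  have hw : ∀ i, w i ^ 2 = algebraMap EF Ω (a i) := by
    intro i
    have h0 := hpne 0
    have e1 : algebraMap EF Ω (a i) = (t ((i : ℕ) + 1) - 1) / (t 0 - 1) := by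
      simp only [a]
      rw [map_div₀]
      rfl
    rw [e1]
    simp only [w]
    rw [div_pow, hx, hx, mul_div_mul_left _ _ hl0]
  have ha : ∀ S : Finset (Fin 4), S.Nonempty → ∀ b : EF, b ^ 2 ≠ ∏ i ∈ S, a i := by
    intro S hS b hb
    obtain ⟨P, hP⟩ := mem_adjoin_iff hτ b.1 b.2
    apply no_square hζ hg hτ S hS P
    have h1 : b ^ 2 * p 0 ^ S.card = ∏ i ∈ S, p ((i : ℕ) + 1) := by
      rw [hb]
      simp only [a, Finset.prod_div_distrib, Finset.prod_const]
      rw [div_mul_cancel₀]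
      exact pow_ne_zero _ (hp0 0)
    have h2 := congrArg (algebraMap EF Ω) h1
    rw [map_mul, map_pow, map_pow, map_prod] at h2
    have h3 : ∀ k, algebraMap EF Ω (p k) = t k - 1 := fun k => rfl
    simp only [h3, ht0] at h2
    rw [hP]
    exact h2
  have hk := (kummer (E := EF) (by
    intro h
    have := congrArg (algebraMap EF Ω) h
    rw [map_ofNat, map_zero] at this
    have h2 : (algebraMap F Ω) 2 = 0 := by rw [map_ofNat, this]
    rw [← map_zero (algebraMap F Ω)] at h2
    exact two_ne_zero ((algebraMap F Ω).injective h2)) w a hw ha Finset.univ).1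
  have hM : IntermediateField.adjoin EF (w '' ((Finset.univ : Finset (Fin 4)) : Set (Fin 4))) ≤
      IntermediateField.extendScalars hle := by
    rw [IntermediateField.adjoin_le_iff]
    rintro _ ⟨i, _, rfl⟩
    have htEK : ∀ k, t k ∈ EK := fun k => hle (htEF k)
    have hcK : ∀ j, upv Ω c j ∈ EK := fun j =>
      (IntermediateField.adjoin K ({τ} : Set Ω)).algebraMap_mem (c j)
    have hxk : ∀ k, x k ∈ EK := by
      intro k
      simp only [x, ex]
      exact EK.add_mem (EK.add_mem (EK.add_mem (EK.add_mem (hcK 0) (EK.mul_mem (hcK 1) (htEK k)))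
        (EK.mul_mem (hcK 2) (pow_mem (htEK k) 2))) (EK.mul_mem (hcK 3) (pow_mem (htEK k) 3)))
        (EK.mul_mem (hcK 4) (pow_mem (htEK k) 4))
    exact EK.div_mem (hxk _) (hxk 0)
  have h16 := IntermediateField.finrank_bot_mul_relfinrank hM
  rw [hk] at h16
  rw [← h16]
  simp


omit [CharZero F] in
theorem no_fifth_root {K : Type*} [Field K] [Algebra F K] [FiniteDimensional F K]
    (hs : ∀ r : F, r ^ 5 ≠ s) (h5 : ¬ 5 ∣ Module.finrank F K) (r : K) :
    r ^ 5 ≠ algebraMap F K s := by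
  intro h
  apply h5
  rw [← finrank_tau hs h, ← Module.finrank_mul_finrank F (IntermediateField.adjoin F {r}) K]
  exact Dvd.intro _ rfl

theorem S16_unique (hζ : IsPrimitiveRoot ζ 5) (hs : ∀ r : F, r ^ 5 ≠ s) (c c' : Fin 5 → F)
    (hc : S16 s c = 0) (hc' : S16 s c' = 0) (hc0 : c ≠ 0) : ∃ μ : F, c' = μ • c := by
  set Ω := AlgebraicClosure F
  obtain ⟨τ, hτ⟩ := IsAlgClosed.exists_pow_nat_eq (algebraMap F Ω s) (show 0 < 5 by norm_num)
  have hx := ex_sq_of_S16 hτ _ (S16_map (L := Ω) c hc)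
  have hx' := ex_sq_of_S16 hτ _ (S16_map (L := Ω) c' hc')
  set x := ex τ (upv Ω c) with hxd
  set x' := ex τ (upv Ω c') with hxd'
  rw [← sqc_map] at hx hx'
  have hx0 : x ≠ 0 := fun h => hc0 (ex_eq_zero hs hτ c h)
  have hp : τ - 1 ≠ 0 := by
    have := lin_ne_zero hs hτ 1 (one_pow 5)
    simpa using this
  have hl0 : algebraMap F Ω (sqc s c 1) ≠ 0 := by
    intro h
    simp only [upv] at hx
    rw [h, zero_mul] at hx
    exact hx0 (pow_eq_zero_iff two_ne_zero |>.1 hx)
  set z := x' / x with hz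
  have hz2 : z ^ 2 = algebraMap F Ω (sqc s c' 1 / sqc s c 1) := by
    rw [hz, div_pow, hx, hx', map_div₀]
    simp only [upv]
    rw [mul_div_mul_right _ _ hp]
  have hτm : τ ∈ IntermediateField.adjoin F ({τ} : Set Ω) :=
    IntermediateField.mem_adjoin_simple_self F τ
  have hxm : ∀ d : Fin 5 → F, ex τ (upv Ω d) ∈ IntermediateField.adjoin F ({τ} : Set Ω) := by
    intro d
    have hd : ∀ j, upv Ω d j ∈ IntermediateField.adjoin F ({τ} : Set Ω) := fun j =>
      (IntermediateField.adjoin F ({τ} : Set Ω)).algebraMap_mem (d j)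
    simp only [ex]
    exact add_mem (add_mem (add_mem (add_mem (hd 0) (mul_mem (hd 1) hτm))
        (mul_mem (hd 2) (pow_mem hτm 2))) (mul_mem (hd 3) (pow_mem hτm 3)))
        (mul_mem (hd 4) (pow_mem hτm 4))
  have hzm : z ∈ IntermediateField.adjoin F ({τ} : Set Ω) := div_mem (hxm c') (hxm c)
  have hzr : z ∈ (algebraMap F Ω).range := by
    by_contra hn
    have h2 := quad_finrank hz2 hn
    have hle : IntermediateField.adjoin F ({z} : Set Ω) ≤ IntermediateField.adjoin F {τ} := by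
      rw [IntermediateField.adjoin_simple_le_iff]
      exact hzm
    have := IntermediateField.finrank_bot_mul_relfinrank hle
    rw [h2, finrank_tau hs hτ] at this
    omega
  obtain ⟨μ, hμ⟩ := hzr
  refine ⟨μ, ex_inj hs hτ _ _ ?_⟩
  have h1 : ex τ (upv Ω (μ • c)) = algebraMap F Ω μ * x := by
    simp only [hxd, ex, upv, Pi.smul_apply, smul_eq_mul, map_mul]
    ring
  rw [h1, hμ, hz, div_mul_cancel₀ _ hx0]


theorem ex_eq_sum {R : Type*} [CommRing R] (τ : R) (c : Fin 5 → R) :
    ex τ c = ∑ j : Fin 5, c j * τ ^ (j : ℕ) := by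
  simp only [ex, Fin.sum_univ_five]
  have t0 : (((0 : Fin 5) : ℕ)) = 0 := rfl
  have t1 : (((1 : Fin 5) : ℕ)) = 1 := rfl
  have t2 : (((2 : Fin 5) : ℕ)) = 2 := rfl
  have t3 : (((3 : Fin 5) : ℕ)) = 3 := rfl
  have t4 : (((4 : Fin 5) : ℕ)) = 4 := rfl
  simp only [t0, t1, t2, t3, t4, pow_zero, pow_one, mul_one]

theorem fourier_char {Ω : Type*} [Field Ω] {z : Ω} (hz : IsPrimitiveRoot z 5) (m : ℕ) :
    ∑ i : Fin 5, (z ^ m) ^ (i : ℕ) = if 5 ∣ m then 5 else 0 := by
  split_ifs with h
  · obtain ⟨d, rfl⟩ := h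
    rw [pow_mul, hz.pow_eq_one, one_pow]
    simp
  · have hp : IsPrimitiveRoot (z ^ m) 5 := by
      apply hz.pow_of_coprime
      have : Nat.Prime 5 := by norm_num
      exact (Nat.coprime_comm.1 ((Nat.Prime.coprime_iff_not_dvd this).2 h))
    have := hp.geom_sum_eq_zero (by norm_num)
    rw [← this, Finset.sum_range]

/-- inversion of the discrete Fourier transform -/
theorem fourier {Ω : Type*} [Field Ω] {z : Ω} (hz : IsPrimitiveRoot z 5) (τ : Ω)
    (c : Fin 5 → Ω) (k : Fin 5) :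
    5 * (c k * τ ^ (k : ℕ)) =
      ∑ i : Fin 5, z ^ (4 * (k : ℕ) * (i : ℕ)) * ex (z ^ (i : ℕ) * τ) c := by
  simp only [ex_eq_sum, Finset.mul_sum]
  rw [Finset.sum_comm]
  have h1 : ∀ j : Fin 5, ∑ i : Fin 5, z ^ (4 * (k : ℕ) * (i : ℕ)) *
      (c j * (z ^ (i : ℕ) * τ) ^ (j : ℕ)) =
      c j * τ ^ (j : ℕ) * (if 5 ∣ 4 * (k : ℕ) + (j : ℕ) then 5 else 0) := by
    intro j
    rw [← fourier_char hz, Finset.mul_sum]
    refine Finset.sum_congr rfl fun i _ => ?_
    rw [mul_pow, ← pow_mul, ← pow_mul, add_mul, pow_add, mul_comm (i : ℕ) (j : ℕ)]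
    ring
  simp only [h1]
  rw [Finset.sum_eq_single k]
  · rw [if_pos (by omega)]
    ring
  · intro j _ hj
    rw [if_neg, mul_zero]
    intro h
    apply hj
    apply Fin.ext
    omega
  · intro h
    exact absurd (Finset.mem_univ k) h

theorem S16_algebraic {K : Type*} [Field K] [Algebra F K] (hζ : IsPrimitiveRoot ζ 5)
    (hs : ∀ r : F, r ^ 5 ≠ s) (c : Fin 5 → K) (hc : S16 (algebraMap F K s) c = 0)
    (j₀ : Fin 5) (hj : c j₀ = 1) (j : Fin 5) : IsAlgebraic F (c j) := by
  set Ω := AlgebraicClosure K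
  obtain ⟨τ, hτ⟩ := IsAlgClosed.exists_pow_nat_eq (algebraMap F Ω s) (show 0 < 5 by norm_num)
  set z : Ω := algebraMap F Ω ζ with hzd
  have hz : IsPrimitiveRoot z 5 := hζ.map_of_injective (algebraMap F Ω).injective
  have hSΩ : S16 (algebraMap F Ω s) (upv Ω c) = 0 := by
    have := S16_map (L := Ω) c hc
    rwa [← IsScalarTower.algebraMap_apply F K Ω s] at this
  have h5 : (5 : Ω) ≠ 0 := by
    have : (algebraMap F Ω) 5 ≠ 0 := by
      rw [Ne, map_eq_zero]
      norm_num
    rwa [map_ofNat] at this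
  have hτ0 : τ ≠ 0 := tau_ne_zero hs hτ
  have hzi : ∀ i : ℕ, (z ^ i * τ) ^ 5 = algebraMap F Ω s := fun i => by
    rw [mul_pow, ← pow_mul, mul_comm i 5, pow_mul, hz.pow_eq_one, one_pow, one_mul, hτ]
  set l : Ω := sqc (algebraMap F Ω s) (upv Ω c) 1 with hl
  have hx : ∀ i : ℕ, ex (z ^ i * τ) (upv Ω c) ^ 2 = l * (z ^ i * τ - 1) := fun i =>
    ex_sq_of_S16 (hzi i) _ hSΩ
  have hl0 : l ≠ 0 := by
    intro h
    have hxi : ∀ i : ℕ, ex (z ^ i * τ) (upv Ω c) = 0 := fun i => by
      have := hx i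
      rw [h, zero_mul] at this
      exact pow_eq_zero_iff two_ne_zero |>.1 this
    have := fourier hz τ (upv Ω c) j₀
    simp only [hxi, mul_zero, Finset.sum_const_zero, upv, hj, map_one, one_mul] at this
    exact mul_ne_zero h5 (pow_ne_zero _ hτ0) this
  have hpne : ∀ k : ℕ, z ^ k * τ - 1 ≠ 0 := by
    intro k
    have := lin_ne_zero hs hτ (ζ ^ k) (by
      rw [← pow_mul, mul_comm, pow_mul, hζ.pow_eq_one, one_pow])
    rwa [map_pow] at this
  have halgτ : IsAlgebraic F τ := by
    refine ⟨X ^ 5 - C s, (monic_X_pow_sub_C s (by norm_num)).ne_zero, ?_⟩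
    simp [hτ]
  have halgz : ∀ i : ℕ, IsAlgebraic F (z ^ i) := fun i => by
    rw [hzd, ← map_pow]
    exact isAlgebraic_algebraMap _
  set x0 := ex (z ^ 0 * τ) (upv Ω c) with hx0
  have hx0' : x0 ≠ 0 := by
    intro h
    have := hx 0
    rw [← hx0, h] at this
    have h2 := mul_ne_zero hl0 (hpne 0)
    rw [← this] at h2
    simp at h2
  have halgw : ∀ i : ℕ, IsAlgebraic F (ex (z ^ i * τ) (upv Ω c) / x0) := by
    intro i
    have h2 : (ex (z ^ i * τ) (upv Ω c) / x0) ^ 2 = (z ^ i * τ - 1) / (z ^ 0 * τ - 1) := by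
      rw [div_pow, hx, hx0, hx, mul_div_mul_left _ _ hl0]
    have h3 : IsAlgebraic F ((ex (z ^ i * τ) (upv Ω c) / x0) ^ 2) := by
      rw [h2]
      have h1 : IsAlgebraic F (1 : Ω) := isAlgebraic_one
      rw [div_eq_mul_inv]
      exact (((halgz i).mul halgτ).sub h1).mul (((halgz 0).mul halgτ).sub h1).inv
    exact h3.of_pow (by norm_num)
  have hck : ∀ k : Fin 5, IsAlgebraic F (upv Ω c k / x0) := by
    intro k
    have h1 := fourier hz τ (upv Ω c) k
    have h2 : upv Ω c k / x0 = (∑ i : Fin 5, z ^ (4 * (k : ℕ) * (i : ℕ)) *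
        (ex (z ^ (i : ℕ) * τ) (upv Ω c) / x0)) / (5 * τ ^ (k : ℕ)) := by
      simp only [mul_div_assoc']
      rw [← Finset.sum_div, ← h1, div_right_comm,
        show 5 * (upv Ω c k * τ ^ (k : ℕ)) = upv Ω c k * (5 * τ ^ (k : ℕ)) by ring,
        mul_div_cancel_right₀ _ (mul_ne_zero h5 (pow_ne_zero _ hτ0))]
    rw [h2, div_eq_mul_inv]
    have hi : ∀ i : Fin 5, IsAlgebraic F (z ^ (4 * (k : ℕ) * (i : ℕ)) *
        (ex (z ^ (i : ℕ) * τ) (upv Ω c) / x0)) := fun i => (halgz _).mul (halgw _)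
    refine IsAlgebraic.mul ?_ ?_
    · rw [Fin.sum_univ_five]
      exact ((((hi 0).add (hi 1)).add (hi 2)).add (hi 3)).add (hi 4)
    have h5' : IsAlgebraic F (5 : Ω) := by
      have := isAlgebraic_algebraMap (R := F) (A := Ω) (5 : F)
      rwa [map_ofNat] at this
    exact (h5'.mul (halgτ.pow _)).inv
  have halgx0 : IsAlgebraic F x0 := by
    have := hck j₀
    simp only [upv, hj, map_one] at this
    rw [one_div] at this
    have h2 := this.inv
    rwa [inv_inv] at h2
  have hfin : IsAlgebraic F (upv Ω c j) := by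
    have := (hck j).mul halgx0
    rwa [div_mul_cancel₀ _ hx0'] at this
  have : IsAlgebraic F (algebraMap K Ω (c j)) := hfin
  exact (isAlgebraic_algebraMap_iff (algebraMap K Ω).injective).1 this


/-- matrices of the coordinates of the square -/
def Bm (s : F) (m : Fin 5) : Matrix (Fin 5) (Fin 5) F := fun a b =>
  if (a : ℕ) + (b : ℕ) = (m : ℕ) then 1 else if (a : ℕ) + (b : ℕ) = (m : ℕ) + 5 then s else 0

omit [CharZero F] in
theorem qv_Bm (m : Fin 5) (c : Fin 5 → F) : qv (Bm s m) c = sqc s c m := by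
  have t0 : (((0 : Fin 5) : ℕ)) = 0 := rfl
  have t1 : (((1 : Fin 5) : ℕ)) = 1 := rfl
  have t2 : (((2 : Fin 5) : ℕ)) = 2 := rfl
  have t3 : (((3 : Fin 5) : ℕ)) = 3 := rfl
  have t4 : (((4 : Fin 5) : ℕ)) = 4 := rfl
  fin_cases m <;>
    simp [qv, Bm, sqc, Fin.sum_univ_five, t2, t3, t4] <;> ring

/-- matrices of the coordinates of `(1 - τ) y^2` -/
def Dm (s : F) (m : Fin 5) : Matrix (Fin 5) (Fin 5) F :=
  Bm s m - (if m = 0 then s • Bm s 4 else Bm s (m - 1))

omit [CharZero F] in
theorem qv_sub {n : ℕ} (A B : Matrix (Fin n) (Fin n) F) (x : Fin n → F) :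
    qv (A - B) x = qv A x - qv B x := by
  simp only [qv, Matrix.sub_apply, sub_mul, Finset.sum_sub_distrib]

omit [CharZero F] in
theorem qv_smul {n : ℕ} (a : F) (B : Matrix (Fin n) (Fin n) F) (x : Fin n → F) :
    qv (a • B) x = a * qv B x := by
  simp only [qv, Matrix.smul_apply, smul_eq_mul, Finset.mul_sum, mul_assoc]

omit [CharZero F] in
theorem qv_Dm (m : Fin 5) (c : Fin 5 → F) :
    qv (Dm s m) c = sqc s c m - (if m = 0 then s * sqc s c 4 else sqc s c (m - 1)) := by
  rw [Dm, qv_sub, qv_Bm]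
  split_ifs with h
  · rw [qv_smul, qv_Bm]
  · rw [qv_Bm]

/-- block matrices -/
def Am (s : F) (m : Fin 5) : Matrix (Fin (5 + 5)) (Fin (5 + 5)) F := fun a b =>
  Fin.addCases (fun a' => Fin.addCases (fun b' => Bm s m a' b') (fun _ => 0) b)
    (fun a' => Fin.addCases (fun _ => 0) (fun b' => Dm s m a' b') b) a

omit [CharZero F] in
theorem qv_Am (m : Fin 5) (x : Fin (5 + 5) → F) :
    qv (Am s m) x = qv (Bm s m) (fun i => x (Fin.castAdd 5 i)) +
      qv (Dm s m) (fun i => x (Fin.natAdd 5 i)) := by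
  simp only [qv, Am]
  rw [Fin.sum_univ_add]
  congr 1
  · refine Finset.sum_congr rfl fun a _ => ?_
    rw [Fin.sum_univ_add]
    simp only [Fin.addCases_left, Fin.addCases_right, zero_mul, Finset.sum_const_zero, add_zero]
  · refine Finset.sum_congr rfl fun a _ => ?_
    rw [Fin.sum_univ_add]
    simp only [Fin.addCases_left, Fin.addCases_right, zero_mul, Finset.sum_const_zero, zero_add]

/-- over a good field there is an anisotropic system of 5 forms in 10 variables -/
theorem lower10 (hζ : IsPrimitiveRoot ζ 5) (hg : Good s) :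
    ∃ A : Fin 5 → Matrix (Fin 10) (Fin 10) F, ∀ x, (∀ i, qv (A i) x = 0) → x = 0 := by
  refine ⟨Am s, ?_⟩
  intro x hx
  set Ω := AlgebraicClosure F
  obtain ⟨τ, hτ⟩ := IsAlgClosed.exists_pow_nat_eq (algebraMap F Ω s) (show 0 < 5 by norm_num)
  set c : Fin 5 → F := fun i => x (Fin.castAdd 5 i) with hc
  set d : Fin 5 → F := fun i => x (Fin.natAdd 5 i) with hd
  have h0 : ∀ m, sqc s c m + (sqc s d m - (if m = 0 then s * sqc s d 4 else sqc s d (m - 1))) = 0 := by
    intro m
    have := hx m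
    rwa [qv_Am, qv_Bm, qv_Dm] at this
  have g0 := h0 0
  have g1 := h0 1
  have g2 := h0 2
  have g3 := h0 3
  have g4 := h0 4
  rw [if_pos rfl] at g0
  rw [if_neg (by decide), show (1 : Fin 5) - 1 = 0 by decide] at g1
  rw [if_neg (by decide), show (2 : Fin 5) - 1 = 1 by decide] at g2
  rw [if_neg (by decide), show (3 : Fin 5) - 1 = 2 by decide] at g3
  rw [if_neg (by decide), show (4 : Fin 5) - 1 = 3 by decide] at g4
  set U := ex τ (upv Ω c) with hU
  set V := ex τ (upv Ω d) with hV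
  have hUV : U ^ 2 = (τ - 1) * V ^ 2 := by
    rw [hU, hV, ex_sq hτ, ex_sq hτ, ← sqc_map, ← sqc_map]
    have k0 := congrArg (algebraMap F Ω) g0
    have k1 := congrArg (algebraMap F Ω) g1
    have k2 := congrArg (algebraMap F Ω) g2
    have k3 := congrArg (algebraMap F Ω) g3
    have k4 := congrArg (algebraMap F Ω) g4
    simp only [map_add, map_sub, map_mul, map_zero] at k0 k1 k2 k3 k4
    rw [← hτ] at k0
    simp only [ex, upv]
    linear_combination k0 + τ * k1 + τ ^ 2 * k2 + τ ^ 3 * k3 + τ ^ 4 * k4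
  have hp : τ - 1 ≠ 0 := by
    have := lin_ne_zero hg.1 hτ 1 (one_pow 5)
    simpa using this
  have hV0 : V = 0 := by
    by_contra hne
    have hτm : τ ∈ IntermediateField.adjoin F ({τ} : Set Ω) :=
      IntermediateField.mem_adjoin_simple_self F τ
    have hxm : ∀ d : Fin 5 → F, ex τ (upv Ω d) ∈ IntermediateField.adjoin F ({τ} : Set Ω) := by
      intro d
      have hd : ∀ j, upv Ω d j ∈ IntermediateField.adjoin F ({τ} : Set Ω) := fun j =>
        (IntermediateField.adjoin F ({τ} : Set Ω)).algebraMap_mem (d j)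
      simp only [ex]
      exact add_mem (add_mem (add_mem (add_mem (hd 0) (mul_mem (hd 1) hτm))
          (mul_mem (hd 2) (pow_mem hτm 2))) (mul_mem (hd 3) (pow_mem hτm 3)))
          (mul_mem (hd 4) (pow_mem hτm 4))
    obtain ⟨P, hP⟩ := mem_adjoin_iff hτ (U / V) (div_mem (hxm c) (hxm d))
    obtain ⟨e, he⟩ := exists_ex hτ P
    have he0 : e = 0 := by
      apply hg.sq_lin hτ 1 1 (one_pow 5)
      rw [← he, hP, div_pow, hUV, map_one, one_mul, one_mul,
        mul_div_cancel_right₀ _ (pow_ne_zero 2 hne)]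
    rw [he0, hP] at he
    have hU0 : U / V = 0 := by
      rw [he]
      simp [ex, upv]
    have hU1 : U = 0 := by
      rcases div_eq_zero_iff.1 hU0 with h | h
      · exact h
      · exact absurd h hne
    rw [hU1] at hUV
    have := mul_ne_zero hp (pow_ne_zero 2 hne)
    rw [← hUV] at this
    simp at this
  have hU0 : U = 0 := by
    rw [hV0] at hUV
    simpa using hUV
  have hc0 := ex_eq_zero hg.1 hτ c hU0
  have hd0 := ex_eq_zero hg.1 hτ d hV0
  funext i
  refine Fin.addCases (m := 5) (n := 5) (motive := fun i => x i = 0) ?_ ?_ i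
  · intro j
    exact congrFun hc0 j
  · intro j
    exact congrFun hd0 j

end Sixteen


section Base

theorem sqc_hom {R S : Type*} [CommRing R] [CommRing S] (f : R →+* S) (t : R) (c : Fin 5 → R)
    (m : Fin 5) : f (sqc t c m) = sqc (f t) (fun j => f (c j)) m := by
  have h2 : f 2 = 2 := map_ofNat f 2
  fin_cases m <;> simp [sqc, h2]

theorem sqc_smul {R : Type*} [CommRing R] (t b : R) (c : Fin 5 → R) (m : Fin 5) :
    sqc t (fun j => b * c j) m = b ^ 2 * sqc t c m := by
  fin_cases m <;> simp [sqc] <;> ring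

/-- denominators cleared -/
theorem clear_den {R Q : Type*} [CommRing R] [IsDomain R] [Field Q] [Algebra R Q]
    [IsFractionRing R Q] {n : ℕ} (c : Fin n → Q) :
    ∃ b : R, b ≠ 0 ∧ ∃ d : Fin n → R, ∀ i, algebraMap R Q b * c i = algebraMap R Q (d i) := by
  obtain ⟨b, hb⟩ := IsLocalization.exist_integer_multiples_of_finite (nonZeroDivisors R) c
  choose d hd using hb
  refine ⟨b, nonZeroDivisors.ne_zero b.2, d, fun i => ?_⟩
  rw [hd i]
  exact (Algebra.smul_def _ _).symm

theorem S16_clear {R Q : Type*} [CommRing R] [IsDomain R] [Field Q] [Algebra R Q]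
    [IsFractionRing R Q] (t : R) (c : Fin 5 → Q) (hc : S16 (algebraMap R Q t) c = 0) :
    ∃ b : R, b ≠ 0 ∧ ∃ d : Fin 5 → R, (∀ i, algebraMap R Q b * c i = algebraMap R Q (d i)) ∧
      sqc t d 2 = 0 ∧ sqc t d 3 = 0 ∧ sqc t d 4 = 0 ∧ sqc t d 0 + sqc t d 1 = 0 := by
  obtain ⟨b, hb, d, hd⟩ := clear_den (R := R) c
  obtain ⟨h2, h3, h4, h0⟩ := (S16_iff c).1 hc
  have key : ∀ m, algebraMap R Q (sqc t d m) =
      algebraMap R Q b ^ 2 * sqc (algebraMap R Q t) c m := by
    intro m
    rw [sqc_hom, ← sqc_smul]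
    simp only [hd]
  have hinj := IsFractionRing.injective R Q
  refine ⟨b, hb, d, hd, ?_, ?_, ?_, ?_⟩
  · apply hinj
    rw [key, h2, mul_zero, map_zero]
  · apply hinj
    rw [key, h3, mul_zero, map_zero]
  · apply hinj
    rw [key, h4, mul_zero, map_zero]
  · apply hinj
    rw [map_add, key, key, ← mul_add, h0, mul_zero, map_zero]

theorem Good.fractionRing {F : Type*} [Field F] [CharZero F] {s : F} (hg : Good s) (k : ℕ) :
    Good (algebraMap F (FractionRing (MvPolynomial (Fin k) F)) s) := by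
  have hst : algebraMap F (FractionRing (MvPolynomial (Fin k) F)) s =
      algebraMap (MvPolynomial (Fin k) F) (FractionRing (MvPolynomial (Fin k) F))
        (MvPolynomial.C s) := by
    rw [IsScalarTower.algebraMap_apply F (MvPolynomial (Fin k) F)
      (FractionRing (MvPolynomial (Fin k) F)), MvPolynomial.algebraMap_eq]
  have hpt : ∀ p : MvPolynomial (Fin k) F, p ≠ 0 → ∃ t : Fin k → F, MvPolynomial.eval t p ≠ 0 := by
    intro p hp
    by_contra hcon
    push Not at hcon
    apply hp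
    apply MvPolynomial.funext
    intro t
    rw [hcon t, map_zero]
  rw [hst]
  constructor
  · intro r hr
    obtain ⟨b, hb, d, hd⟩ := clear_den (R := MvPolynomial (Fin k) F) (fun _ : Fin 1 => r)
    have h1 := hd 0
    have h2 : d 0 ^ 5 = b ^ 5 * MvPolynomial.C s := by
      apply IsFractionRing.injective (MvPolynomial (Fin k) F)
        (FractionRing (MvPolynomial (Fin k) F))
      rw [map_pow, ← h1, map_mul, map_pow, mul_pow, hr]
    obtain ⟨t, ht⟩ := hpt b hb
    have h3 := congrArg (MvPolynomial.eval t) h2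
    rw [map_pow, map_mul, map_pow, MvPolynomial.eval_C] at h3
    apply hg.1 (MvPolynomial.eval t (d 0) / MvPolynomial.eval t b)
    rw [div_pow, h3, mul_div_cancel_left₀ _ (pow_ne_zero 5 ht)]
  · intro c hc
    obtain ⟨b, hb, d, hd, h2, h3, h4, h0⟩ := S16_clear _ c hc
    have hd0 : ∀ j, d j = 0 := by
      intro j
      by_contra hne
      obtain ⟨t, ht⟩ := hpt _ hne
      have : (fun j => MvPolynomial.eval t (d j)) = 0 := by
        apply hg.2
        rw [S16_iff]
        have key : ∀ m, sqc s (fun j => MvPolynomial.eval t (d j)) m =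
            MvPolynomial.eval t (sqc (MvPolynomial.C s) d m) := by
          intro m
          rw [sqc_hom, MvPolynomial.eval_C]
        refine ⟨?_, ?_, ?_, ?_⟩
        · rw [key, h2, map_zero]
        · rw [key, h3, map_zero]
        · rw [key, h4, map_zero]
        · rw [key, key, ← map_add, h0, map_zero]
      exact ht (congrFun this j)
    funext j
    have := hd j
    rw [hd0 j, map_zero] at this
    rcases mul_eq_zero.1 this with h | h
    · exfalso
      apply hb
      apply IsFractionRing.injective (MvPolynomial (Fin k) F)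
        (FractionRing (MvPolynomial (Fin k) F))
      rw [h, map_zero]
    · exact h

theorem expand_sum_eq_zero (d : Fin 5 → ℂ[X])
    (h : ex (X : ℂ[X]) (fun j => expand ℂ 5 (d j)) = 0) : d = 0 := by
  funext j₀
  ext n
  have h1 := congrArg (fun p => coeff p (5 * n + (j₀ : ℕ))) h
  simp only [ex_eq_sum, finsetSum_coeff, coeff_zero] at h1
  rw [Finset.sum_eq_single j₀] at h1
  · rw [coeff_mul_X_pow', if_pos (by omega), coeff_expand (by norm_num),
      show 5 * n + (j₀ : ℕ) - (j₀ : ℕ) = 5 * n by omega, if_pos (Dvd.intro _ rfl),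
      Nat.mul_div_cancel_left _ (by norm_num)] at h1
    rw [h1]
    simp
  · intro j _ hj
    rw [coeff_mul_X_pow']
    split_ifs with hle
    · rw [coeff_expand (by norm_num), if_neg]
      intro hd
      apply hj
      apply Fin.ext
      omega
    · rfl
  · intro h
    exact absurd (Finset.mem_univ _) h

theorem good_base_aux (d : Fin 5 → ℂ[X]) (h2 : sqc X d 2 = 0) (h3 : sqc X d 3 = 0)
    (h4 : sqc X d 4 = 0) (h0 : sqc X d 0 + sqc X d 1 = 0) : d = 0 := by
  obtain ⟨z, hz⟩ : ∃ z : ℂ, IsPrimitiveRoot z 5 :=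
    ⟨_, Complex.isPrimitiveRoot_exp 5 (by norm_num)⟩
  set f : ℂ[X] →+* ℂ[X] := (expand ℂ 5 : ℂ[X] →ₐ[ℂ] ℂ[X]).toRingHom with hf
  have hfX : f X = X ^ 5 := by simp [hf]
  set x : ℂ[X] := ex X (fun j => f (d j)) with hx
  set l : ℂ[X] := f (sqc X d 1) with hl
  have hx2 : x ^ 2 = l * (X - 1) := by
    rw [hx, ex_sq (s := X ^ 5) rfl, ← hfX]
    have key : sqc (f X) (fun j => f (d j)) = fun m => f (sqc X d m) := by
      funext m
      rw [sqc_hom]
    rw [key]
    have h0' : f (sqc X d 0) = - f (sqc X d 1) := by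
      rw [← map_neg]
      congr 1
      linear_combination h0
    simp only [ex, h2, h3, h4, h0', map_zero, hl]
    ring
  have hl0 : l = 0 := by
    by_contra hne
    have hcomp : l.comp (C z * X) = l := by
      have : ∀ P : ℂ[X], (f P).comp (C z * X) = f P := by
        intro P
        have e : f P = P.comp (X ^ 5) := expand_eq_comp_X_pow 5
        rw [e, comp_assoc]
        congr 1
        rw [pow_comp, X_comp, mul_pow, ← C_pow, hz.pow_eq_one, C_1, one_mul]
      exact this _
    have hx2' : x.comp (C z * X) ^ 2 = l * (C z * X - 1) := by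
      rw [← pow_comp, hx2, mul_comp, hcomp, sub_comp, X_comp, one_comp]
    have hprod : (x * x.comp (C z * X)) ^ 2 = l ^ 2 * ((X - 1) * (C z * X - 1)) := by
      rw [mul_pow, hx2, hx2']
      ring
    have hdvd : l ∣ x * x.comp (C z * X) := by
      rw [← IsIntegrallyClosed.pow_dvd_pow_iff (n := 2) (two_ne_zero)]
      rw [hprod]
      exact Dvd.intro _ rfl
    obtain ⟨y, hy⟩ := hdvd
    have hy2 : y ^ 2 = (X - 1) * (C z * X - 1) := by
      rw [hy, mul_pow] at hprod
      exact mul_left_cancel₀ (pow_ne_zero 2 hne) hprod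
    have he := congrArg (eval 1) hy2
    simp only [eval_pow, eval_mul, eval_sub, eval_X, eval_one, eval_C, sub_self, zero_mul] at he
    have hy1 : eval 1 y = 0 := pow_eq_zero_iff two_ne_zero |>.1 he
    have hd := congrArg (fun p => eval 1 (derivative p)) hy2
    simp only [derivative_pow, derivative_mul, derivative_sub, derivative_X, derivative_one,
      derivative_C, eval_mul, eval_pow, eval_add, eval_sub, eval_X, eval_one, eval_C, hy1,
      sub_self, zero_mul, sub_zero, one_mul, mul_one, zero_add, add_zero, eval_zero] at hd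
    have hz1 : z - 1 = 0 := by
      rw [← hd]
      simp
    exact hz.ne_one (by norm_num) (sub_eq_zero.1 hz1)
  rw [hl0, zero_mul] at hx2
  have hx0 : x = 0 := pow_eq_zero_iff two_ne_zero |>.1 hx2
  exact expand_sum_eq_zero d hx0

theorem good_base : ∃ (F : Type) (_ : Field F) (_ : CharZero F) (ζ s : F),
    IsPrimitiveRoot ζ 5 ∧ Good s := by
  obtain ⟨z, hz⟩ : ∃ z : ℂ, IsPrimitiveRoot z 5 :=
    ⟨_, Complex.isPrimitiveRoot_exp 5 (by norm_num)⟩
  have hinj := IsFractionRing.injective ℂ[X] (FractionRing ℂ[X])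
  have hc0 : CharZero (FractionRing ℂ[X]) := charZero_of_injective_algebraMap hinj
  refine ⟨FractionRing ℂ[X], inferInstance, hc0, algebraMap ℂ[X] _ (C z), algebraMap ℂ[X] _ X,
    (hz.map_of_injective (C_injective)).map_of_injective hinj, ?_, ?_⟩
  · intro r hr
    obtain ⟨b, hb, d, hd⟩ := clear_den (R := ℂ[X]) (fun _ : Fin 1 => r)
    have h1 := hd 0
    have h2 : d 0 ^ 5 = b ^ 5 * X := by
      apply hinj
      rw [map_pow, ← h1, map_mul, map_pow, mul_pow, hr]
    have h3 := congrArg natDegree h2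
    rw [natDegree_pow, natDegree_mul (pow_ne_zero 5 hb) X_ne_zero, natDegree_pow, natDegree_X]
      at h3
    omega
  · intro c hc
    obtain ⟨b, hb, d, hd, h2, h3, h4, h0⟩ := S16_clear _ c hc
    have hd0 := good_base_aux d h2 h3 h4 h0
    funext j
    have := hd j
    rw [hd0, Pi.zero_apply, map_zero] at this
    rcases mul_eq_zero.1 this with h | h
    · exfalso
      apply hb
      apply hinj
      rw [h, map_zero]
    · exact h

end Base

end LP5
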