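import Pool.Agent.LP5.Basic

/-! LP5: sections over a rational function field are linear. -/

namespace LP5
open MvPolynomial

namespace Lambda

variable {L : Type*} [Field L] {n m r k : ℕ}

theorem top_mul {σ : Type*} {f g : MvPolynomial σ L} {D E : ℕ} (hf : f.totalDegree ≤ D)
    (hg : g.totalDegree ≤ E) :
    homogeneousComponent (D + E) (f * g) = homogeneousComponent D f * homogeneousComponent E g := by
  have h1 : f = ∑ i ∈ Finset.range (D + 1), homogeneousComponent i f := by
    conv_lhs => rw [← sum_homogeneousComponent f]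
    refine Finset.sum_subset (Finset.range_subset_range.2 (by omega)) fun i _ hi => ?_
    exact homogeneousComponent_eq_zero i f (by simpa using hi)
  have h2 : g = ∑ i ∈ Finset.range (E + 1), homogeneousComponent i g := by
    conv_lhs => rw [← sum_homogeneousComponent g]
    refine Finset.sum_subset (Finset.range_subset_range.2 (by omega)) fun i _ hi => ?_
    exact homogeneousComponent_eq_zero i g (by simpa using hi)
  conv_lhs => rw [h1, h2]
  rw [Finset.sum_mul_sum, map_sum]
  simp only [map_sum]
  have h3 : ∀ i j, homogeneousComponent (D + E) (homogeneousComponent i f * homogeneousComponent j g)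
      = if i + j = D + E then homogeneousComponent i f * homogeneousComponent j g else 0 := by
    intro i j
    have h4 : (homogeneousComponent i f * homogeneousComponent j g).IsHomogeneous (i + j) :=
      (homogeneousComponent_isHomogeneous i f).mul (homogeneousComponent_isHomogeneous j g)
    rw [homogeneousComponent_of_mem ((mem_homogeneousSubmodule _ _).2 h4)]
    by_cases h : i + j = D + E
    · rw [if_pos h.symm, if_pos h]
    · rw [if_neg (fun h' => h h'.symm), if_neg h]
  simp only [h3]
  rw [Finset.sum_eq_single_of_mem D (by simp), Finset.sum_eq_single_of_mem E (by simp)]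
  · simp
  · intro j hj hjE
    rw [if_neg]; simp only [Finset.mem_range] at hj; omega
  · intro i hi hiD
    refine Finset.sum_eq_zero fun j hj => ?_
    rw [if_neg]; simp only [Finset.mem_range] at hi hj; omega

theorem aeval_pol0 {S : Type*} [CommRing S] [Algebra L S] (A : Matrix (Fin n) (Fin n) L)
    (h : Fin m → Fin n → L) (Y : Fin m → S) :
    aeval Y (pol A h 0) = ∑ a, ∑ b, algebraMap L S (A a b) *
      (∑ j, Y j * algebraMap L S (h j a)) * (∑ j, Y j * algebraMap L S (h j b)) := by
  simp only [pol, map_sum, map_mul, aeval_X, algHom_C, Pi.zero_apply, map_zero, add_zero]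
  refine Finset.sum_congr rfl fun a _ => Finset.sum_congr rfl fun b _ => ?_
  simp only [mul_comm (Y _)]

theorem linear_of_homogeneous {f : MvPolynomial (Fin r) L} (hf : f.IsHomogeneous 1) :
    f = ∑ t, X t * C (coeff (Finsupp.single t 1) f) := by
  ext d
  rw [coeff_sum]
  by_cases hd : d.degree = 1
  · obtain ⟨t, rfl⟩ : ∃ t, d = Finsupp.single t 1 := (Finsupp.sum_eq_one_iff d).1 hd
    rw [Finset.sum_eq_single_of_mem t (Finset.mem_univ t)]
    · rw [mul_comm, coeff_C_mul, coeff_X]; simp
    · intro t' _ ht'
      rw [mul_comm, coeff_C_mul, coeff_X, if_neg, mul_zero]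
      intro h
      exact ht' (Finsupp.single_left_injective one_ne_zero h)
  · rw [hf.coeff_eq_zero hd]
    symm
    refine Finset.sum_eq_zero fun t _ => ?_
    rw [mul_comm, coeff_C_mul, coeff_X, if_neg, mul_zero]
    rintro rfl
    exact hd (by simp)

/-- a nonzero common denominator of minimal degree is not divisible by a prime dividing all
numerators -/
theorem reduced {κ : Type*} [Field κ] [Algebra (MvPolynomial (Fin r) L) κ]
    [IsFractionRing (MvPolynomial (Fin r) L) κ] (y : Fin m → κ) :
    ∃ (g : MvPolynomial (Fin r) L) (Y : Fin m → MvPolynomial (Fin r) L), g ≠ 0 ∧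
      (∀ j, algebraMap _ κ (Y j) = algebraMap _ κ g * y j) ∧
      ∀ π : MvPolynomial (Fin r) L, Prime π → π ∣ g → ∃ j, ¬ π ∣ Y j := by
  classical
  let P := MvPolynomial (Fin r) L
  have hinj : Function.Injective (algebraMap P κ) := IsFractionRing.injective P κ
  let T : Set ℕ := {d | ∃ g : P, g ≠ 0 ∧ g.totalDegree = d ∧
    ∃ Y : Fin m → P, ∀ j, algebraMap P κ (Y j) = algebraMap P κ g * y j}
  have hT : T.Nonempty := by
    obtain ⟨g, hg⟩ := IsLocalization.exist_integer_multiples_of_finset (nonZeroDivisors P)
      (Finset.image y Finset.univ)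
    have h1 : ∀ j, ∃ Y : P, algebraMap P κ Y = algebraMap P κ g * y j := by
      intro j
      obtain ⟨Y, hY⟩ := hg (y j) (Finset.mem_image_of_mem y (Finset.mem_univ j))
      exact ⟨Y, by rw [hY, Algebra.smul_def]⟩
    choose Y hY using h1
    exact ⟨_, (g : P), nonZeroDivisors.coe_ne_zero g, rfl, Y, hY⟩
  obtain ⟨g, hg0, hgd, Y, hY⟩ := Nat.sInf_mem hT
  refine ⟨g, Y, hg0, hY, fun π hπ hπg => ?_⟩
  by_contra hcon
  push Not at hcon
  obtain ⟨g', rfl⟩ := hπg
  choose Y' hY' using hcon
  have hg'0 : g' ≠ 0 := fun h => hg0 (by rw [h, mul_zero])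
  have hπ0 : π ≠ 0 := hπ.ne_zero
  have hmem : g'.totalDegree ∈ T := by
    refine ⟨g', hg'0, rfl, Y', fun j => ?_⟩
    have e := hY j
    rw [hY' j, map_mul, map_mul, mul_assoc] at e
    exact mul_left_cancel₀ (fun h => hπ0 (hinj (by rw [h, map_zero]))) e
  have hle := Nat.sInf_le hmem
  rw [← hgd, totalDegree_mul_of_isDomain hπ0 hg'0] at hle
  have hπd : π.totalDegree = 0 := by omega
  rw [totalDegree_eq_zero_iff_eq_C] at hπd
  apply hπ.not_isUnit
  rw [hπd]
  refine IsUnit.map C (isUnit_iff_ne_zero.2 fun h => hπ0 (by rw [hπd, h, map_zero]))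

end Lambda

open Lambda in
theorem lambda {L κ : Type*} [Field L] [Field κ] {n m r k : ℕ}
    [Algebra (MvPolynomial (Fin r) L) κ] [IsFractionRing (MvPolynomial (Fin r) L) κ]
    (A : Fin k → Matrix (Fin n) (Fin n) L) (h : Fin m → Fin n → L) (e : Fin r → Fin n → L)
    (hGA : GA fun i => pol (A i) h 0) (y : Fin m → κ)
    (hy : ∀ i, qv ((A i).map fun a => algebraMap (MvPolynomial (Fin r) L) κ (C a))
      (fun a => (∑ j, y j * algebraMap (MvPolynomial (Fin r) L) κ (C (h j a))) +
        ∑ t, algebraMap (MvPolynomial (Fin r) L) κ (X t * C (e t a))) = 0) :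
    ∃ φ : Fin r → Fin m → L,
      (∀ j, y j = ∑ t, algebraMap (MvPolynomial (Fin r) L) κ (X t * C (φ t j))) ∧
      ∀ (a : Fin r → L) (i : Fin k), qv (A i) (fun b => ∑ t, a t * (e t b + ∑ j, φ t j * h j b)) = 0
      := by
  classical
  let P := MvPolynomial (Fin r) L
  have hinj : Function.Injective (algebraMap P κ) := IsFractionRing.injective P κ
  obtain ⟨g, Y, hg0, hY, hred⟩ := reduced (L := L) (r := r) y
  -- the identity in `P`
  have hP : ∀ i, ∑ a, ∑ b, C (A i a b) *
      ((∑ j, Y j * C (h j a)) + g * ∑ t, X t * C (e t a)) *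
      ((∑ j, Y j * C (h j b)) + g * ∑ t, X t * C (e t b)) = (0 : P) := by
    intro i
    apply hinj
    rw [map_zero]
    have h1 := hy i
    simp only [qv, Matrix.map_apply] at h1
    have h2 : algebraMap P κ g ^ 2 * (∑ a, ∑ b, algebraMap P κ (C (A i a b)) *
      ((∑ j, y j * algebraMap P κ (C (h j a))) + ∑ t, algebraMap P κ (X t * C (e t a))) *
      ((∑ j, y j * algebraMap P κ (C (h j b))) + ∑ t, algebraMap P κ (X t * C (e t b)))) = 0 := by
      rw [h1, mul_zero]
    rw [← h2]
    simp only [map_sum, map_mul, map_add, Finset.mul_sum]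
    refine Finset.sum_congr rfl fun a _ => Finset.sum_congr rfl fun b _ => ?_
    have e1 : ∀ a, (∑ j, algebraMap P κ (Y j) * algebraMap P κ (C (h j a))) +
        ∑ t, algebraMap P κ g * (algebraMap P κ (X t) * algebraMap P κ (C (e t a))) =
        algebraMap P κ g * ((∑ j, y j * algebraMap P κ (C (h j a))) +
          ∑ t, algebraMap P κ (X t) * algebraMap P κ (C (e t a))) := by
      intro a
      rw [mul_add, Finset.mul_sum, Finset.mul_sum]
      congr 1
      refine Finset.sum_congr rfl fun j _ => ?_
      rw [hY]; ring
    rw [e1 a, e1 b]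
    ring
  -- `g` is a unit
  have hgu : IsUnit g := by
    by_contra hgu
    obtain ⟨π, hπ, hπg⟩ := WfDvdMonoid.exists_irreducible_factor hgu hg0
    have hπp : Prime π := hπ.prime
    obtain ⟨j₀, hj₀⟩ := hred π hπp hπg
    let I : Ideal P := Ideal.span {π}
    have hIp : I.IsPrime := (Ideal.span_singleton_prime hπp.ne_zero).2 hπp
    let K' := FractionRing (P ⧸ I)
    let ρ : P →ₐ[L] K' := (Algebra.ofId (P ⧸ I) K').restrictScalars L |>.comp (Ideal.Quotient.mkₐ L I)
    have hρ : ∀ f : P, ρ f = 0 → π ∣ f := by
      intro f hf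
      have h1 : algebraMap (P ⧸ I) K' (Ideal.Quotient.mk I f) = 0 := hf
      have h2 : Ideal.Quotient.mk I f = 0 :=
        (IsFractionRing.injective (P ⧸ I) K') (by rw [h1, map_zero])
      rw [Ideal.Quotient.eq_zero_iff_mem, Ideal.mem_span_singleton] at h2
      exact h2
    have hρg : ρ g = 0 := by
      have : Ideal.Quotient.mk I g = 0 := by
        rw [Ideal.Quotient.eq_zero_iff_mem, Ideal.mem_span_singleton]; exact hπg
      show algebraMap (P ⧸ I) K' (Ideal.Quotient.mk I g) = 0
      rw [this, map_zero]
    have hz := hGA.zero (K := K') (fun j => ρ (Y j)) (fun i => by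
      rw [aeval_pol0]
      have h1 := congrArg ρ (hP i)
      simp only [map_sum, map_mul, map_add, map_zero, hρg, zero_mul, add_zero] at h1
      have h2 : ∀ a : L, ρ (C a) = algebraMap L K' a := fun a => ρ.commutes a
      simp only [h2] at h1
      exact h1)
    exact hj₀ (hρ _ (congrFun hz j₀))
  -- so `y` is polynomial
  obtain ⟨g', hg'⟩ := hgu.exists_left_inv
  obtain ⟨Z, hZ⟩ : ∃ Z : Fin m → P, ∀ j, algebraMap P κ (Z j) = y j := by
    refine ⟨fun j => g' * Y j, fun j => ?_⟩
    rw [map_mul, hY, ← mul_assoc, ← map_mul, hg', map_one, one_mul]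
  have hQ : ∀ i, ∑ a, ∑ b, C (A i a b) *
      ((∑ j, Z j * C (h j a)) + ∑ t, X t * C (e t a)) *
      ((∑ j, Z j * C (h j b)) + ∑ t, X t * C (e t b)) = (0 : P) := by
    intro i
    apply hinj
    rw [map_zero]
    have h1 := hy i
    simp only [qv, Matrix.map_apply] at h1
    rw [← h1]
    simp only [map_sum, map_mul, map_add, hZ]
    rfl
  -- degree at most one
  have htd : ∀ (D : ℕ) (a : Fin n), (∀ j, (Z j).totalDegree ≤ D) → 1 ≤ D →
      MvPolynomial.totalDegree ((∑ j, Z j * C (h j a)) + ∑ t, X t * C (e t a)) ≤ D := by
    intro D a hD h1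
    refine (totalDegree_add _ _).trans (max_le ?_ ?_)
    · refine (totalDegree_finsetSum _ _).trans (Finset.sup_le fun j _ => ?_)
      refine (totalDegree_mul _ _).trans ?_
      rw [totalDegree_C, add_zero]
      exact hD j
    · refine (totalDegree_finsetSum _ _).trans (Finset.sup_le fun t _ => ?_)
      refine (totalDegree_mul _ _).trans ?_
      rw [totalDegree_C, add_zero, totalDegree_X]
      exact h1
  have hdown : ∀ D, 2 ≤ D → (∀ j, (Z j).totalDegree ≤ D) → ∀ j, homogeneousComponent D (Z j) = 0 := by
    intro D hD2 hD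
    let _ : Algebra L κ := ((algebraMap P κ).comp C).toAlgebra
    have hz := hGA.zero (K := κ) (fun j => algebraMap P κ (homogeneousComponent D (Z j)))
      (fun i => by
        rw [aeval_pol0]
        have h1 := congrArg (homogeneousComponent (D + D)) (hQ i)
        rw [map_sum, map_zero] at h1
        simp only [map_sum] at h1
        have h2 : ∀ a, homogeneousComponent D ((∑ j, Z j * C (h j a)) + ∑ t, X t * C (e t a)) =
            ∑ j, homogeneousComponent D (Z j) * C (h j a) := by
          intro a
          rw [map_add, map_sum, map_sum]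
          have h3 : ∀ t, homogeneousComponent D (X t * C (e t a) : P) = 0 := by
            intro t
            refine homogeneousComponent_eq_zero D _ (lt_of_le_of_lt ?_ (Nat.lt_of_lt_of_le (Nat.lt_succ_self 1) hD2))
            refine (totalDegree_mul _ _).trans ?_
            rw [totalDegree_C, add_zero, totalDegree_X]
          simp only [h3, Finset.sum_const_zero, add_zero]
          refine Finset.sum_congr rfl fun j _ => ?_
          rw [mul_comm, homogeneousComponent_C_mul, mul_comm]
        have h4 : ∀ a b, homogeneousComponent (D + D) (C (A i a b) *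
            ((∑ j, Z j * C (h j a)) + ∑ t, X t * C (e t a)) *
            ((∑ j, Z j * C (h j b)) + ∑ t, X t * C (e t b))) =
            C (A i a b) * (∑ j, homogeneousComponent D (Z j) * C (h j a)) *
              (∑ j, homogeneousComponent D (Z j) * C (h j b)) := by
          intro a b
          rw [mul_assoc, homogeneousComponent_C_mul, top_mul (htd D a hD (by omega))
            (htd D b hD (by omega)), h2, h2, ← mul_assoc]
        simp only [h4] at h1
        have h5 := congrArg (algebraMap P κ) h1
        simp only [map_sum, map_mul, map_zero] at h5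
        exact h5)
    intro j
    apply hinj
    rw [map_zero]
    exact congrFun hz j
  have hdeg : ∀ j, (Z j).totalDegree ≤ 1 := by
    have h1 : ∀ D, (∀ j, (Z j).totalDegree ≤ 1 + D) → ∀ j, (Z j).totalDegree ≤ 1 := by
      intro D
      induction D with
      | zero => intro h; simpa using h
      | succ D ih =>
        intro hD
        refine ih fun j => ?_
        have h2 := hdown (1 + (D + 1)) (by omega) hD j
        have h3 : Z j = ∑ i ∈ Finset.range (1 + D + 1), homogeneousComponent i (Z j) := by
          have h4 : Z j = ∑ i ∈ Finset.range (1 + (D + 1) + 1), homogeneousComponent i (Z j) := by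
            conv_lhs => rw [← sum_homogeneousComponent (Z j)]
            refine Finset.sum_subset (Finset.range_subset_range.2 (by have := hD j; omega))
              fun i _ hi => ?_
            exact homogeneousComponent_eq_zero i _ (by simpa using hi)
          rw [Finset.sum_range_succ, h2, add_zero] at h4
          exact h4
        rw [h3]
        refine (totalDegree_finsetSum _ _).trans (Finset.sup_le fun i hi => ?_)
        refine (homogeneousComponent_isHomogeneous i (Z j)).totalDegree_le.trans ?_
        have := Finset.mem_range.1 hi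
        omega
    refine h1 (∑ j, (Z j).totalDegree) fun j => ?_
    have : (Z j).totalDegree ≤ ∑ j, (Z j).totalDegree :=
      Finset.single_le_sum (f := fun j => (Z j).totalDegree) (fun _ _ => Nat.zero_le _)
        (Finset.mem_univ j)
    omega
  -- no constant term
  have hcst : ∀ j, constantCoeff (Z j) = 0 := by
    have hz := hGA.zero (K := L) (fun j => constantCoeff (Z j)) (fun i => by
      rw [aeval_pol0]
      have h1 := congrArg (constantCoeff (R := L) (σ := Fin r)) (hQ i)
      simp only [map_sum, map_mul, map_add, constantCoeff_C, constantCoeff_X, zero_mul,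
        Finset.sum_const_zero, add_zero, map_zero] at h1
      exact h1)
    exact fun j => congrFun hz j
  have hhom : ∀ j, (Z j).IsHomogeneous 1 := by
    intro j
    have h4 : Z j = homogeneousComponent 0 (Z j) + homogeneousComponent 1 (Z j) := by
      have h5 : Z j = ∑ i ∈ Finset.range (1 + 1), homogeneousComponent i (Z j) := by
        conv_lhs => rw [← sum_homogeneousComponent (Z j)]
        refine Finset.sum_subset (Finset.range_subset_range.2 (by have := hdeg j; omega))
          fun i _ hi => ?_
        exact homogeneousComponent_eq_zero i _ (by simpa using hi)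
      rw [Finset.sum_range_succ, Finset.sum_range_one] at h5
      exact h5
    rw [homogeneousComponent_zero] at h4
    have h6 : coeff 0 (Z j) = 0 := hcst j
    rw [h6, map_zero, zero_add] at h4
    rw [h4]
    exact homogeneousComponent_isHomogeneous 1 (Z j)
  refine ⟨fun t j => coeff (Finsupp.single t 1) (Z j), fun j => ?_, fun a i => ?_⟩
  · rw [← hZ j]
    conv_lhs => rw [linear_of_homogeneous (hhom j)]
    rw [map_sum]
  · have h1 := congrArg (eval a) (hQ i)
    simp only [map_sum, map_mul, map_add, eval_C, eval_X, map_zero] at h1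
    have h2 : ∀ b, (∑ j, eval a (Z j) * h j b) + ∑ t, a t * e t b =
        ∑ t, a t * (e t b + ∑ j, coeff (Finsupp.single t 1) (Z j) * h j b) := by
      intro b
      have h3 : ∀ j, eval a (Z j) = ∑ t, a t * coeff (Finsupp.single t 1) (Z j) := by
        intro j
        conv_lhs => rw [linear_of_homogeneous (hhom j)]
        simp only [map_sum, map_mul, eval_C, eval_X]
      simp only [h3, mul_add, Finset.sum_add_distrib, Finset.mul_sum, Finset.sum_mul]
      rw [add_comm, Finset.sum_comm]
      congr 1
      refine Finset.sum_congr rfl fun t _ => Finset.sum_congr rfl fun j _ => by ring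
    simp only [h2] at h1
    exact h1

end LP5
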