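import Pool.Agent.LP5.Defs2

/-! Statements of the modules (blueprint only, never imported by a hand-in). -/

namespace LP5
open MvPolynomial

/-! ## Module B (basic): file Basic.lean -/
section B
variable {F : Type*} [Field F] {K : Type*} [Field K] [Algebra F K] {n m k : ℕ}

theorem aeval_pol (A : Matrix (Fin n) (Fin n) F) (h : Fin m → Fin n → F) (u : Fin n → F)
    (x : Fin m → K) :
    aeval x (pol A h u) = qv (up K A) (lin (fun j => upv K (h j)) (upv K u) x) := by sorry

theorem totalDegree_pol_le (A : Matrix (Fin n) (Fin n) F) (h : Fin m → Fin n → F)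
    (u : Fin n → F) : (pol A h u).totalDegree ≤ 2 := by sorry

theorem homogeneousComponent_pol (A : Matrix (Fin n) (Fin n) F) (h : Fin m → Fin n → F)
    (u : Fin n → F) : homogeneousComponent 2 (pol A h u) = pol A h 0 := by sorry

theorem isHomogeneous_pol_zero (A : Matrix (Fin n) (Fin n) F) (h : Fin m → Fin n → F) :
    (pol A h 0).IsHomogeneous 2 := by sorry

theorem map_pol (A : Matrix (Fin n) (Fin n) F) (h : Fin m → Fin n → F) (u : Fin n → F) :
    MvPolynomial.map (algebraMap F K) (pol A h u) =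
      pol (up K A) (fun j => upv K (h j)) (upv K u) := by sorry

theorem GA.zero {q : Fin k → MvPolynomial (Fin m) F} (hq : GA q) (x : Fin m → K)
    (hx : ∀ i, aeval x (q i) = 0) : x = 0 := by sorry

theorem GA.map {q : Fin k → MvPolynomial (Fin m) F} (hq : GA q) :
    GA fun i => MvPolynomial.map (algebraMap F K) (q i) := by sorry

/-- tangent vectors: dual number zero -/
theorem aeval_dual_pol (A : Matrix (Fin n) (Fin n) F) (h : Fin m → Fin n → F) (u : Fin n → F)
    (x w : Fin m → F) (h1 : qv A (lin h u x) = 0) (h2 : pv A (lin h u x) (lin h 0 w) = 0) :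
    aeval (fun j => algebraMap F (DualNumber F) (x j) + w j • DualNumber.eps) (pol A h u) = 0 := by
  sorry

theorem not_GA {q : Fin k → MvPolynomial (Fin m) F} (hq : ∀ i, (q i).IsHomogeneous 2)
    (h : ¬ GA q) : ∃ x : Fin m → AlgebraicClosure F, x ≠ 0 ∧ ∀ i, aeval x (q i) = 0 := by sorry

end B

/-! ## Module Z (Bezout): file Bezout.lean -/
section Z
variable {F : Type*} [Field F] [CharZero F] {m : ℕ} (p : Fin m → MvPolynomial (Fin m) F)
  (hp : ∀ i, (p i).totalDegree ≤ 2) (hGA : GA fun i => homogeneousComponent 2 (p i))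

include hp hGA

/-! file BezoutA.lean (helper74) -/

theorem zint : Algebra.IsIntegral (PA p) (MvPolynomial (Fin m) F) := by sorry

theorem zind : AlgebraicIndependent F p := by sorry

theorem zdeg (θ : MvPolynomial (Fin m) F) : (minpoly (PA p) θ).natDegree ∣ 2 ^ m := by sorry

/-! file BezoutB.lean (helper8) -/

theorem bz_integral {K : Type*} [Field K] [Algebra F K] (x : Fin m → K)
    (hx : ∀ i, aeval x (p i) = 0) (j : Fin m) : IsIntegral F (x j) := by sorry

theorem bz_degree {K : Type*} [Field K] [Algebra F K] (x : Fin m → K)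
    (hx : ∀ i, aeval x (p i) = 0) :
    Module.finrank F (IntermediateField.adjoin F (Set.range x)) ≤ 2 ^ m := by sorry

theorem bz_finite {K : Type*} [Field K] [Algebra F K] :
    {x : Fin m → K | ∀ i, aeval x (p i) = 0}.Finite := by sorry

theorem bz_exists {Ω : Type*} [Field Ω] [Algebra F Ω] [IsAlgClosed Ω] {l : ℕ} (hl : l.Prime)
    (h2 : l ≠ 2) : ∃ x : Fin m → Ω, (∀ i, aeval x (p i) = 0) ∧
      ¬ l ∣ Module.finrank F (IntermediateField.adjoin F (Set.range x)) := by sorry

theorem bz_singular [IsAlgClosed F] (x : Fin (2 ^ m) → Fin m → F) (hinj : Function.Injective x)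
    (hx : ∀ k i, aeval (x k) (p i) = 0) (k₀ : Fin (2 ^ m)) (w : Fin m → F) (hw : w ≠ 0)
    (hs : ∀ i, aeval (fun j => algebraMap F (DualNumber F) (x k₀ j) + w j • DualNumber.eps)
      (p i) = 0) : False := by sorry

end Z

/-! ## Module G (good fields): file Good.lean -/
section G

theorem good_base : ∃ (F : Type) (_ : Field F) (_ : CharZero F) (ζ s : F),
    IsPrimitiveRoot ζ 5 ∧ Good s := by sorry

variable {F : Type*} [Field F] [CharZero F] {ζ s : F}

theorem Good.fractionRing (hg : Good s) (k : ℕ) :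
    Good (algebraMap F (FractionRing (MvPolynomial (Fin k) F)) s) := by sorry

theorem no_fifth_root {K : Type*} [Field K] [Algebra F K] [FiniteDimensional F K]
    (hs : ∀ r : F, r ^ 5 ≠ s) (h5 : ¬ 5 ∣ Module.finrank F K) (r : K) :
    r ^ 5 ≠ algebraMap F K s := by sorry

theorem sixteen_dvd {K : Type*} [Field K] [Algebra F K] [FiniteDimensional F K]
    (hζ : IsPrimitiveRoot ζ 5) (hg : Good s) (hs : ∀ r : K, r ^ 5 ≠ algebraMap F K s)
    (c : Fin 5 → K) (hc : S16 (algebraMap F K s) c = 0) (hc0 : c ≠ 0) :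
    16 ∣ Module.finrank F K := by sorry

theorem S16_unique (hζ : IsPrimitiveRoot ζ 5) (hs : ∀ r : F, r ^ 5 ≠ s) (c c' : Fin 5 → F)
    (hc : S16 s c = 0) (hc' : S16 s c' = 0) (hc0 : c ≠ 0) : ∃ μ : F, c' = μ • c := by sorry

theorem S16_algebraic {K : Type*} [Field K] [Algebra F K] (hζ : IsPrimitiveRoot ζ 5)
    (hs : ∀ r : F, r ^ 5 ≠ s) (c : Fin 5 → K) (hc : S16 (algebraMap F K s) c = 0)
    (j₀ : Fin 5) (hj : c j₀ = 1) (j : Fin 5) : IsAlgebraic F (c j) := by sorry

/-- over a good, quadratically closed field there is an anisotropic system of 5 forms in 10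
variables -/
theorem lower10 (hζ : IsPrimitiveRoot ζ 5) (hg : Good s) :
    ∃ A : Fin 5 → Matrix (Fin 10) (Fin 10) F, ∀ x, (∀ i, qv (A i) x = 0) → x = 0 := by sorry

end G

/-! ## Module L (sections are linear): file Lambda.lean -/
section L

theorem lambda {L κ : Type*} [Field L] [CharZero L] [Field κ] {n m r k : ℕ}
    [Algebra (MvPolynomial (Fin r) L) κ] [IsFractionRing (MvPolynomial (Fin r) L) κ]
    (A : Fin k → Matrix (Fin n) (Fin n) L) (h : Fin m → Fin n → L) (e : Fin r → Fin n → L)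
    (hGA : GA fun i => pol (A i) h 0) (y : Fin m → κ)
    (hy : ∀ i, qv ((A i).map fun a => algebraMap (MvPolynomial (Fin r) L) κ (C a))
      (fun a => (∑ j, y j * algebraMap (MvPolynomial (Fin r) L) κ (C (h j a))) +
        ∑ t, algebraMap (MvPolynomial (Fin r) L) κ (X t * C (e t a))) = 0) :
    ∃ φ : Fin r → Fin m → L,
      (∀ j, y j = ∑ t, algebraMap (MvPolynomial (Fin r) L) κ (X t * C (φ t j))) ∧
      ∀ (a : Fin r → L) (i : Fin k), qv (A i) (fun b => ∑ t, a t * (e t b + ∑ j, φ t j * h j b)) = 0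
      := by sorry

end L

/-! ## Module E4: file EndFour.lean -/
section E4

theorem endgame4 {F : Type} [Field F] [CharZero F] (ζ s : F) (hζ : IsPrimitiveRoot ζ 5)
    (hg : Good s) (A : Fin 4 → Matrix (Fin 6) (Fin 6) F)
    (H : ∀ (K : Type) [Field K] [Algebra F K], Good (algebraMap F K s) →
      ∀ x : Fin 6 → K, (∀ i, qv (up K (A i)) x = 0) → x = 0)
    (h : Fin 4 → Fin 6 → F) (e : Fin 2 → Fin 6 → F)
    (hb : LinearIndependent F (Sum.elim h e))
    (hGA : GA fun i => pol (A i) h 0)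
    (L : Type) [Field L] [Algebra F L] (hL : Module.finrank F L = 16)
    (φ : Fin 2 → Fin 4 → L)
    (hφ : ∀ (a : Fin 2 → L) (i : Fin 4), qv (up L (A i)) (fun b => ∑ t, a t *
      (algebraMap F L (e t b) + ∑ j, φ t j * algebraMap F L (h j b))) = 0) : False := by sorry

end E4

/-! ## Module E3: file EndThree.lean -/
section E3

theorem endgame3 {F : Type} [Field F] [CharZero F]
    (A : Fin 4 → Matrix (Fin 6) (Fin 6) F)
    (hA : ∀ c : Fin 4 → F, (∀ x, ∑ i, c i * qv (A i) x = 0) → c = 0)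
    (H0 : ∀ x : Fin 6 → F, (∀ i, qv (A i) x = 0) → x = 0)
    (h : Fin 3 → Fin 6 → F) (e : Fin 3 → Fin 6 → F)
    (hb : LinearIndependent F (Sum.elim h e))
    (hH : ∀ (K : Type) [Field K] [Algebra F K] (y : Fin 3 → K),
      (∀ i, qv (up K (A i)) (fun b => ∑ j, y j * algebraMap F K (h j b)) = 0) → y = 0)
    (L : Type) [Field L] [Algebra F L] (σ : L ≃ₐ[F] L) (hσ5 : ∀ x, (σ^[5]) x = x)
    (hσ : ∀ x : L, σ x = x → ∃ a : F, algebraMap F L a = x) (hσ1 : ∃ x, σ x ≠ x)
    (φ : Fin 3 → Fin 3 → L)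
    (hφ : ∀ (a : Fin 3 → L) (i : Fin 4), qv (up L (A i)) (fun b => ∑ t, a t *
      (algebraMap F L (e t b) + ∑ j, φ t j * algebraMap F L (h j b))) = 0) : False := by sorry

end E3

/-! ## Module K (key lemma): file Key.lean -/
section K

theorem key (F : Type) [Field F] [CharZero F] (ζ s : F) (hζ : IsPrimitiveRoot ζ 5) (hg : Good s)
    (A : Fin 4 → Matrix (Fin 6) (Fin 6) F) :
    ∃ (K : Type) (_ : Field K) (_ : Algebra F K), Good (algebraMap F K s) ∧
      ∃ x : Fin 6 → K, x ≠ 0 ∧ ∀ i, qv (up K (A i)) x = 0 := by sorry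

end K

/-! ## Module U (union of a chain): file Chain.lean -/
section U

theorem exists_field : ∃ (K : Type) (_ : Field K) (_ : CharZero K) (ζ s : K),
    IsPrimitiveRoot ζ 5 ∧ Good s ∧ (∀ a : K, ∃ b, b ^ 2 = a) ∧
    ∀ A : Fin 4 → Matrix (Fin 6) (Fin 6) K, ∃ x : Fin 6 → K, x ≠ 0 ∧ ∀ i, qv (A i) x = 0 := by
  sorry

end U

end LP5
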